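import Pool.Agent.TotallySkew.Open.Defs

/-!
EPS: two compactness arguments.
-/

open scoped Manifold ContDiff Topology
open Function Set

namespace Pool.Agent.TotallySkew

/-- a statement about `(θ, φ)` with the symmetries of the Moebius strip holds everywhere if it holds
for `θ ∈ [0, 1]`, `φ ∈ [0, 2π]` -/
theorem eps_all {S : ℝ → ℝ → Prop} (h1 : ∀ θ φ, S (θ + 1) φ ↔ S θ (-φ))
    (h2 : ∀ θ φ, S θ (φ + 2 * Real.pi) ↔ S θ φ)
    (h : ∀ x ∈ Icc (0 : ℝ) 1 ×ˢ Icc (0 : ℝ) (2 * Real.pi), S x.1 x.2) (θ φ : ℝ) : S θ φ := by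
  have hT : Function.Periodic (fun θ => ∀ φ, S θ φ) 1 := by
    intro θ
    apply propext
    constructor
    · intro h3 φ
      have := (h1 θ (-φ)).1 (h3 _)
      rwa [neg_neg] at this
    · intro h3 φ
      exact (h1 θ φ).2 (h3 _)
  obtain ⟨y, hy, hyT⟩ := hT.exists_mem_Ico₀ one_pos θ
  have key : ∀ φ, S y φ := by
    intro φ
    have hP : Function.Periodic (S y) (2 * Real.pi) := fun φ => propext (h2 y φ)
    obtain ⟨z, hz, hzS⟩ := hP.exists_mem_Ico₀ Real.two_pi_pos φ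
    rw [hzS]
    exact h (y, z) ⟨⟨hy.1, hy.2.le⟩, ⟨hz.1, hz.2.le⟩⟩
  have := hyT.symm ▸ key
  exact this φ

/-- the two points -/
theorem eps_tendsto (θ φ : ℝ) :
    Filter.Tendsto (fun z : ℝ × (ℝ × ℝ) =>
      ((z.2.1 + z.1 * Real.cos z.2.2, z.1 * Real.sin z.2.2),
        (z.2.1 - z.1 * Real.cos z.2.2, -(z.1 * Real.sin z.2.2)))) (𝓝 (0, (θ, φ)))
      (𝓝 (((θ, 0), (θ, 0)) : (ℝ × ℝ) × (ℝ × ℝ))) := by
  have h : Continuous (fun z : ℝ × (ℝ × ℝ) =>
      (((z.2.1 + z.1 * Real.cos z.2.2, z.1 * Real.sin z.2.2),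
        (z.2.1 - z.1 * Real.cos z.2.2, -(z.1 * Real.sin z.2.2))) : (ℝ × ℝ) × (ℝ × ℝ))) := by
    fun_prop
  have h2 := h.tendsto (0, (θ, φ))
  simpa using h2

theorem exists_eps_ne {F : ℝ × ℝ → EuclideanSpace ℝ (Fin 6)} (hF : ContDiff ℝ ∞ F)
    (hsym : ∀ θ s, F (θ + 1, s) = F (θ, -s)) (himm : ∀ p, Injective (fderiv ℝ F p)) :
    ∃ ε₀ > 0, ∀ ε, 0 < ε → ε < ε₀ → ∀ θ φ : ℝ,
      F (θ + ε * Real.cos φ, ε * Real.sin φ) ≠ F (θ - ε * Real.cos φ, -(ε * Real.sin φ)) := by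
  -- local injectivity
  have hloc : ∀ x : ℝ × ℝ, ∀ᶠ z : (ℝ × ℝ) × (ℝ × ℝ) in 𝓝 (x, x), z.1 ≠ z.2 → F z.1 ≠ F z.2 := by
    intro x
    have hs : HasStrictFDerivAt F (fderiv ℝ F x) x :=
      hF.contDiffAt.hasStrictFDerivAt (by norm_num)
    have hi : Injective ((fderiv ℝ F x).toLinearMap) := himm x
    obtain ⟨K, hK, hA⟩ := (LinearMap.injective_iff_antilipschitz _).1 hi
    have hc : (0 : ℝ) < (2 * (K : ℝ))⁻¹ := by positivity
    filter_upwards [hs.isLittleO.def hc] with z hz hne heq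
    have h1 := hA.le_mul_dist z.1 z.2
    rw [dist_eq_norm, dist_eq_norm] at h1
    have h2 : ‖(fderiv ℝ F x) (z.1 - z.2)‖ ≤ (2 * (K : ℝ))⁻¹ * ‖z.1 - z.2‖ := by
      rw [heq, sub_self, zero_sub, norm_neg] at hz
      exact hz
    have h3 : (0 : ℝ) < ‖z.1 - z.2‖ := norm_pos_iff.2 (sub_ne_zero.2 hne)
    have hK' : (0 : ℝ) < K := hK
    have h4 : ‖z.1 - z.2‖ ≤ K * ‖(fderiv ℝ F x) (z.1 - z.2)‖ := by
      rw [map_sub]
      exact h1
    have h5 : (K : ℝ) * ((2 * (K : ℝ))⁻¹ * ‖z.1 - z.2‖) = ‖z.1 - z.2‖ / 2 := by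
      field_simp
    have h6 := mul_le_mul_of_nonneg_left h2 hK'.le
    linarith
  have hev : ∀ y ∈ Icc (0 : ℝ) 1 ×ˢ Icc (0 : ℝ) (2 * Real.pi), ∀ᶠ z : ℝ × (ℝ × ℝ) in 𝓝 (0, y),
      z.1 ≠ 0 → F (z.2.1 + z.1 * Real.cos z.2.2, z.1 * Real.sin z.2.2) ≠
        F (z.2.1 - z.1 * Real.cos z.2.2, -(z.1 * Real.sin z.2.2)) := by
    rintro ⟨θ, φ⟩ -
    have h1 := (eps_tendsto θ φ).eventually (hloc (θ, 0))
    filter_upwards [h1] with z hz hne
    apply hz
    intro heq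
    rw [Prod.mk.injEq] at heq
    obtain ⟨h2, h3⟩ := heq
    have h4 : z.1 * Real.cos z.2.2 = 0 := by linarith
    have h5 : z.1 * Real.sin z.2.2 = 0 := by linarith
    have h6 : Real.cos z.2.2 = 0 := by
      rcases mul_eq_zero.1 h4 with h | h
      · exact absurd h hne
      · exact h
    have h7 : Real.sin z.2.2 = 0 := by
      rcases mul_eq_zero.1 h5 with h | h
      · exact absurd h hne
      · exact h
    have h8 := Real.sin_sq_add_cos_sq z.2.2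
    rw [h6, h7] at h8
    norm_num at h8
  have hcomp := (isCompact_Icc.prod isCompact_Icc).eventually_forall_of_forall_eventually
    (P := fun (ε : ℝ) (y : ℝ × ℝ) => ε ≠ 0 → F (y.1 + ε * Real.cos y.2, ε * Real.sin y.2) ≠
        F (y.1 - ε * Real.cos y.2, -(ε * Real.sin y.2))) hev
  rw [Metric.eventually_nhds_iff] at hcomp
  obtain ⟨ε₀, h0, h⟩ := hcomp
  refine ⟨ε₀, h0, fun ε he he' => ?_⟩
  have h9 := h (y := ε) (by rw [Real.dist_eq, sub_zero, abs_of_pos he]; exact he')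
  refine eps_all (S := fun θ φ => F (θ + ε * Real.cos φ, ε * Real.sin φ) ≠
    F (θ - ε * Real.cos φ, -(ε * Real.sin φ))) ?_ ?_ (fun x hx => h9 x hx he.ne')
  · intro θ φ
    have e1 : F (θ + 1 + ε * Real.cos φ, ε * Real.sin φ) =
        F (θ + ε * Real.cos (-φ), ε * Real.sin (-φ)) := by
      rw [Real.cos_neg, Real.sin_neg, mul_neg,
        show θ + 1 + ε * Real.cos φ = θ + ε * Real.cos φ + 1 by ring, hsym]
    have e2 : F (θ + 1 - ε * Real.cos φ, -(ε * Real.sin φ)) =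
        F (θ - ε * Real.cos (-φ), -(ε * Real.sin (-φ))) := by
      rw [Real.cos_neg, Real.sin_neg, mul_neg,
        show θ + 1 - ε * Real.cos φ = θ - ε * Real.cos φ + 1 by ring, hsym]
    rw [e1, e2]
  · intro θ φ
    rw [Real.cos_add_two_pi, Real.sin_add_two_pi]

theorem exists_eps_ind {F : ℝ × ℝ → EuclideanSpace ℝ (Fin 6)} (hF : ContDiff ℝ ∞ F)
    (hsym : ∀ θ s, F (θ + 1, s) = F (θ, -s)) {e₃ e₄ e₅ : EuclideanSpace ℝ (Fin 6)}
    {e₆ : ℝ → EuclideanSpace ℝ (Fin 6)} (he : Continuous e₆) (he' : ∀ θ, e₆ (θ + 1) = -e₆ θ)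
    (h : ∀ θ, LinearIndependent ℝ ![fderiv ℝ F (θ, 0) (1, 0), fderiv ℝ F (θ, 0) (0, 1), e₃, e₄, e₅,
      e₆ θ]) :
    ∃ ε₀ > 0, ∀ ε, 0 < ε → ε < ε₀ → ∀ θ φ : ℝ, LinearIndependent ℝ
      ![fderiv ℝ F (θ + ε * Real.cos φ, ε * Real.sin φ) (1, 0) +
          fderiv ℝ F (θ - ε * Real.cos φ, -(ε * Real.sin φ)) (1, 0),
        fderiv ℝ F (θ + ε * Real.cos φ, ε * Real.sin φ) (0, 1) +
          fderiv ℝ F (θ - ε * Real.cos φ, -(ε * Real.sin φ)) (0, 1), e₃, e₄, e₅, e₆ θ] := by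
  have hcd : Continuous (fderiv ℝ F) := hF.continuous_fderiv (by norm_num)
  have hdiff : Differentiable ℝ F := hF.differentiable (by norm_num)
  -- the family
  have hcont : Continuous (fun z : ℝ × (ℝ × ℝ) =>
      ![fderiv ℝ F (z.2.1 + z.1 * Real.cos z.2.2, z.1 * Real.sin z.2.2) (1, 0) +
          fderiv ℝ F (z.2.1 - z.1 * Real.cos z.2.2, -(z.1 * Real.sin z.2.2)) (1, 0),
        fderiv ℝ F (z.2.1 + z.1 * Real.cos z.2.2, z.1 * Real.sin z.2.2) (0, 1) +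
          fderiv ℝ F (z.2.1 - z.1 * Real.cos z.2.2, -(z.1 * Real.sin z.2.2)) (0, 1),
        e₃, e₄, e₅, e₆ z.2.1]) := by
    have c1 : Continuous (fun z : ℝ × (ℝ × ℝ) =>
      fderiv ℝ F (z.2.1 + z.1 * Real.cos z.2.2, z.1 * Real.sin z.2.2)) :=
      hcd.comp (by fun_prop)
    have c2 : Continuous (fun z : ℝ × (ℝ × ℝ) =>
      fderiv ℝ F (z.2.1 - z.1 * Real.cos z.2.2, -(z.1 * Real.sin z.2.2))) :=
      hcd.comp (by fun_prop)
    apply continuous_pi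
    intro i
    fin_cases i
    · exact (c1.clm_apply continuous_const).add (c2.clm_apply continuous_const)
    · exact (c1.clm_apply continuous_const).add (c2.clm_apply continuous_const)
    · exact continuous_const
    · exact continuous_const
    · exact continuous_const
    · exact he.comp (continuous_fst.comp continuous_snd)
  have hev : ∀ y ∈ Icc (0 : ℝ) 1 ×ˢ Icc (0 : ℝ) (2 * Real.pi), ∀ᶠ z : ℝ × (ℝ × ℝ) in 𝓝 (0, y),
      LinearIndependent ℝ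
      ![fderiv ℝ F (z.2.1 + z.1 * Real.cos z.2.2, z.1 * Real.sin z.2.2) (1, 0) +
          fderiv ℝ F (z.2.1 - z.1 * Real.cos z.2.2, -(z.1 * Real.sin z.2.2)) (1, 0),
        fderiv ℝ F (z.2.1 + z.1 * Real.cos z.2.2, z.1 * Real.sin z.2.2) (0, 1) +
          fderiv ℝ F (z.2.1 - z.1 * Real.cos z.2.2, -(z.1 * Real.sin z.2.2)) (0, 1),
        e₃, e₄, e₅, e₆ z.2.1] := by
    rintro ⟨θ, φ⟩ -
    have h1 := hcont.continuousAt (x := (0, (θ, φ)))
    refine h1.eventually (isOpen_setOfPred_linearIndependent.mem_nhds ?_)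
    show LinearIndependent ℝ _
    have h2 := (h θ).units_smul ![Units.mk0 (2 : ℝ) two_ne_zero, Units.mk0 (2 : ℝ) two_ne_zero,
      1, 1, 1, 1]
    have e : ![fderiv ℝ F (θ + 0 * Real.cos φ, 0 * Real.sin φ) (1, 0) +
          fderiv ℝ F (θ - 0 * Real.cos φ, -(0 * Real.sin φ)) (1, 0),
        fderiv ℝ F (θ + 0 * Real.cos φ, 0 * Real.sin φ) (0, 1) +
          fderiv ℝ F (θ - 0 * Real.cos φ, -(0 * Real.sin φ)) (0, 1), e₃, e₄, e₅, e₆ θ] =
        ![Units.mk0 (2 : ℝ) two_ne_zero, Units.mk0 (2 : ℝ) two_ne_zero, 1, 1, 1, 1] •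
        ![fderiv ℝ F (θ, 0) (1, 0), fderiv ℝ F (θ, 0) (0, 1), e₃, e₄, e₅, e₆ θ] := by
      ext i : 1
      fin_cases i
      · simp [two_smul, Units.smul_def]
      · simp [two_smul, Units.smul_def]
      · simp
      · simp
      · simp
      · simp
    rw [← e] at h2
    exact h2
  have hcomp := (isCompact_Icc.prod isCompact_Icc).eventually_forall_of_forall_eventually
    (P := fun (ε : ℝ) (y : ℝ × ℝ) => LinearIndependent ℝ
      ![fderiv ℝ F (y.1 + ε * Real.cos y.2, ε * Real.sin y.2) (1, 0) +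
          fderiv ℝ F (y.1 - ε * Real.cos y.2, -(ε * Real.sin y.2)) (1, 0),
        fderiv ℝ F (y.1 + ε * Real.cos y.2, ε * Real.sin y.2) (0, 1) +
          fderiv ℝ F (y.1 - ε * Real.cos y.2, -(ε * Real.sin y.2)) (0, 1),
        e₃, e₄, e₅, e₆ y.1]) hev
  rw [Metric.eventually_nhds_iff] at hcomp
  obtain ⟨ε₀, h0, h9⟩ := hcomp
  refine ⟨ε₀, h0, fun ε he1 he2 => ?_⟩
  have h10 := h9 (y := ε) (by rw [Real.dist_eq, sub_zero, abs_of_pos he1]; exact he2)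
  -- the derivative of the symmetry
  have hd : ∀ θ s : ℝ, ∀ v : ℝ × ℝ, fderiv ℝ F (θ + 1, s) v = fderiv ℝ F (θ, -s) (v.1, -v.2) := by
    intro θ s v
    have e1 : HasFDerivAt (fun p : ℝ × ℝ => F (p.1 + 1, p.2))
        ((fderiv ℝ F (θ + 1, s)).comp ((ContinuousLinearMap.fst ℝ ℝ ℝ).prod
          (ContinuousLinearMap.snd ℝ ℝ ℝ))) (θ, s) := by
      have h1 : HasFDerivAt (fun p : ℝ × ℝ => (p.1 + 1, p.2)) ((ContinuousLinearMap.fst ℝ ℝ ℝ).prod
          (ContinuousLinearMap.snd ℝ ℝ ℝ)) (θ, s) := by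
        exact (hasFDerivAt_fst.add_const 1).prodMk hasFDerivAt_snd
      exact HasFDerivAt.comp (g := F) (θ, s) (hdiff _).hasFDerivAt h1
    have e2 : HasFDerivAt (fun p : ℝ × ℝ => F (p.1, -p.2))
        ((fderiv ℝ F (θ, -s)).comp ((ContinuousLinearMap.fst ℝ ℝ ℝ).prod
          (-(ContinuousLinearMap.snd ℝ ℝ ℝ)))) (θ, s) := by
      have h1 : HasFDerivAt (fun p : ℝ × ℝ => (p.1, -p.2)) ((ContinuousLinearMap.fst ℝ ℝ ℝ).prod
          (-(ContinuousLinearMap.snd ℝ ℝ ℝ))) (θ, s) := by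
        exact hasFDerivAt_fst.prodMk hasFDerivAt_snd.neg
      exact HasFDerivAt.comp (g := F) (θ, s) (hdiff _).hasFDerivAt h1
    have e3 : (fun p : ℝ × ℝ => F (p.1 + 1, p.2)) = (fun p : ℝ × ℝ => F (p.1, -p.2)) := by
      ext1 p
      exact hsym p.1 p.2
    rw [e3] at e1
    have e4 := e1.unique e2
    have e5 := congrArg (fun L => L v) e4
    simpa using e5
  refine eps_all (S := fun θ φ => LinearIndependent ℝ
      ![fderiv ℝ F (θ + ε * Real.cos φ, ε * Real.sin φ) (1, 0) +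
          fderiv ℝ F (θ - ε * Real.cos φ, -(ε * Real.sin φ)) (1, 0),
        fderiv ℝ F (θ + ε * Real.cos φ, ε * Real.sin φ) (0, 1) +
          fderiv ℝ F (θ - ε * Real.cos φ, -(ε * Real.sin φ)) (0, 1), e₃, e₄, e₅, e₆ θ]) ?_ ?_
    (fun x hx => h10 x hx)
  · intro θ φ
    set w : Fin 6 → ℝˣ := ![1, -1, 1, 1, 1, -1] with hw
    have hww : ∀ v : Fin 6 → EuclideanSpace ℝ (Fin 6), w • (w • v) = v := by
      intro v
      ext i : 1
      fin_cases i <;> simp [hw]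
    have e1 : fderiv ℝ F (θ + 1 + ε * Real.cos φ, ε * Real.sin φ) =
        fderiv ℝ F (θ + ε * Real.cos φ + 1, ε * Real.sin φ) := by
      congr 2; ring
    have e2 : fderiv ℝ F (θ + 1 - ε * Real.cos φ, -(ε * Real.sin φ)) =
        fderiv ℝ F (θ - ε * Real.cos φ + 1, -(ε * Real.sin φ)) := by
      congr 2; ring
    have key : ![fderiv ℝ F (θ + 1 + ε * Real.cos φ, ε * Real.sin φ) (1, 0) +
          fderiv ℝ F (θ + 1 - ε * Real.cos φ, -(ε * Real.sin φ)) (1, 0),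
        fderiv ℝ F (θ + 1 + ε * Real.cos φ, ε * Real.sin φ) (0, 1) +
          fderiv ℝ F (θ + 1 - ε * Real.cos φ, -(ε * Real.sin φ)) (0, 1), e₃, e₄, e₅, e₆ (θ + 1)] =
        w • ![fderiv ℝ F (θ + ε * Real.cos (-φ), ε * Real.sin (-φ)) (1, 0) +
          fderiv ℝ F (θ - ε * Real.cos (-φ), -(ε * Real.sin (-φ))) (1, 0),
        fderiv ℝ F (θ + ε * Real.cos (-φ), ε * Real.sin (-φ)) (0, 1) +
          fderiv ℝ F (θ - ε * Real.cos (-φ), -(ε * Real.sin (-φ))) (0, 1), e₃, e₄, e₅, e₆ θ] := by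
      rw [e1, e2, hd, hd, hd, hd, he', Real.cos_neg, Real.sin_neg, mul_neg]
      have n1 : ((0 : ℝ), -(1 : ℝ)) = -((0 : ℝ), (1 : ℝ)) := by simp
      ext i : 1
      fin_cases i
      · simp [hw]
      · simp only [hw]
        simp only [n1, map_neg]
        simp
      · simp [hw]
      · simp [hw]
      · simp [hw]
      · simp [hw]
    show LinearIndependent ℝ _ ↔ LinearIndependent ℝ _
    rw [key]
    constructor
    · intro h1
      have h2 := h1.units_smul w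
      rwa [hww] at h2
    · intro h1
      exact h1.units_smul w
  · intro θ φ
    rw [Real.cos_add_two_pi, Real.sin_add_two_pi]

end Pool.Agent.TotallySkew
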