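import Pool.Agent.TotallySkew.Open.Defs

/-!
GEN: generic constant vectors.

exists_generic_vectors: three times ContDiff.dense_compl_range_of_finrank_lt_finrank.
exists_cross: X v is the vector whose k-th coordinate is the determinant of the 6 × 6 matrix with
rows v 0, ..., v 4 and the k-th standard vector. det (v 0, ..., v 4, w) = ⟨X v, w⟩. X is
continuous. If v is independent then extend it by some w to a basis: ⟨X v, w⟩ ≠ 0, so X v ≠ 0 and
det (v 0, .., v 4, X v) = ‖X v‖² ≠ 0, which is linear independence of the rows. Changing the sign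
of the row v 1 changes the sign of the determinant.
-/

open scoped Manifold ContDiff Topology
open Function Set

namespace Pool.Agent.TotallySkew

private lemma exists_one_more {n : ℕ} (hn : n + 1 < 6) {v : ℝ → Fin n → EuclideanSpace ℝ (Fin 6)}
    (hv : ∀ i, ContDiff ℝ 1 fun θ => v θ i) (h : ∀ θ, LinearIndependent ℝ (v θ)) :
    ∃ e : EuclideanSpace ℝ (Fin 6), ∀ θ,
      LinearIndependent ℝ (Fin.snoc (v θ) e : Fin (n + 1) → EuclideanSpace ℝ (Fin 6)) := by
  have hΦ : ContDiff ℝ 1 (fun p : ℝ × (Fin n → ℝ) => ∑ i, p.2 i • v p.1 i) := by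
    refine ContDiff.sum fun i _ => ?_
    have h1 : ContDiff ℝ 1 (fun p : ℝ × (Fin n → ℝ) => v p.1 i) := (hv i).comp contDiff_fst
    have h2 : ContDiff ℝ 1 (fun p : ℝ × (Fin n → ℝ) => p.2 i) :=
      (contDiff_apply ℝ ℝ i).comp contDiff_snd
    exact h2.smul h1
  have hd := hΦ.dense_compl_range_of_finrank_lt_finrank (by
    rw [Module.finrank_prod, Module.finrank_self, Module.finrank_fin_fun,
      finrank_euclideanSpace_fin]
    omega)
  obtain ⟨e, he⟩ := hd.nonempty
  refine ⟨e, fun θ => ?_⟩
  rw [linearIndependent_finSnoc]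
  refine ⟨h θ, fun hmem => he ?_⟩
  obtain ⟨c, hc⟩ := (Submodule.mem_span_range_iff_exists_fun ℝ).mp hmem
  exact ⟨(θ, c), hc⟩

theorem exists_generic_vectors {f g : ℝ → EuclideanSpace ℝ (Fin 6)} (hf : ContDiff ℝ 1 f)
    (hg : ContDiff ℝ 1 g) (h : ∀ θ, LinearIndependent ℝ ![f θ, g θ]) :
    ∃ e₃ e₄ e₅ : EuclideanSpace ℝ (Fin 6), ∀ θ,
      LinearIndependent ℝ ![f θ, g θ, e₃, e₄, e₅] := by
  obtain ⟨e₃, h₃⟩ := exists_one_more (v := fun θ => ![f θ, g θ]) (by norm_num) (by
    intro i
    fin_cases i
    · exact hf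
    · exact hg) h
  have h₃' : ∀ θ, LinearIndependent ℝ ![f θ, g θ, e₃] := by
    intro θ
    have := h₃ θ
    convert! this using 1
    funext i
    fin_cases i <;> rfl
  obtain ⟨e₄, h₄⟩ := exists_one_more (v := fun θ => ![f θ, g θ, e₃]) (by norm_num) (by
    intro i
    fin_cases i
    · exact hf
    · exact hg
    · exact contDiff_const) h₃'
  have h₄' : ∀ θ, LinearIndependent ℝ ![f θ, g θ, e₃, e₄] := by
    intro θ
    have := h₄ θ
    convert! this using 1
    funext i
    fin_cases i <;> rfl
  obtain ⟨e₅, h₅⟩ := exists_one_more (v := fun θ => ![f θ, g θ, e₃, e₄]) (by norm_num) (by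
    intro i
    fin_cases i
    · exact hf
    · exact hg
    · exact contDiff_const
    · exact contDiff_const) h₄'
  refine ⟨e₃, e₄, e₅, fun θ => ?_⟩
  have := h₅ θ
  convert! this using 1
  funext i
  fin_cases i <;> rfl

/-- The matrix with rows `v 0, ..., v 4, w`. -/
private def crossMat (v : Fin 5 → EuclideanSpace ℝ (Fin 6)) (w : Fin 6 → ℝ) :
    Matrix (Fin 6) (Fin 6) ℝ :=
  Matrix.of ![(v 0).ofLp, (v 1).ofLp, (v 2).ofLp, (v 3).ofLp, (v 4).ofLp, w]

private lemma crossMat_update (v : Fin 5 → EuclideanSpace ℝ (Fin 6)) (w w' : Fin 6 → ℝ) :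
    crossMat v w = (crossMat v w').updateRow 5 w := by
  ext i j
  fin_cases i <;> simp [crossMat, Matrix.updateRow_apply]

private lemma det_crossMat (v : Fin 5 → EuclideanSpace ℝ (Fin 6)) (w : Fin 6 → ℝ) :
    (crossMat v w).det = ∑ k, w k * (crossMat v (Pi.single k 1)).det := by
  have hw : w = ∑ k, w k • (Pi.single k 1 : Fin 6 → ℝ) := by
    funext j
    simp [Finset.sum_apply, Pi.single_apply]
  have hlin : ∀ s : Finset (Fin 6), (crossMat v (∑ k ∈ s, w k • (Pi.single k 1 : Fin 6 → ℝ))).det =
      ∑ k ∈ s, w k * (crossMat v (Pi.single k 1)).det := by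
    intro s
    induction s using Finset.induction_on with
    | empty =>
      rw [Finset.sum_empty, Finset.sum_empty]
      exact Matrix.det_eq_zero_of_row_eq_zero 5 fun j => by simp [crossMat]
    | insert a s ha ih =>
      rw [Finset.sum_insert ha, Finset.sum_insert ha, crossMat_update v _ 0,
        Matrix.det_updateRow_add, Matrix.det_updateRow_smul, ← crossMat_update,
        ← crossMat_update, ih]
  conv_lhs => rw [hw]
  exact hlin Finset.univ

private lemma linearIndependent_iff_det (v : Fin 5 → EuclideanSpace ℝ (Fin 6))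
    (w : EuclideanSpace ℝ (Fin 6)) :
    LinearIndependent ℝ ![v 0, v 1, v 2, v 3, v 4, w] ↔ (crossMat v w.ofLp).det ≠ 0 := by
  rw [← isUnit_iff_ne_zero, ← Matrix.isUnit_iff_isUnit_det, ← Matrix.linearIndependent_rows_iff_isUnit]
  have h := LinearMap.linearIndependent_iff (v := ![v 0, v 1, v 2, v 3, v 4, w])
    (WithLp.linearEquiv 2 ℝ (Fin 6 → ℝ)).toLinearMap (by simp)
  rw [← h]
  have : (⇑(WithLp.linearEquiv 2 ℝ (Fin 6 → ℝ)).toLinearMap ∘ ![v 0, v 1, v 2, v 3, v 4, w]) =
      (crossMat v w.ofLp).row := by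
    funext i
    fin_cases i <;> rfl
  rw [this]

theorem exists_cross : ∃ X : (Fin 5 → EuclideanSpace ℝ (Fin 6)) → EuclideanSpace ℝ (Fin 6),
    Continuous X ∧ (∀ v, LinearIndependent ℝ v →
      LinearIndependent ℝ ![v 0, v 1, v 2, v 3, v 4, X v]) ∧
    ∀ v, X (Function.update v 1 (-v 1)) = -X v := by
  refine ⟨fun v => WithLp.toLp 2 fun k => (crossMat v (Pi.single k 1)).det, ?_, ?_, ?_⟩
  · refine (PiLp.continuous_toLp 2 _).comp (continuous_pi fun k => ?_)
    refine Continuous.matrix_det ?_
    refine continuous_matrix fun i j => ?_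
    fin_cases i
    all_goals first
      | exact continuous_const
      | exact (EuclideanSpace.proj j).continuous.comp (continuous_apply _)
  · intro v hv
    rw [linearIndependent_iff_det, det_crossMat]
    have hne : ∃ k, (crossMat v (Pi.single k 1)).det ≠ 0 := by
      by_contra hcon
      push Not at hcon
      have hspan : Submodule.span ℝ (range v) ≠ ⊤ := by
        intro htop
        have h1 := finrank_span_eq_card hv
        rw [htop, finrank_top, finrank_euclideanSpace_fin] at h1
        simp at h1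
      obtain ⟨w, hw⟩ : ∃ w, w ∉ Submodule.span ℝ (range v) := by
        by_contra hc
        push Not at hc
        exact hspan (Submodule.eq_top_iff'.mpr hc)
      have hli : LinearIndependent ℝ (Fin.snoc v w : Fin 6 → EuclideanSpace ℝ (Fin 6)) :=
        linearIndependent_finSnoc.mpr ⟨hv, hw⟩
      have hli' : LinearIndependent ℝ ![v 0, v 1, v 2, v 3, v 4, w] := by
        convert! hli using 1
        funext i
        fin_cases i <;> rfl
      rw [linearIndependent_iff_det, det_crossMat] at hli'
      apply hli'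
      exact Finset.sum_eq_zero fun k _ => by rw [hcon k, mul_zero]
    obtain ⟨k, hk⟩ := hne
    have : 0 < ∑ k, (crossMat v (Pi.single k 1)).det * (crossMat v (Pi.single k 1)).det :=
      Finset.sum_pos' (fun i _ => mul_self_nonneg _) ⟨k, Finset.mem_univ _, mul_self_pos.mpr hk⟩
    exact this.ne'
  · intro v
    have : ∀ w, (crossMat (Function.update v 1 (-v 1)) w).det = -(crossMat v w).det := by
      intro w
      have h1 : crossMat (Function.update v 1 (-v 1)) w =
          (crossMat v w).updateRow 1 ((-1 : ℝ) • (crossMat v w).row 1) := by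
        ext i j
        fin_cases i <;> simp [crossMat, Matrix.updateRow_apply, Function.update, Matrix.row]
      rw [h1, Matrix.det_updateRow_smul]
      have h2 : (crossMat v w).updateRow 1 ((crossMat v w).row 1) = crossMat v w :=
        Matrix.updateRow_eq_self _ _
      rw [h2, neg_one_mul]
    ext k
    simp [this]

end Pool.Agent.TotallySkew
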