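import Pool.Agent.TotallySkew.Open.LA

/-!
MT: transfer from the surface to strips.
-/

open scoped Manifold ContDiff Topology
open Function Set

namespace Pool.Agent.TotallySkew

section MT
variable {E H M V V' : Type*} [NormedAddCommGroup E] [NormedSpace ℝ E] [TopologicalSpace H]
  {I : ModelWithCorners ℝ E H}
  [TopologicalSpace M] [ChartedSpace H M] [NormedAddCommGroup V] [NormedSpace ℝ V]
  [NormedAddCommGroup V'] [NormedSpace ℝ V']

theorem mvfderiv_strip {β : ℝ × ℝ → M} {p : ℝ × ℝ}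
    (hβ : IsLocalDiffeomorphAt 𝓘(ℝ, ℝ × ℝ) I ∞ β p) {φ : M → V} (hφ : ContMDiff I 𝓘(ℝ, V) ∞ φ) :
    ∃ e : (ℝ × ℝ) ≃L[ℝ] TangentSpace I (β p),
      ∀ v, fderiv ℝ (φ ∘ β) p v = mvfderiv I φ (β p) (e v) := by
  refine ⟨hβ.mfderivToContinuousLinearEquiv (by simp), fun v => ?_⟩
  have h1 : MDifferentiableAt I 𝓘(ℝ, V) φ (β p) := (hφ (β p)).mdifferentiableAt (by simp)
  have h2 : MDifferentiableAt 𝓘(ℝ, ℝ × ℝ) I β p := hβ.mdifferentiableAt (by simp)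
  have h4 := mfderiv_comp_apply p h1 h2 v
  rw [mfderiv_eq_fderiv] at h4
  exact h4

theorem skewPair_iff_strip {β β' : ℝ × ℝ → M} {p p' : ℝ × ℝ}
    (hβ : IsLocalDiffeomorphAt 𝓘(ℝ, ℝ × ℝ) I ∞ β p)
    (hβ' : IsLocalDiffeomorphAt 𝓘(ℝ, ℝ × ℝ) I ∞ β' p')
    {φ : M → V} (hφ : ContMDiff I 𝓘(ℝ, V) ∞ φ) :
    SkewPair I φ (β p) (β' p') ↔
      Injective (pairMap (fderiv ℝ (φ ∘ β) p) (fderiv ℝ (φ ∘ β') p')
        (φ (β p) - φ (β' p'))) := by
  obtain ⟨e, he⟩ := mvfderiv_strip hβ hφ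
  obtain ⟨e', he'⟩ := mvfderiv_strip hβ' hφ
  unfold SkewPair
  rw [injective_pairMap_iff, injective_pairMap_iff]
  constructor
  · intro h a b c habc
    rw [he, he'] at habc
    obtain ⟨h1, h2, h3⟩ := h (e a) (e' b) c habc
    exact ⟨(map_eq_zero_iff e e.injective).1 h1, (map_eq_zero_iff e' e'.injective).1 h2, h3⟩
  · intro h a b c habc
    obtain ⟨h1, h2, h3⟩ := h (e.symm a) (e'.symm b) c (by
      rw [he, he', e.apply_symm_apply, e'.apply_symm_apply]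
      exact habc)
    exact ⟨(map_eq_zero_iff e.symm e.symm.injective).1 h1,
      (map_eq_zero_iff e'.symm e'.symm.injective).1 h2, h3⟩

theorem eventually_skewPair {β β' : ℝ × ℝ → M} {p p' : ℝ × ℝ}
    (hβ : IsLocalDiffeomorph 𝓘(ℝ, ℝ × ℝ) I ∞ β) (hβ' : IsLocalDiffeomorph 𝓘(ℝ, ℝ × ℝ) I ∞ β')
    {φ : M → V} (hφ : ContMDiff I 𝓘(ℝ, V) ∞ φ) (h : SkewPair I φ (β p) (β' p')) :
    ∀ᶠ z : M × M in 𝓝 (β p, β' p'), SkewPair I φ z.1 z.2 := by
  rw [skewPair_iff_strip (hβ p) (hβ' p') hφ] at h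
  have hc : ContDiff ℝ ∞ (φ ∘ β) := (hφ.comp hβ.contMDiff).contDiff
  have hc' : ContDiff ℝ ∞ (φ ∘ β') := (hφ.comp hβ'.contMDiff).contDiff
  have hd : Continuous (fderiv ℝ (φ ∘ β)) := hc.continuous_fderiv (by simp)
  have hd' : Continuous (fderiv ℝ (φ ∘ β')) := hc'.continuous_fderiv (by simp)
  have h1 : ∀ᶠ z : (ℝ × ℝ) × (ℝ × ℝ) in 𝓝 (p, p'),
      Injective (pairMap (fderiv ℝ (φ ∘ β) z.1) (fderiv ℝ (φ ∘ β') z.2)
        (φ (β z.1) - φ (β' z.2))) := by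
    refine eventually_injective_pairMap (t := (p, p')) ?_ ?_ ?_ h
    · exact (hd.comp continuous_fst).continuousAt
    · exact (hd'.comp continuous_snd).continuousAt
    · exact ((hc.continuous.comp continuous_fst).sub (hc'.continuous.comp continuous_snd)).continuousAt
  have ho : IsOpenMap (Prod.map β β') := hβ.isOpenMap.prodMap hβ'.isOpenMap
  have h2 := ho.image_mem_nhds h1
  filter_upwards [h2] with z hz
  obtain ⟨w, hw, rfl⟩ := hz
  exact (skewPair_iff_strip (hβ w.1) (hβ' w.2) hφ).2 hw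

theorem skewPair_postcomp {φ : M → V} (hφ : ContMDiff I 𝓘(ℝ, V) ∞ φ) (L : V →L[ℝ] V') (x y : M) :
    SkewPair I (fun z => L (φ z)) x y ↔
      Injective (L.comp (pairMap (mvfderiv I φ x) (mvfderiv I φ y) (φ x - φ y))) := by
  have h1 : ∀ z, mvfderiv I (fun z => L (φ z)) z = L.comp (mvfderiv I φ z) := by
    intro z
    have h2 : HasMFDerivAt I 𝓘(ℝ, V') (L ∘ φ) z _ :=
      HasMFDerivAt.comp z L.hasFDerivAt.hasMFDerivAt
        ((hφ z).mdifferentiableAt (by simp)).hasMFDerivAt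
    exact h2.mfderiv
  unfold SkewPair
  rw [h1, h1, ← map_sub, comp_pairMap]

end MT

end Pool.Agent.TotallySkew
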