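import Pool.Agent.TotallySkew.Open.FR
import Pool.Agent.TotallySkew.Open.GEN
import Pool.Agent.TotallySkew.Open.EPS
import Pool.Agent.TotallySkew.Open.MT

/-!
MB: no totally skew embedding of a Moebius strip in dimension six.
-/

open scoped Manifold ContDiff Topology
open Function Set

namespace Pool.Agent.TotallySkew

/-- Symmetry of the derivative. -/
theorem fderiv_sym {V : Type*} [NormedAddCommGroup V] [NormedSpace ℝ V] {F : ℝ × ℝ → V}
    (hF : ContDiff ℝ ∞ F) (hsym : ∀ θ s, F (θ + 1, s) = F (θ, -s)) (θ s x y : ℝ) :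
    fderiv ℝ F (θ + 1, s) (x, y) = fderiv ℝ F (θ, -s) (x, -y) := by
  have hd : Differentiable ℝ F := hF.differentiable (by simp)
  have h1 : F ∘ (fun p : ℝ × ℝ => (p.1 + 1, -p.2)) = F := by
    funext p
    have := hsym p.1 (-p.2)
    simpa using this
  have h2 : HasFDerivAt (fun p : ℝ × ℝ => (p.1 + 1, -p.2))
      ((ContinuousLinearMap.fst ℝ ℝ ℝ).prod (-(ContinuousLinearMap.snd ℝ ℝ ℝ))) (θ, -s) := by
    have a1 : HasFDerivAt (fun p : ℝ × ℝ => p.1 + 1) (ContinuousLinearMap.fst ℝ ℝ ℝ) (θ, -s) :=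
      (hasFDerivAt_fst (𝕜 := ℝ) (E := ℝ) (F := ℝ)).add_const 1
    have a2 : HasFDerivAt (fun p : ℝ × ℝ => -p.2) (-(ContinuousLinearMap.snd ℝ ℝ ℝ)) (θ, -s) :=
      (hasFDerivAt_snd (𝕜 := ℝ) (E := ℝ) (F := ℝ)).neg
    exact a1.prodMk a2
  have h3 : HasFDerivAt F (fderiv ℝ F (θ + 1, s)) ((fun p : ℝ × ℝ => (p.1 + 1, -p.2)) (θ, -s)) := by
    have : ((fun p : ℝ × ℝ => (p.1 + 1, -p.2)) (θ, -s)) = (θ + 1, s) := by simp
    rw [this]
    exact (hd _).hasFDerivAt
  have h4 := h3.comp (θ, -s) h2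
  rw [h1] at h4
  have h5 := h4.fderiv
  rw [h5]
  simp

theorem no_strip {F : ℝ × ℝ → EuclideanSpace ℝ (Fin 6)} (hF : ContDiff ℝ ∞ F)
    (hsym : ∀ θ s, F (θ + 1, s) = F (θ, -s)) (himm : ∀ p, Injective (fderiv ℝ F p))
    (hskew : ∀ p q, F p ≠ F q →
      Injective (pairMap (fderiv ℝ F p) (fderiv ℝ F q) (F p - F q))) : False := by
  have hfd : ContDiff ℝ ∞ (fderiv ℝ F) := hF.fderiv_right (by simp)
  have hcF : Continuous F := hF.continuous
  have hcD : Continuous (fderiv ℝ F) := hfd.continuous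
  set f : ℝ → EuclideanSpace ℝ (Fin 6) := fun θ => fderiv ℝ F (θ, 0) (1, 0) with hf
  set g : ℝ → EuclideanSpace ℝ (Fin 6) := fun θ => fderiv ℝ F (θ, 0) (0, 1) with hg
  have hline : ContDiff ℝ ∞ (fun θ : ℝ => ((θ, 0) : ℝ × ℝ)) := contDiff_id.prodMk contDiff_const
  have hfs : ContDiff ℝ ∞ f := (hfd.comp hline).clm_apply contDiff_const
  have hgs : ContDiff ℝ ∞ g := (hfd.comp hline).clm_apply contDiff_const
  have hdec : ∀ (p : ℝ × ℝ) (x y : ℝ), fderiv ℝ F p (x, y) =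
      x • fderiv ℝ F p (1, 0) + y • fderiv ℝ F p (0, 1) := by
    intro p x y
    rw [← map_smul, ← map_smul, ← map_add]
    simp
  have hli : ∀ θ, LinearIndependent ℝ ![f θ, g θ] := by
    intro θ
    rw [LinearIndependent.pair_iff]
    intro x y hxy
    have h1 : fderiv ℝ F (θ, 0) (x, y) = 0 := by rw [hdec]; exact hxy
    have h2 := (injective_iff_map_eq_zero _).1 (himm (θ, 0)) _ h1
    exact ⟨congrArg Prod.fst h2, congrArg Prod.snd h2⟩
  obtain ⟨e₃, e₄, e₅, he⟩ := exists_generic_vectors (hfs.of_le (by simp)) (hgs.of_le (by simp)) hli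
  obtain ⟨X, hXc, hXi, hXs⟩ := exists_cross
  set W : ℝ → Fin 5 → EuclideanSpace ℝ (Fin 6) := fun θ => ![f θ, g θ, e₃, e₄, e₅] with hW
  set e₆ : ℝ → EuclideanSpace ℝ (Fin 6) := fun θ => X (W θ) with he₆
  have hWc : Continuous W := by
    refine continuous_pi fun i => ?_
    fin_cases i
    · exact hfs.continuous
    · exact hgs.continuous
    · exact continuous_const
    · exact continuous_const
    · exact continuous_const
  have he₆c : Continuous e₆ := hXc.comp hWc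
  have hf1 : ∀ θ, f (θ + 1) = f θ := by
    intro θ
    have := fderiv_sym hF hsym θ 0 1 0
    simpa using this
  have hg1 : ∀ θ, g (θ + 1) = -g θ := by
    intro θ
    have := fderiv_sym hF hsym θ 0 0 1
    have h2 : fderiv ℝ F (θ, 0) ((0 : ℝ), (-1 : ℝ)) = -g θ := by
      rw [hdec]
      simp [hg]
    rw [← h2]
    simpa using this
  have he₆1 : ∀ θ, e₆ (θ + 1) = -e₆ θ := by
    intro θ
    have : W (θ + 1) = Function.update (W θ) 1 (-(W θ 1)) := by
      funext i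
      fin_cases i
      · simp [hW, hf1]
      · simp [hW, hg1]
      · simp [hW]
      · simp [hW]
      · simp [hW]
    simp only [he₆]
    rw [this, hXs]
  have he6i : ∀ θ, LinearIndependent ℝ ![fderiv ℝ F (θ, 0) (1, 0), fderiv ℝ F (θ, 0) (0, 1),
      e₃, e₄, e₅, e₆ θ] := by
    intro θ
    exact hXi (W θ) (he θ)
  obtain ⟨ε₁, hε₁, H1⟩ := exists_eps_ne hF hsym himm
  obtain ⟨ε₂, hε₂, H2⟩ := exists_eps_ind hF hsym he₆c he₆1 he6i
  set ε := min ε₁ ε₂ / 2 with hε
  have hε0 : 0 < ε := by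
    have := lt_min hε₁ hε₂
    positivity
  have hεa : ε < ε₁ := by
    have h1 := min_le_left ε₁ ε₂
    have h2 := lt_min hε₁ hε₂
    rw [hε]; linarith
  have hεb : ε < ε₂ := by
    have h1 := min_le_right ε₁ ε₂
    have h2 := lt_min hε₁ hε₂
    rw [hε]; linarith
  set p : ℝ × ℝ → ℝ × ℝ := fun x => (x.1 + ε * Real.cos x.2, ε * Real.sin x.2) with hp
  set q : ℝ × ℝ → ℝ × ℝ := fun x => (x.1 - ε * Real.cos x.2, -(ε * Real.sin x.2)) with hq
  have hpc : Continuous p := by fun_prop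
  have hqc : Continuous q := by fun_prop
  have hne : ∀ x, F (p x) ≠ F (q x) := fun x => H1 ε hε0 hεa x.1 x.2
  have hpπ : ∀ θ φ, p (θ, φ + Real.pi) = q (θ, φ) := by
    intro θ φ
    simp only [hp, hq, Real.cos_add_pi, Real.sin_add_pi]
    ext <;> simp <;> ring
  have hqπ : ∀ θ φ, q (θ, φ + Real.pi) = p (θ, φ) := by
    intro θ φ
    simp only [hp, hq, Real.cos_add_pi, Real.sin_add_pi]
    ext <;> simp
  have hpτ : ∀ θ φ, p (θ + 1, -φ) = ((p (θ, φ)).1 + 1, -(p (θ, φ)).2) := by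
    intro θ φ
    simp only [hp, Real.cos_neg, Real.sin_neg]
    ext <;> simp <;> ring
  have hqτ : ∀ θ φ, q (θ + 1, -φ) = ((q (θ, φ)).1 + 1, -(q (θ, φ)).2) := by
    intro θ φ
    simp only [hq, Real.cos_neg, Real.sin_neg]
    ext <;> simp <;> ring
  have hFτ : ∀ z : ℝ × ℝ, F (z.1 + 1, -z.2) = F z := by
    intro z
    rw [hsym, neg_neg]
  have hD1 : ∀ z : ℝ × ℝ, fderiv ℝ F (z.1 + 1, -z.2) (1, 0) = fderiv ℝ F z (1, 0) := by
    intro z
    rw [fderiv_sym hF hsym]
    simp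
  have hD2 : ∀ z : ℝ × ℝ, fderiv ℝ F (z.1 + 1, -z.2) (0, 1) = -fderiv ℝ F z (0, 1) := by
    intro z
    rw [fderiv_sym hF hsym, hdec]
    simp
  refine no_frames (u₁ := fun x => fderiv ℝ F (p x) (1, 0) + fderiv ℝ F (q x) (1, 0))
    (u₂ := fun x => fderiv ℝ F (p x) (0, 1) + fderiv ℝ F (q x) (0, 1))
    (o₀ := fun x => F (p x) - F (q x))
    (o₁ := fun x => fderiv ℝ F (p x) (1, 0) - fderiv ℝ F (q x) (1, 0))
    (o₂ := fun x => fderiv ℝ F (p x) (0, 1) - fderiv ℝ F (q x) (0, 1))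
    (e₆ := fun x => e₆ x.1) (e₃ := e₃) (e₄ := e₄) (e₅ := e₅)
    ?_ ?_ ?_ ?_ ?_ ?_ ?_ ?_ ?_ ?_ ?_ ?_ ?_ ?_ ?_ ?_ ?_ ?_ ?_ ?_
  · exact ((hcD.comp hpc).clm_apply continuous_const).add
      ((hcD.comp hqc).clm_apply continuous_const)
  · exact ((hcD.comp hpc).clm_apply continuous_const).add
      ((hcD.comp hqc).clm_apply continuous_const)
  · exact (hcF.comp hpc).sub (hcF.comp hqc)
  · exact ((hcD.comp hpc).clm_apply continuous_const).sub
      ((hcD.comp hqc).clm_apply continuous_const)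
  · exact ((hcD.comp hpc).clm_apply continuous_const).sub
      ((hcD.comp hqc).clm_apply continuous_const)
  · exact he₆c.comp continuous_fst
  · intro x
    rw [Fintype.linearIndependent_iff]
    intro c hc
    simp only [Fin.sum_univ_five, Matrix.cons_val] at hc
    have h1 := injective_pairMap_iff.1 (hskew _ _ (hne x)) (c 0 + c 3, c 1 + c 4)
      (c 0 - c 3, c 1 - c 4) (c 2) (by
        rw [hdec (p x), hdec (q x)]
        rw [← hc]
        module)
    obtain ⟨h2, h3, h4⟩ := h1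
    have h2a := congrArg Prod.fst h2
    have h2b := congrArg Prod.snd h2
    have h3a := congrArg Prod.fst h3
    have h3b := congrArg Prod.snd h3
    simp only [Prod.fst_zero, Prod.snd_zero] at h2a h2b h3a h3b
    intro i
    fin_cases i
    · show c 0 = 0; linarith
    · show c 1 = 0; linarith
    · exact h4
    · show c 3 = 0; linarith
    · show c 4 = 0; linarith
  · intro x
    exact H2 ε hε0 hεb x.1 x.2
  · intro θ φ
    simp only [hpπ, hqπ, add_comm]
  · intro θ φ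
    simp only [hpπ, hqπ, add_comm]
  · intro θ φ
    simp only [hpπ, hqπ, neg_sub]
  · intro θ φ
    simp only [hpπ, hqπ, neg_sub]
  · intro θ φ
    simp only [hpπ, hqπ, neg_sub]
  · intro θ φ
    rfl
  · intro θ φ
    simp only [hpτ, hqτ, hD1]
  · intro θ φ
    simp only [hpτ, hqτ, hD2]
    abel
  · intro θ φ
    simp only [hpτ, hqτ, hFτ]
  · intro θ φ
    simp only [hpτ, hqτ, hD1]
  · intro θ φ
    simp only [hpτ, hqτ, hD2]
    abel
  · intro θ φ
    exact he₆1 θ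

theorem exists_injective_linearMap {N K : ℕ} (h : N ≤ K) :
    ∃ L : EuclideanSpace ℝ (Fin N) →ₗ[ℝ] EuclideanSpace ℝ (Fin K), Injective L := by
  refine ⟨{ toFun := fun v => WithLp.toLp 2 (fun i => if hi : (i : ℕ) < N then v ⟨i, hi⟩ else 0)
            map_add' := ?_
            map_smul' := ?_ }, ?_⟩
  · intro v w
    ext i
    by_cases hi : (i : ℕ) < N <;> simp [hi]
  · intro c v
    ext i
    by_cases hi : (i : ℕ) < N <;> simp [hi]
  · intro v w hvw
    ext i
    have h1 := congrArg (fun u : EuclideanSpace ℝ (Fin K) => u ⟨i, lt_of_lt_of_le i.2 h⟩) hvw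
    simpa using h1

theorem seven_le_of_moebius {E H M : Type*} [NormedAddCommGroup E] [NormedSpace ℝ E]
    [TopologicalSpace H] {I : ModelWithCorners ℝ E H} [TopologicalSpace M] [ChartedSpace H M]
    (h : HasMoebiusStrip I M) {N : ℕ} {φ : M → EuclideanSpace ℝ (Fin N)}
    (hφ : IsTotallySkewEmbedding I φ) : 7 ≤ N := by
  by_contra hN
  have hN' : N ≤ 6 := by omega
  obtain ⟨β, hβ, hβs⟩ := h
  obtain ⟨hsm, -, hinj, hsk⟩ := hφ
  obtain ⟨L, hL⟩ : ∃ L : EuclideanSpace ℝ (Fin N) →ₗ[ℝ] EuclideanSpace ℝ (Fin 6), Injective L :=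
    exists_injective_linearMap hN'
  set L' : EuclideanSpace ℝ (Fin N) →L[ℝ] EuclideanSpace ℝ (Fin 6) :=
    LinearMap.toContinuousLinearMap L with hL'
  have hL'i : Injective L' := hL
  set F : ℝ × ℝ → EuclideanSpace ℝ (Fin 6) := fun p => L' (φ (β p)) with hFdef
  have hφβ : ContDiff ℝ ∞ (φ ∘ β) := (hsm.comp hβ.contMDiff).contDiff
  have hF : ContDiff ℝ ∞ F := L'.contDiff.comp hφβ
  have hfd : ∀ p, fderiv ℝ F p = L'.comp (fderiv ℝ (φ ∘ β) p) := by
    intro p
    have h1 : HasFDerivAt (φ ∘ β) (fderiv ℝ (φ ∘ β) p) p :=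
      (hφβ.differentiable (by simp) p).hasFDerivAt
    exact (L'.hasFDerivAt.comp p h1).fderiv
  have hinjp : ∀ p, Injective (fderiv ℝ (φ ∘ β) p) := by
    intro p
    obtain ⟨e, he⟩ := mvfderiv_strip (hβ p) hsm
    intro v w hvw
    rw [he, he] at hvw
    exact e.injective (hinj _ hvw)
  refine no_strip hF ?_ ?_ ?_
  · intro θ s
    simp only [hFdef, hβs]
  · intro p
    rw [hfd]
    exact hL'i.comp (hinjp p)
  · intro p q hpq
    have hne : β p ≠ β q := by
      intro hh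
      exact hpq (by simp only [hFdef, hh])
    obtain ⟨s1, s2⟩ := hsk _ _ hne
    have h1 : SkewPair I φ (β p) (β q) := injective_pairMap_of_skew (hinj _) (hinj _) s1 s2
    rw [skewPair_iff_strip (hβ p) (hβ q) hsm] at h1
    rw [hfd, hfd]
    have h2 : F p - F q = L' (φ (β p) - φ (β q)) := by
      simp only [hFdef, map_sub]
    rw [h2, comp_pairMap]
    exact hL'i.comp h1

end Pool.Agent.TotallySkew
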