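import Pool.Agent.TotallySkew.Open.Defs

/-!
LA: linear algebra of pairs.
-/

open scoped Manifold ContDiff Topology
open Function Set

namespace Pool.Agent.TotallySkew

section LA
variable {G G' V V' : Type*} [AddCommGroup G] [Module ℝ G] [TopologicalSpace G]
  [AddCommGroup G'] [Module ℝ G'] [TopologicalSpace G']
  [NormedAddCommGroup V] [NormedSpace ℝ V] [NormedAddCommGroup V'] [NormedSpace ℝ V']

theorem injective_pairMap_iff {A : G →L[ℝ] V} {B : G' →L[ℝ] V} {w : V} :
    Injective (pairMap A B w) ↔ ∀ a b (c : ℝ), A a + (B b + c • w) = 0 → a = 0 ∧ b = 0 ∧ c = 0 := by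
  rw [injective_iff_map_eq_zero]
  constructor
  · intro h a b c habc
    have h1 := h (a, b, c) habc
    rw [Prod.mk_eq_zero, Prod.mk_eq_zero] at h1
    exact h1
  · rintro h ⟨a, b, c⟩ habc
    obtain ⟨h1, h2, h3⟩ := h a b c habc
    rw [h1, h2, h3]
    rfl

theorem skew_of_injective_pairMap {A : G →L[ℝ] V} {B : G' →L[ℝ] V} {p q : V}
    (h : Injective (pairMap A B (p - q))) :
    Disjoint (AffineSubspace.mk' p A.range) (AffineSubspace.mk' q B.range) ∧
    Disjoint (AffineSubspace.mk' p A.range).direction (AffineSubspace.mk' q B.range).direction := by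
  rw [injective_pairMap_iff] at h
  constructor
  · rw [disjoint_iff, ← AffineSubspace.coe_eq_bot_iff, Set.eq_empty_iff_forall_notMem]
    intro w hw
    obtain ⟨hw1, hw2⟩ := (AffineSubspace.mem_inf_iff w _ _).1 hw
    rw [AffineSubspace.mem_mk'] at hw1 hw2
    obtain ⟨u, hu⟩ := hw1
    obtain ⟨v, hv⟩ := hw2
    have hu' : A u = w - p := hu
    have hv' : B v = w - q := hv
    have h1 := h u (-v) 1 (by
      rw [map_neg, hu', hv']
      simp)
    exact one_ne_zero h1.2.2
  · rw [AffineSubspace.direction_mk', AffineSubspace.direction_mk', Submodule.disjoint_def]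
    rintro w ⟨u, rfl⟩ ⟨v, hv⟩
    have hv' : B v = A u := hv
    have h1 := h u (-v) 0 (by
      rw [map_neg, hv']
      simp)
    have h2 : A u = 0 := by rw [h1.1, map_zero]
    exact h2

theorem injective_pairMap_of_skew {A : G →L[ℝ] V} {B : G' →L[ℝ] V} {p q : V}
    (hA : Injective A) (hB : Injective B)
    (h1 : Disjoint (AffineSubspace.mk' p A.range) (AffineSubspace.mk' q B.range))
    (h2 : Disjoint (AffineSubspace.mk' p A.range).direction
      (AffineSubspace.mk' q B.range).direction) :
    Injective (pairMap A B (p - q)) := by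
  rw [injective_pairMap_iff]
  intro a b c habc
  have hc : c = 0 := by
    by_contra hc
    rw [disjoint_iff, ← AffineSubspace.coe_eq_bot_iff, Set.eq_empty_iff_forall_notMem] at h1
    apply h1 (p + c⁻¹ • A a)
    refine (AffineSubspace.mem_inf_iff _ _ _).2 ⟨?_, ?_⟩
    · rw [AffineSubspace.mem_mk']
      refine ⟨c⁻¹ • a, ?_⟩
      change A (c⁻¹ • a) = (p + c⁻¹ • A a) - p
      rw [map_smul]
      abel
    · rw [AffineSubspace.mem_mk']
      refine ⟨-(c⁻¹ • b), ?_⟩
      change B (-(c⁻¹ • b)) = (p + c⁻¹ • A a) - q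
      have h3 : p - q = -(c⁻¹ • (A a + B b)) := by
        have h4 : c • (p - q) = -(A a + B b) := by
          rw [eq_neg_iff_add_eq_zero, ← habc]
          abel
        rw [← smul_neg, ← h4, smul_smul, inv_mul_cancel₀ hc, one_smul]
      rw [map_neg, map_smul, add_sub_right_comm, h3, smul_add]
      abel
  subst hc
  rw [zero_smul, add_zero] at habc
  rw [AffineSubspace.direction_mk', AffineSubspace.direction_mk', Submodule.disjoint_def] at h2
  have h3 : A a = 0 := by
    apply h2 (A a) ⟨a, rfl⟩
    refine ⟨-b, ?_⟩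
    change B (-b) = A a
    rw [map_neg, eq_comm, eq_neg_iff_add_eq_zero]
    exact habc
  have h4 : B b = 0 := by rw [h3, zero_add] at habc; exact habc
  exact ⟨(injective_iff_map_eq_zero A).1 hA a h3, (injective_iff_map_eq_zero B).1 hB b h4, rfl⟩

theorem comp_pairMap (L : V →L[ℝ] V') (A : G →L[ℝ] V) (B : G' →L[ℝ] V) (w : V) :
    pairMap (L.comp A) (L.comp B) (L w) = L.comp (pairMap A B w) := by
  ext x <;> simp [pairMap]

end LA

section LAopen
variable {T G G' V : Type*} [TopologicalSpace T] [NormedAddCommGroup G] [NormedSpace ℝ G]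
  [FiniteDimensional ℝ G] [NormedAddCommGroup G'] [NormedSpace ℝ G'] [FiniteDimensional ℝ G']
  [NormedAddCommGroup V] [NormedSpace ℝ V]

omit [FiniteDimensional ℝ G] [FiniteDimensional ℝ G'] in
theorem continuousAt_pairMap {A : T → G →L[ℝ] V} {B : T → G' →L[ℝ] V} {w : T → V} {t : T}
    (hA : ContinuousAt A t) (hB : ContinuousAt B t) (hw : ContinuousAt w t) :
    ContinuousAt (fun s => pairMap (A s) (B s) (w s)) t := by
  unfold pairMap
  refine (hA.clm_comp continuousAt_const).add ((((hB.clm_comp continuousAt_const).add ?_)).clm_comp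
    continuousAt_const)
  exact ((ContinuousLinearMap.smulRightL ℝ (G' × ℝ) V
    (ContinuousLinearMap.snd ℝ G' ℝ)).continuous.continuousAt.comp hw)

theorem eventually_injective_pairMap {A : T → G →L[ℝ] V} {B : T → G' →L[ℝ] V} {w : T → V} {t : T}
    (hA : ContinuousAt A t) (hB : ContinuousAt B t) (hw : ContinuousAt w t)
    (h : Injective (pairMap (A t) (B t) (w t))) :
    ∀ᶠ s in 𝓝 t, Injective (pairMap (A s) (B s) (w s)) := by
  have h1 := continuousAt_pairMap hA hB hw
  exact h1.eventually (ContinuousLinearMap.isOpen_injective.mem_nhds h)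

end LAopen

end Pool.Agent.TotallySkew
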