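import Pool.Agent.TotallySkew.Open.MT

/-!
LOC: globalisation of local functions.

exists_local_extension: let γ = hβ.localInverse (smooth near β p, γ (β q) = q for q near p). In
the T2 manifold M choose a SmoothBumpFunction f at the point β p with tsupport f contained in the
interior of U and in the source of the local inverse (SmoothBumpFunction.nhds_basis_tsupport), and
put ψ x = f x • g (γ x). Smooth: contMDiff_of_tsupport. f = 1 near β p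
(SmoothBumpFunction.eventuallyEq_one) and β is continuous at p.
exists_separating: choose disjoint open neighbourhoods U of x = β p and U' of x' = β' p'; apply
exists_local_extension to g q = (1, q) (in ℝ × (ℝ × ℝ)) with U and to g' q = q with U', and take
ψ = (ψ₁, ψ₂). Near p: ψ ∘ β = ((1, q), 0), near p': ψ ∘ β' = (0, q). So (skewPair_iff_strip,
injective_pairMap_iff) A a = ((0, a), 0), B b = (0, b), w = ((1, p), -p'), and
A a + B b + c w = 0 gives c = 0, a = 0, b = 0.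
-/

open scoped Manifold ContDiff Topology
open Function Set

namespace Pool.Agent.TotallySkew

section LOC
variable {E H M V : Type*} [NormedAddCommGroup E] [NormedSpace ℝ E] [FiniteDimensional ℝ E]
  [TopologicalSpace H] {I : ModelWithCorners ℝ E H}
  [TopologicalSpace M] [ChartedSpace H M] [T2Space M] [IsManifold I ∞ M]
  [NormedAddCommGroup V] [NormedSpace ℝ V]

theorem exists_local_extension {β : ℝ × ℝ → M} {p : ℝ × ℝ}
    (hβ : IsLocalDiffeomorphAt 𝓘(ℝ, ℝ × ℝ) I ∞ β p) {g : ℝ × ℝ → V} (hg : ContDiff ℝ ∞ g)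
    {U : Set M} (hU : U ∈ 𝓝 (β p)) :
    ∃ ψ : M → V, ContMDiff I 𝓘(ℝ, V) ∞ ψ ∧ (∀ᶠ q in 𝓝 p, ψ (β q) = g q) ∧ ∀ x ∉ U, ψ x = 0 := by
  have hS : U ∩ hβ.localInverse.source ∈ 𝓝 (β p) :=
    Filter.inter_mem hU (hβ.localInverse.open_source.mem_nhds hβ.localInverse_mem_source)
  obtain ⟨f, -, hf⟩ := (SmoothBumpFunction.nhds_basis_tsupport (I := I) (β p)).mem_iff.1 hS
  refine ⟨fun x => f x • g (hβ.localInverse x), ?_, ?_, ?_⟩
  · refine contMDiff_of_tsupport fun x hx => ?_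
    have hx2 := hf (tsupport_smul_subset_left _ _ hx)
    have h1 : ContMDiffAt I 𝓘(ℝ, ℝ × ℝ) ∞ hβ.localInverse x :=
      (hβ.localInverse.contMDiffOn_toFun x hx2.2).contMDiffAt
        (hβ.localInverse.open_source.mem_nhds hx2.2)
    have h2 : ContMDiffAt 𝓘(ℝ, ℝ × ℝ) 𝓘(ℝ, V) ∞ g (hβ.localInverse x) :=
      hg.contDiffAt.contMDiffAt
    exact f.contMDiffAt.smul (h2.comp x h1)
  · have h1 : ∀ᶠ x in 𝓝 (β p), f x = 1 := f.eventuallyEq_one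
    have h2 : ContinuousAt β p := hβ.contMDiffAt.continuousAt
    have h3 : ∀ᶠ q in 𝓝 p, hβ.localInverse (β q) = q := hβ.localInverse_eventuallyEq_left
    filter_upwards [h2.eventually h1, h3] with q hq1 hq2
    rw [hq1, one_smul, hq2]
  · intro x hx
    have h1 : x ∉ tsupport f := fun h => hx (hf h).1
    have h2 : f x = 0 := image_eq_zero_of_notMem_tsupport h1
    show f x • g (hβ.localInverse x) = 0
    rw [h2, zero_smul]

theorem exists_separating {β β' : ℝ × ℝ → M} {p p' : ℝ × ℝ}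
    (hβ : IsLocalDiffeomorph 𝓘(ℝ, ℝ × ℝ) I ∞ β) (hβ' : IsLocalDiffeomorph 𝓘(ℝ, ℝ × ℝ) I ∞ β')
    (hne : β p ≠ β' p') :
    ∃ ψ : M → (ℝ × ℝ × ℝ) × (ℝ × ℝ), ContMDiff I 𝓘(ℝ, (ℝ × ℝ × ℝ) × (ℝ × ℝ)) ∞ ψ ∧
      SkewPair I ψ (β p) (β' p') := by
  obtain ⟨U, U', hU, hU', hx, hx', hd⟩ := t2_separation hne
  have hsm : ContDiff ℝ ∞ (fun q : ℝ × ℝ => ((1 : ℝ), q)) := contDiff_const.prodMk contDiff_id
  obtain ⟨ψ₁, h1, h2, h3⟩ := exists_local_extension (hβ p) hsm (hU.mem_nhds hx)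
  obtain ⟨ψ₂, g1, g2, g3⟩ := exists_local_extension (hβ' p') (g := fun q : ℝ × ℝ => q)
    contDiff_id (hU'.mem_nhds hx')
  have hψ : ContMDiff I 𝓘(ℝ, (ℝ × ℝ × ℝ) × (ℝ × ℝ)) ∞ (fun x => (ψ₁ x, ψ₂ x)) :=
    h1.prodMk_space g1
  refine ⟨fun x => (ψ₁ x, ψ₂ x), hψ, ?_⟩
  rw [skewPair_iff_strip (hβ p) (hβ' p') hψ]
  have c1 : ContinuousAt β p := (hβ p).contMDiffAt.continuousAt
  have c2 : ContinuousAt β' p' := (hβ' p').contMDiffAt.continuousAt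
  have e1 : (fun x => (ψ₁ x, ψ₂ x)) ∘ β =ᶠ[𝓝 p] fun q => (((1 : ℝ), q), ((0 : ℝ), (0 : ℝ))) := by
    filter_upwards [h2, c1.eventually (hU.mem_nhds hx)] with q hq hqU
    have h4 : ψ₂ (β q) = 0 := g3 _ (fun h => Set.disjoint_left.1 hd hqU h)
    show (ψ₁ (β q), ψ₂ (β q)) = _
    rw [hq, h4]
    rfl
  have e2 : (fun x => (ψ₁ x, ψ₂ x)) ∘ β' =ᶠ[𝓝 p'] fun q => (((0 : ℝ), ((0 : ℝ), (0 : ℝ))), q) := by
    filter_upwards [g2, c2.eventually (hU'.mem_nhds hx')] with q hq hqU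
    have h4 : ψ₁ (β' q) = 0 := h3 _ (fun h => Set.disjoint_left.1 hd h hqU)
    show (ψ₁ (β' q), ψ₂ (β' q)) = _
    rw [hq, h4]
    rfl
  have d1 : HasFDerivAt ((fun x => (ψ₁ x, ψ₂ x)) ∘ β)
      (((0 : ℝ × ℝ →L[ℝ] ℝ).prod (ContinuousLinearMap.id ℝ (ℝ × ℝ))).prod
        (0 : ℝ × ℝ →L[ℝ] ℝ × ℝ)) p :=
    ((((hasFDerivAt_const (1 : ℝ) p).prodMk (hasFDerivAt_id p)).prodMk
      (hasFDerivAt_const ((0 : ℝ), (0 : ℝ)) p)).congr_of_eventuallyEq e1)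
  have d2 : HasFDerivAt ((fun x => (ψ₁ x, ψ₂ x)) ∘ β')
      ((0 : ℝ × ℝ →L[ℝ] ℝ × ℝ × ℝ).prod (ContinuousLinearMap.id ℝ (ℝ × ℝ))) p' :=
    (((hasFDerivAt_const ((0 : ℝ), ((0 : ℝ), (0 : ℝ))) p').prodMk
      (hasFDerivAt_id p')).congr_of_eventuallyEq e2)
  rw [d1.fderiv, d2.fderiv, injective_pairMap_iff]
  have v1 : (ψ₁ (β p), ψ₂ (β p)) = (((1 : ℝ), p), ((0 : ℝ), (0 : ℝ))) := e1.eq_of_nhds
  have v2 : (ψ₁ (β' p'), ψ₂ (β' p')) = (((0 : ℝ), ((0 : ℝ), (0 : ℝ))), p') := e2.eq_of_nhds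
  intro a b c h
  rw [v1, v2] at h
  have k1 := congrArg (fun z : (ℝ × ℝ × ℝ) × (ℝ × ℝ) => z.1.1) h
  have k2 := congrArg (fun z : (ℝ × ℝ × ℝ) × (ℝ × ℝ) => z.1.2) h
  have k3 := congrArg (fun z : (ℝ × ℝ × ℝ) × (ℝ × ℝ) => z.2) h
  have hc : c = 0 := by simpa using k1
  subst hc
  refine ⟨?_, ?_, rfl⟩
  · simpa using k2
  · simpa using k3

end LOC

end Pool.Agent.TotallySkew
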