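import Pool.Agent.TotallySkew.Open.LA

/-!
CUB: the complex twisted cubic as a map of the real plane.
-/

open scoped Manifold ContDiff Topology
open Function Set

namespace Pool.Agent.TotallySkew

/-- The complex twisted cubic as a map of the real plane. -/
noncomputable def cub (p : ℝ × ℝ) : ℂ × ℂ × ℂ :=
  (⟨p.1, p.2⟩, (⟨p.1, p.2⟩ : ℂ) ^ 2, (⟨p.1, p.2⟩ : ℂ) ^ 3)

/-- The identification of the real plane with the complex numbers. -/
noncomputable def toC : ℝ × ℝ →L[ℝ] ℂ :=
  (Complex.equivRealProdCLM.symm : (ℝ × ℝ) ≃L[ℝ] ℂ)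

theorem toC_apply (p : ℝ × ℝ) : toC p = ⟨p.1, p.2⟩ := by
  change Complex.equivRealProdCLM.symm p = _
  rw [Complex.equivRealProdCLM_symm_apply]
  apply Complex.ext <;> simp

theorem toC_eq_zero {p : ℝ × ℝ} (h : toC p = 0) : p = 0 := by
  rw [toC_apply, Complex.ext_iff] at h
  exact Prod.ext h.1 h.2

theorem cub_eq : cub = fun p => (toC p, toC p ^ 2, toC p ^ 3) := by
  funext p
  rw [cub, toC_apply]

theorem contDiff_cub : ContDiff ℝ ∞ cub := by
  rw [cub_eq]
  have h : ContDiff ℝ ∞ toC := toC.contDiff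
  exact h.prodMk ((h.pow 2).prodMk (h.pow 3))

theorem fderiv_cub (p b : ℝ × ℝ) :
    fderiv ℝ cub p b = (toC b, 2 * toC p * toC b, 3 * toC p ^ 2 * toC b) := by
  have h := toC.hasFDerivAt (x := p)
  have h2 := h.mul h
  have h3 := (h.mul h).mul h
  have e : cub = fun p => (toC p, (⇑toC * ⇑toC) p, (⇑toC * ⇑toC * ⇑toC) p) := by
    rw [cub_eq]
    funext p
    simp only [Pi.mul_apply, pow_succ, pow_zero, one_mul]
  rw [e, (h.prodMk (h2.prodMk h3)).fderiv]
  simp only [ContinuousLinearMap.prod_apply, add_apply,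
    smul_apply, smul_eq_mul, Pi.mul_apply]
  refine Prod.ext rfl (Prod.ext ?_ ?_)
  · simp only; ring
  · simp only; ring

theorem fderiv2_cub (p v b : ℝ × ℝ) :
    fderiv ℝ (fderiv ℝ cub) p v b = (0, 2 * toC v * toC b, 6 * toC p * toC v * toC b) := by
  have hd : DifferentiableAt ℝ (fderiv ℝ cub) p :=
    ((contDiff_cub.fderiv_right (m := ∞) (by simp)).differentiable (by simp)).differentiableAt
  have e1 : fderiv ℝ (fderiv ℝ cub) p v b = fderiv ℝ (fun q => fderiv ℝ cub q b) p v := by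
    rw [fderiv_clm_apply hd (differentiableAt_const b)]
    simp
  have e2 : (fun q => fderiv ℝ cub q b) =
      fun q => (toC b, toC q * (2 * toC b), (⇑toC * ⇑toC) q * (3 * toC b)) := by
    funext q
    rw [fderiv_cub, Pi.mul_apply]
    refine Prod.ext rfl (Prod.ext ?_ ?_)
    · simp only; ring
    · simp only; ring
  have h := toC.hasFDerivAt (x := p)
  have h1 := hasFDerivAt_const (𝕜 := ℝ) (toC b) p
  rw [e1, e2, (h1.prodMk ((h.mul_const (2 * toC b)).prodMk ((h.mul h).mul_const (3 * toC b)))).fderiv]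
  simp only [ContinuousLinearMap.prod_apply, add_apply,
    smul_apply, smul_eq_mul, zero_apply]
  refine Prod.ext rfl (Prod.ext ?_ ?_)
  · simp only; ring
  · simp only; ring

theorem fderiv3_cub (p u v b : ℝ × ℝ) :
    fderiv ℝ (fderiv ℝ (fderiv ℝ cub)) p u v b = (0, 0, 6 * toC u * toC v * toC b) := by
  have hd1 : ContDiff ℝ ∞ (fderiv ℝ cub) := contDiff_cub.fderiv_right (by simp)
  have hd : DifferentiableAt ℝ (fderiv ℝ (fderiv ℝ cub)) p :=
    ((hd1.fderiv_right (m := ∞) (by simp)).differentiable (by simp)).differentiableAt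
  have e1 : fderiv ℝ (fderiv ℝ (fderiv ℝ cub)) p u v b =
      fderiv ℝ (fun q => fderiv ℝ (fderiv ℝ cub) q v b) p u := by
    rw [fderiv_clm_apply (hd.clm_apply (differentiableAt_const v)) (differentiableAt_const b),
      fderiv_clm_apply hd (differentiableAt_const v)]
    simp
  have e2 : (fun q => fderiv ℝ (fderiv ℝ cub) q v b) =
      fun q => (0, 2 * toC v * toC b, toC q * (6 * toC v * toC b)) := by
    funext q
    rw [fderiv2_cub]
    refine Prod.ext rfl (Prod.ext rfl ?_)
    simp only; ring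
  have h := toC.hasFDerivAt (x := p)
  have h1 := hasFDerivAt_const (𝕜 := ℝ) (2 * toC v * toC b) p
  have h0 := hasFDerivAt_const (𝕜 := ℝ) (0 : ℂ) p
  rw [e1, e2, (h0.prodMk (h1.prodMk (h.mul_const (6 * toC v * toC b)))).fderiv]
  simp only [ContinuousLinearMap.prod_apply,
    smul_apply, smul_eq_mul, zero_apply]
  refine Prod.ext rfl (Prod.ext rfl ?_)
  simp only; ring

theorem injective_cubMap_cub (m v : ℝ × ℝ) (hv : v ≠ 0) :
    Injective (cubMap cub (ContinuousLinearMap.id ℝ (ℝ × ℝ)) m v) := by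
  have hv' : toC v ≠ 0 := fun h => hv (toC_eq_zero h)
  unfold cubMap
  rw [injective_pairMap_iff]
  intro a b c h
  simp only [ContinuousLinearMap.comp_apply, ContinuousLinearMap.id_apply, fderiv_cub,
    fderiv2_cub, fderiv3_cub] at h
  have h1 := congrArg Prod.fst h
  have h2 := congrArg (fun x : ℂ × ℂ × ℂ => x.2.1) h
  have h3 := congrArg (fun x : ℂ × ℂ × ℂ => x.2.2) h
  simp only [Prod.fst_add, Prod.snd_add, Prod.smul_fst, Prod.smul_snd, Prod.fst_zero,
    Prod.snd_zero, smul_zero, add_zero] at h1 h2 h3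
  have ha : a = 0 := toC_eq_zero h1
  rw [h1, mul_zero, zero_add] at h2
  have hb : toC b = 0 := by
    rcases mul_eq_zero.1 h2 with h4 | h4
    · exact absurd ((mul_eq_zero.1 h4).resolve_left two_ne_zero) hv'
    · exact h4
  refine ⟨ha, toC_eq_zero hb, ?_⟩
  rw [h1, hb, mul_zero, mul_zero, zero_add, zero_add] at h3
  by_contra hc
  have h5 := (smul_eq_zero.1 h3).resolve_left hc
  have h6 : (6 : ℂ) * toC v * toC v * toC v ≠ 0 :=
    mul_ne_zero (mul_ne_zero (mul_ne_zero (by norm_num) hv') hv') hv'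
  exact h6 h5

end Pool.Agent.TotallySkew
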