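import Pool.Agent.TotallySkew.Defs

/-!
Open surfaces: Moebius strips, one-dimensional spines, and the linear algebra of pairs.
-/

open scoped Manifold ContDiff Topology

namespace Pool.Agent.TotallySkew

section strips

variable {E H : Type*} [NormedAddCommGroup E] [NormedSpace ℝ E] [TopologicalSpace H]

/-- The surface `M` contains a Moebius strip: there is a local diffeomorphism `β : ℝ × ℝ → M`
with `β (θ + 1, s) = β (θ, -s)`. -/
def HasMoebiusStrip (I : ModelWithCorners ℝ E H) (M : Type*) [TopologicalSpace M]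
    [ChartedSpace H M] : Prop :=
  ∃ β : ℝ × ℝ → M, IsLocalDiffeomorph 𝓘(ℝ, ℝ × ℝ) I ∞ β ∧ ∀ θ s : ℝ, β (θ + 1, s) = β (θ, -s)

variable {M : Type*} [TopologicalSpace M] [ChartedSpace H M]

/-- `K` is covered by finitely many arcs `t ↦ β (t, 0)`, `0 ≤ t ≤ 1`, each of them the core of
an immersed strip, that is, of a local diffeomorphism `β : ℝ × ℝ → M`. -/
def IsOneDimensional (I : ModelWithCorners ℝ E H) (K : Set M) : Prop :=
  ∃ (n : ℕ) (β : Fin n → ℝ × ℝ → M), (∀ j, IsLocalDiffeomorph 𝓘(ℝ, ℝ × ℝ) I ∞ (β j)) ∧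
    K ⊆ ⋃ j, (fun t : ℝ => β j (t, 0)) '' Set.Icc 0 1

/-- `M` can be pushed by smooth embeddings into every neighbourhood of `K`. -/
def ShrinksTo (I : ModelWithCorners ℝ E H) (K : Set M) : Prop :=
  ∀ U : Set M, IsOpen U → K ⊆ U → ∃ f : M → M, ContMDiff I I ∞ f ∧ Topology.IsEmbedding f ∧
    (∀ x, Function.Injective (mfderiv I I f x)) ∧ Set.range f ⊆ U

/-- `M` has a one-dimensional spine: a compact set `K` covered by finitely many smooth immersed
arcs such that `M` embeds smoothly in every neighbourhood of `K`. -/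
def HasSpine (I : ModelWithCorners ℝ E H) (M : Type*) [TopologicalSpace M]
    [ChartedSpace H M] : Prop :=
  ∃ K : Set M, IsCompact K ∧ IsOneDimensional I K ∧ ShrinksTo I K

end strips

section pair

variable {G G' V : Type*} [AddCommGroup G] [Module ℝ G] [TopologicalSpace G]
  [AddCommGroup G'] [Module ℝ G'] [TopologicalSpace G']
  [NormedAddCommGroup V] [NormedSpace ℝ V]

/-- The linear map `(a, b, c) ↦ A a + B b + c w`. -/
noncomputable def pairMap (A : G →L[ℝ] V) (B : G' →L[ℝ] V) (w : V) : G × G' × ℝ →L[ℝ] V :=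
  A.comp (ContinuousLinearMap.fst ℝ G (G' × ℝ)) +
    (B.comp (ContinuousLinearMap.fst ℝ G' ℝ) +
      (ContinuousLinearMap.snd ℝ G' ℝ).smulRight w).comp (ContinuousLinearMap.snd ℝ G (G' × ℝ))

@[simp] theorem pairMap_apply (A : G →L[ℝ] V) (B : G' →L[ℝ] V) (w : V) (x : G × G' × ℝ) :
    pairMap A B w x = A x.1 + (B x.2.1 + x.2.2 • w) := rfl

end pair

section skew

variable {E H M V : Type*} [NormedAddCommGroup E] [NormedSpace ℝ E] [TopologicalSpace H]
  [TopologicalSpace M] [ChartedSpace H M] [NormedAddCommGroup V] [NormedSpace ℝ V]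

/-- The tangent spaces of `φ` at `x` and at `y` and the vector `φ x - φ y` are independent, and
`dφ` is injective at `x` and at `y`. -/
def SkewPair (I : ModelWithCorners ℝ E H) (φ : M → V) (x y : M) : Prop :=
  Function.Injective (pairMap (mvfderiv I φ x) (mvfderiv I φ y) (φ x - φ y))

end skew

section cubic

variable {G P V : Type*} [NormedAddCommGroup G] [NormedSpace ℝ G] [NormedAddCommGroup P]
  [NormedSpace ℝ P] [NormedAddCommGroup V] [NormedSpace ℝ V]

/-- The third order condition on the diagonal: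
`(a, b, c) ↦ DF(j a) + D²F(j v, j b) + c D³F(j v, j v, j v)` at the point `m`. -/
noncomputable def cubMap (F : P → V) (j : G →L[ℝ] P) (m : P) (v : G) : G × G × ℝ →L[ℝ] V :=
  pairMap ((fderiv ℝ F m).comp j) ((fderiv ℝ (fderiv ℝ F) m (j v)).comp j)
    (fderiv ℝ (fderiv ℝ (fderiv ℝ F)) m (j v) (j v) (j v))

end cubic

section good

variable {E H M V : Type*} [NormedAddCommGroup E] [NormedSpace ℝ E] [TopologicalSpace H]
  [TopologicalSpace M] [ChartedSpace H M] [NormedAddCommGroup V] [NormedSpace ℝ V]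

/-- The map `ψ` is totally skew to third order along the compact set `K` covered by the cores of
the strips `β j`. -/
structure GoodMap (I : ModelWithCorners ℝ E H) (K : Set M) {n : ℕ} (β : Fin n → ℝ × ℝ → M)
    (ψ : M → V) : Prop where
  smooth : ContMDiff I 𝓘(ℝ, V) ∞ ψ
  far : ∀ x ∈ K, ∀ y ∈ K, x ≠ y → SkewPair I ψ x y
  near : ∀ j, ∀ t ∈ Set.Icc (0 : ℝ) 1, ∀ v : ℝ × ℝ, v ≠ 0 →
    Function.Injective (cubMap (ψ ∘ β j) (ContinuousLinearMap.id ℝ (ℝ × ℝ)) (t, 0) v)

end good

end Pool.Agent.TotallySkew
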