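import Pool.Agent.TotallySkew.Open.LA

/-!
NC: the third order condition.
-/

open scoped Manifold ContDiff Topology
open Function Set

namespace Pool.Agent.TotallySkew

section NC
variable {G P V : Type*} [NormedAddCommGroup G] [NormedSpace ℝ G]
  [NormedAddCommGroup P] [NormedSpace ℝ P] [NormedAddCommGroup V] [NormedSpace ℝ V]

/-- The derivative of a linear map applied to a smooth map. -/
theorem fderiv_postcomp {V' : Type*} [NormedAddCommGroup V'] [NormedSpace ℝ V'] {F : P → V}
    (hF : ContDiff ℝ ∞ F) (L : V →L[ℝ] V') :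
    fderiv ℝ (fun x => L (F x)) = fun m => ContinuousLinearMap.compL ℝ P V V' L (fderiv ℝ F m) := by
  funext m
  exact (L.hasFDerivAt.comp m (hF.differentiable (by simp)).differentiableAt.hasFDerivAt).fderiv

theorem contDiff_fderiv {F : P → V} (hF : ContDiff ℝ ∞ F) : ContDiff ℝ ∞ (fderiv ℝ F) :=
  hF.fderiv_right (by simp)

theorem cubMap_postcomp {V' : Type*} [NormedAddCommGroup V'] [NormedSpace ℝ V'] {F : P → V}
    (hF : ContDiff ℝ ∞ F) (j : G →L[ℝ] P) (m : P) (v : G) (L : V →L[ℝ] V') :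
    cubMap (fun x => L (F x)) j m v = L.comp (cubMap F j m v) := by
  have h1 := fderiv_postcomp hF L
  have h2 := fderiv_postcomp (contDiff_fderiv hF) (ContinuousLinearMap.compL ℝ P V V' L)
  have h3 := fderiv_postcomp (V := P →L[ℝ] P →L[ℝ] V) (V' := P →L[ℝ] P →L[ℝ] V')
    (contDiff_fderiv (contDiff_fderiv hF))
    (ContinuousLinearMap.compL ℝ P (P →L[ℝ] V) (P →L[ℝ] V') (ContinuousLinearMap.compL ℝ P V V' L))
  unfold cubMap
  rw [h1, h2, h3, ← comp_pairMap]
  rfl

theorem cubMap_congr {F F' : P → V} {m : P} (h : F =ᶠ[𝓝 m] F') (j : G →L[ℝ] P) (v : G) :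
    cubMap F j m v = cubMap F' j m v := by
  have h1 := h.fderiv (𝕜 := ℝ)
  have h2 := h1.fderiv (𝕜 := ℝ)
  have h3 := h2.fderiv (𝕜 := ℝ)
  unfold cubMap
  rw [h1.eq_of_nhds, h2.eq_of_nhds, h3.eq_of_nhds]

theorem cubMap_smul (F : P → V) (j : G →L[ℝ] P) (m : P) (v : G) (r : ℝ) (a b : G) (c : ℝ) :
    cubMap F j m (r • v) (a, b, c) = cubMap F j m v (a, r • b, r ^ 3 * c) := by
  simp only [cubMap, pairMap_apply, map_smul, smul_apply,
    ContinuousLinearMap.comp_apply, smul_smul]
  congr 3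
  ring

theorem eventually_injective_cubMap [FiniteDimensional ℝ G] {F : P → V} (hF : ContDiff ℝ ∞ F)
    (j : G →L[ℝ] P) (m : P) (h : ∀ v : G, v ≠ 0 → Injective (cubMap F j m v)) :
    ∀ᶠ m' in 𝓝 m, ∀ v : G, v ≠ 0 → Injective (cubMap F j m' v) := by
  have hc1 : Continuous (fderiv ℝ F) := (contDiff_fderiv hF).continuous
  have hc2 : Continuous (fderiv ℝ (fderiv ℝ F)) := (contDiff_fderiv (contDiff_fderiv hF)).continuous
  have hc3 : Continuous (fderiv ℝ (fderiv ℝ (fderiv ℝ F))) :=
    (contDiff_fderiv (contDiff_fderiv (contDiff_fderiv hF))).continuous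
  have key : ∀ᶠ m' in 𝓝 m, ∀ v ∈ Metric.sphere (0 : G) 1, Injective (cubMap F j m' v) := by
    apply (isCompact_sphere (0 : G) 1).eventually_forall_of_forall_eventually
    intro v hv
    have hv0 : v ≠ 0 := by
      rintro rfl
      simp at hv
    have hA : Continuous (fun s : P × G => (fderiv ℝ F s.1).comp j) :=
      (hc1.comp continuous_fst).clm_comp continuous_const
    have hj : Continuous (fun s : P × G => j s.2) := j.continuous.comp continuous_snd
    have hB : Continuous (fun s : P × G => ((fderiv ℝ (fderiv ℝ F) s.1) (j s.2)).comp j) :=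
      ((hc2.comp continuous_fst).clm_apply hj).clm_comp continuous_const
    have hw : Continuous (fun s : P × G => fderiv ℝ (fderiv ℝ (fderiv ℝ F)) s.1 (j s.2) (j s.2)
        (j s.2)) :=
      (((hc3.comp continuous_fst).clm_apply hj).clm_apply hj).clm_apply hj
    exact eventually_injective_pairMap (t := (m, v)) hA.continuousAt hB.continuousAt
      hw.continuousAt (h v hv0)
  filter_upwards [key] with m' hm' v hv
  have hr : 0 < ‖v‖ := norm_pos_iff.2 hv
  have hu : ‖v‖⁻¹ • v ∈ Metric.sphere (0 : G) 1 := by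
    rw [mem_sphere_zero_iff_norm, norm_smul, norm_inv, norm_norm, inv_mul_cancel₀ hr.ne']
  have hinj := hm' _ hu
  have hv' : v = ‖v‖ • (‖v‖⁻¹ • v) := by rw [smul_smul, mul_inv_cancel₀ hr.ne', one_smul]
  rw [injective_iff_map_eq_zero]
  rintro ⟨a, b, c⟩ habc
  rw [hv', cubMap_smul] at habc
  have h0 := (injective_iff_map_eq_zero _).1 hinj _ habc
  rw [Prod.mk_eq_zero, Prod.mk_eq_zero, smul_eq_zero, mul_eq_zero] at h0
  obtain ⟨ha, hb, hc⟩ := h0
  have hb' : b = 0 := hb.resolve_left hr.ne'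
  have hc' : c = 0 := hc.resolve_left (pow_ne_zero 3 hr.ne')
  rw [ha, hb', hc']
  rfl

end NC

end Pool.Agent.TotallySkew
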