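import Pool.Agent.TotallySkew.Open.LA

/-!
ND: pairs near the diagonal.

nearDiag. Write p + j v = m' + ε j u, p = m' - ε j u with m' = p + (1/2) j v, ε = ‖v‖ / 2,
u = v / ‖v‖, and let q = p + j v. Put D1 = fderiv F, D2 = fderiv D1, D3 = fderiv D2 and define for
(m', ε, u) in P × ℝ × G the linear map
  Φ (m', ε, u) (a, b, c) = (1/2) (D1 (m' + ε j u) + D1 (m' - ε j u)) (j a)
     + (1/2) (∫ t in -1..1, D2 (m' + t ε j u)) (j u) (j b)
     - (c/4) ∫ t in -1..1, (1 - t^2) • D3 (m' + t ε j u) (j u) (j u) (j u).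
(1) Φ is continuous in (m', ε, u) (intervalIntegral.continuous_parametric_intervalIntegral_of_continuous').
(2) Φ (m, 0, u) (a, b, c) = cubMap F j m u (a, b, -c/3): injective for u ≠ 0.
(3) By compactness of the unit sphere of G and openness of injectivity (see LA) there are δ > 0
and a neighbourhood of m such that Φ (m', ε, u) is injective for m' in it, 0 ≤ ε < δ, ‖u‖ = 1
(IsCompact.eventually_forall_of_forall_eventually).
(4) For ε > 0: with A = (D1 q).comp j, B = (D1 p).comp j, w = F q - F p the fundamental theorem of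
calculus gives (1/2) ∫ D2 (m' + t ε j u) (j u) (j b) = (A b - B b) / (2 ε), and with
g t = D1 (m' + t ε j u) (j u) one has w = ε ∫ g and, integrating by parts twice,
(1/2) ∫ g - (1/2) (g 1 + g (-1)) = -(1/4) ∫ (1 - t^2) g'' t, where
g'' t = ε^2 D3 (m' + t ε j u) (j u) (j u) (j u). So
Φ (a, b, c) = A (a/2 + b/(2ε) - c u/(2ε^2)) + B (a/2 - b/(2ε) - c u/(2ε^2)) + (c/(2ε^3)) w.
If pairMap A B w (a', b', c') = 0 then, with c = 2 ε^3 c', a = a' + b' + 2 ε c' u,
b = ε (a' - b'), Φ (a, b, c) = 0, so a = b = c = 0 and a' = b' = c' = 0. (The statement of the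
theorem has the roles of p and q exchanged: A, B and -w; the same by symmetry.)
A one variable form of (4) may be easier: for a smooth g : ℝ → V,
∫ t in -1..1, (1 - t^2) • g'' t = 2 ∫ t in -1..1, g t - 2 (g 1 + g (-1)) ... check:
∫ (1-t^2) g'' = [ (1-t^2) g' ] + 2 ∫ t g' = 2 (g 1 + g (-1)) - 2 ∫ g.
nearDiag_id: j = id, v = q - p.
-/

open scoped Manifold ContDiff Topology
open Function Set

namespace Pool.Agent.TotallySkew

section ND
variable {G P V : Type*} [NormedAddCommGroup G] [NormedSpace ℝ G] [FiniteDimensional ℝ G]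
  [NormedAddCommGroup P] [NormedSpace ℝ P] [NormedAddCommGroup V] [NormedSpace ℝ V]
  [FiniteDimensional ℝ V]

theorem nd_int_parts {W : Type*} [NormedAddCommGroup W] [NormedSpace ℝ W] [CompleteSpace W]
    {g g' g'' : ℝ → W} (h1 : ∀ t, HasDerivAt g (g' t) t) (h2 : ∀ t, HasDerivAt g' (g'' t) t)
    (hc : Continuous g'') :
    ∫ t in (-1 : ℝ)..1, (1 - t ^ 2) • g'' t =
      (2 : ℝ) • (g 1 + g (-1)) - (2 : ℝ) • ∫ t in (-1 : ℝ)..1, g t := by
  have hg : Continuous g := continuous_iff_continuousAt.2 fun t => (h1 t).continuousAt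
  have hH : ∀ t ∈ uIcc (-1 : ℝ) 1, HasDerivAt (fun t : ℝ => (1 - t ^ 2) • g' t + (2 * t) • g t)
      ((1 - t ^ 2) • g'' t + (2 : ℝ) • g t) t := by
    intro t _
    have h3 : HasDerivAt (fun t : ℝ => 1 - t ^ 2) (-(2 * t)) t := by
      have := (hasDerivAt_pow 2 t).const_sub 1
      simpa using this
    have h4 : HasDerivAt (fun t : ℝ => 2 * t) 2 t := by
      simpa using (hasDerivAt_id t).const_mul (2 : ℝ)
    have h5 := (h3.smul (h2 t)).add (h4.smul (h1 t))
    refine HasDerivAt.congr_deriv (f := fun t : ℝ => (1 - t ^ 2) • g' t + (2 * t) • g t) h5 ?_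
    module
  have hi1 : IntervalIntegrable (fun t : ℝ => (1 - t ^ 2) • g'' t) MeasureTheory.volume (-1) 1 :=
    Continuous.intervalIntegrable (by fun_prop) _ _
  have hi2 : IntervalIntegrable (fun t : ℝ => (2 : ℝ) • g t) MeasureTheory.volume (-1) 1 :=
    Continuous.intervalIntegrable (by fun_prop) _ _
  have h6 := intervalIntegral.integral_eq_sub_of_hasDerivAt hH (hi1.add hi2)
  rw [intervalIntegral.integral_add hi1 hi2, intervalIntegral.integral_smul] at h6
  rw [eq_sub_iff_add_eq, h6]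
  norm_num

theorem nd_line_deriv {W : Type*} [NormedAddCommGroup W] [NormedSpace ℝ W] {H : P → W}
    (hH : Differentiable ℝ H) (m x : P) (ε t : ℝ) :
    HasDerivAt (fun t : ℝ => H (m + (t * ε) • x)) (ε • fderiv ℝ H (m + (t * ε) • x) x) t := by
  have hγ : HasDerivAt (fun t : ℝ => m + (t * ε) • x) (ε • x) t := by
    have h1 : HasDerivAt (fun t : ℝ => t * ε) ε t := by
      simpa using (hasDerivAt_id t).mul_const ε
    exact (h1.smul_const x).const_add m
  have h := (hH (m + (t * ε) • x)).hasFDerivAt.comp_hasDerivAt t hγ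
  rwa [map_smul] at h

theorem nd_pairs_eq {F : P → V} (hF : ContDiff ℝ ∞ F) (m x : P) {ε : ℝ} (hε : ε ≠ 0) :
    (fderiv ℝ F (m + ε • x) - fderiv ℝ F (m - ε • x) =
      ε • ∫ t in (-1 : ℝ)..1, fderiv ℝ (fderiv ℝ F) (m + (t * ε) • x) x) ∧
    ∫ t in (-1 : ℝ)..1, (1 - t ^ 2) •
      fderiv ℝ (fderiv ℝ (fderiv ℝ F)) (m + (t * ε) • x) x x x =
      (2 / ε ^ 2) • (fderiv ℝ F (m + ε • x) x + fderiv ℝ F (m - ε • x) x) -
        (2 / ε ^ 3) • (F (m + ε • x) - F (m - ε • x)) := by
  have : CompleteSpace V := FiniteDimensional.complete ℝ V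
  have hF1 : ContDiff ℝ ∞ (fderiv ℝ F) := hF.fderiv_right (by simp)
  have hF2 : ContDiff ℝ ∞ (fderiv ℝ (fderiv ℝ F)) := hF1.fderiv_right (by simp)
  have c1 : Continuous (fderiv ℝ F) := hF1.continuous
  have c2 : Continuous (fderiv ℝ (fderiv ℝ F)) := hF2.continuous
  have c3 : Continuous (fderiv ℝ (fderiv ℝ (fderiv ℝ F))) := hF2.continuous_fderiv (by simp)
  have e0 : ∀ t : ℝ, HasDerivAt (fun t : ℝ => F (m + (t * ε) • x))
      (ε • fderiv ℝ F (m + (t * ε) • x) x) t :=
    nd_line_deriv (hF.differentiable (by simp)) m x ε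
  have e1 : ∀ t : ℝ, HasDerivAt (fun t : ℝ => fderiv ℝ F (m + (t * ε) • x))
      (ε • fderiv ℝ (fderiv ℝ F) (m + (t * ε) • x) x) t :=
    nd_line_deriv (hF1.differentiable (by simp)) m x ε
  have e2 : ∀ t : ℝ, HasDerivAt (fun t : ℝ => fderiv ℝ (fderiv ℝ F) (m + (t * ε) • x))
      (ε • fderiv ℝ (fderiv ℝ (fderiv ℝ F)) (m + (t * ε) • x) x) t :=
    nd_line_deriv (hF2.differentiable (by simp)) m x ε
  have p1 : m + ((1 : ℝ) * ε) • x = m + ε • x := by rw [one_mul]
  have p2 : m + ((-1 : ℝ) * ε) • x = m - ε • x := by rw [neg_one_mul, neg_smul, sub_eq_add_neg]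
  refine ⟨?_, ?_⟩
  · have h := intervalIntegral.integral_eq_sub_of_hasDerivAt (a := (-1 : ℝ)) (b := 1)
      (fun t _ => e1 t) (Continuous.intervalIntegrable (by fun_prop) _ _)
    rw [intervalIntegral.integral_smul, p1, p2] at h
    exact h.symm
  · have h := intervalIntegral.integral_eq_sub_of_hasDerivAt (a := (-1 : ℝ)) (b := 1)
      (fun t _ => e0 t) (Continuous.intervalIntegrable (by fun_prop) _ _)
    rw [intervalIntegral.integral_smul, p1, p2] at h
    have g1 : ∀ t : ℝ, HasDerivAt (fun t : ℝ => fderiv ℝ F (m + (t * ε) • x) x)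
        (ε • fderiv ℝ (fderiv ℝ F) (m + (t * ε) • x) x x) t := by
      intro t
      have := (e1 t).clm_apply (hasDerivAt_const t x)
      simpa using this
    have g2 : ∀ t : ℝ, HasDerivAt (fun t : ℝ => ε • fderiv ℝ (fderiv ℝ F) (m + (t * ε) • x) x x)
        (ε ^ 2 • fderiv ℝ (fderiv ℝ (fderiv ℝ F)) (m + (t * ε) • x) x x x) t := by
      intro t
      have h1 := (e2 t).clm_apply (hasDerivAt_const t x)
      have h2 := h1.clm_apply (hasDerivAt_const t x)
      have h3 := h2.const_smul ε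
      refine HasDerivAt.congr_deriv
        (f := fun t : ℝ => ε • fderiv ℝ (fderiv ℝ F) (m + (t * ε) • x) x x) h3 ?_
      simp only [map_zero, add_zero, smul_apply, pow_two, mul_smul]
    have h2 := nd_int_parts g1 g2 (by fun_prop)
    rw [p1, p2] at h2
    have h3 : ∫ t in (-1 : ℝ)..1, (1 - t ^ 2) •
        (ε ^ 2 • fderiv ℝ (fderiv ℝ (fderiv ℝ F)) (m + (t * ε) • x) x x x) =
        ε ^ 2 • ∫ t in (-1 : ℝ)..1, (1 - t ^ 2) •
        fderiv ℝ (fderiv ℝ (fderiv ℝ F)) (m + (t * ε) • x) x x x := by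
      rw [← intervalIntegral.integral_smul]
      congr 1
      ext t
      rw [smul_comm]
    rw [h3] at h2
    have h4 : ∫ t in (-1 : ℝ)..1, fderiv ℝ F (m + (t * ε) • x) x =
        ε⁻¹ • (F (m + ε • x) - F (m - ε • x)) := by
      rw [← h, smul_smul, inv_mul_cancel₀ hε, one_smul]
    rw [h4] at h2
    have h5 := congrArg (fun y => (ε ^ 2)⁻¹ • y) h2
    simp only [smul_smul] at h5
    rw [inv_mul_cancel₀ (pow_ne_zero 2 hε), one_smul] at h5
    rw [h5, smul_sub, smul_smul, smul_smul]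
    congr 2
    · field_simp
    · field_simp

theorem nearDiag {F : P → V} (hF : ContDiff ℝ ∞ F) (j : G →L[ℝ] P) (m : P)
    (h : ∀ v : G, v ≠ 0 → Injective (cubMap F j m v)) :
    ∃ U ∈ 𝓝 m, ∀ p ∈ U, ∀ v : G, v ≠ 0 → p + j v ∈ U →
      Injective (pairMap ((fderiv ℝ F p).comp j) ((fderiv ℝ F (p + j v)).comp j)
        (F p - F (p + j v))) := by
  have : CompleteSpace V := FiniteDimensional.complete ℝ V
  have hF1 : ContDiff ℝ ∞ (fderiv ℝ F) := hF.fderiv_right (by simp)
  have hF2 : ContDiff ℝ ∞ (fderiv ℝ (fderiv ℝ F)) := hF1.fderiv_right (by simp)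
  have c1 : Continuous (fderiv ℝ F) := hF1.continuous
  have c2 : Continuous (fderiv ℝ (fderiv ℝ F)) := hF2.continuous
  have c3 : Continuous (fderiv ℝ (fderiv ℝ (fderiv ℝ F))) := hF2.continuous_fderiv (by simp)
  -- the three parts of the map Φ
  set A : (P × ℝ) × G → G →L[ℝ] V := fun s => ((1 / 2 : ℝ) •
    (fderiv ℝ F (s.1.1 + s.1.2 • j s.2) + fderiv ℝ F (s.1.1 - s.1.2 • j s.2))).comp j with hA
  set B : (P × ℝ) × G → G →L[ℝ] V := fun s => ((1 / 2 : ℝ) • ∫ t in (-1 : ℝ)..1,
    fderiv ℝ (fderiv ℝ F) (s.1.1 + (t * s.1.2) • j s.2) (j s.2)).comp j with hB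
  set w : (P × ℝ) × G → V := fun s => (3 / 4 : ℝ) • ∫ t in (-1 : ℝ)..1, (1 - t ^ 2) •
    fderiv ℝ (fderiv ℝ (fderiv ℝ F)) (s.1.1 + (t * s.1.2) • j s.2) (j s.2) (j s.2) (j s.2) with hw
  have cA : Continuous A := by
    rw [hA]; fun_prop
  have cB : Continuous B := by
    have h1 : Continuous fun s : (P × ℝ) × G => ∫ t in (-1 : ℝ)..1,
        fderiv ℝ (fderiv ℝ F) (s.1.1 + (t * s.1.2) • j s.2) (j s.2) := by
      apply intervalIntegral.continuous_parametric_intervalIntegral_of_continuous'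
      fun_prop
    have h2 := (h1.const_smul (1 / 2 : ℝ)).clm_comp (continuous_const (y := j))
    exact h2
  have cw : Continuous w := by
    have h1 : Continuous fun s : (P × ℝ) × G => ∫ t in (-1 : ℝ)..1, (1 - t ^ 2) •
        fderiv ℝ (fderiv ℝ (fderiv ℝ F)) (s.1.1 + (t * s.1.2) • j s.2) (j s.2) (j s.2) (j s.2) := by
      apply intervalIntegral.continuous_parametric_intervalIntegral_of_continuous'
      fun_prop
    rw [hw]
    exact h1.const_smul _
  have base : ∀ u : G, u ≠ 0 → Injective (pairMap (A ((m, 0), u)) (B ((m, 0), u)) (w ((m, 0), u))) := by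
    intro u hu
    have hA0 : A ((m, 0), u) = (fderiv ℝ F m).comp j := by
      simp only [hA, zero_smul, add_zero, sub_zero]
      congr 1
      module
    have hB0 : B ((m, 0), u) = (fderiv ℝ (fderiv ℝ F) m (j u)).comp j := by
      simp only [hB, mul_zero, zero_smul, add_zero, intervalIntegral.integral_const]
      congr 1
      rw [smul_smul]
      norm_num
    have hw0 : w ((m, 0), u) = fderiv ℝ (fderiv ℝ (fderiv ℝ F)) m (j u) (j u) (j u) := by
      simp only [hw, mul_zero, zero_smul, add_zero, intervalIntegral.integral_smul_const]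
      rw [intervalIntegral.integral_sub (by simp) (Continuous.intervalIntegrable (by fun_prop) _ _),
        integral_pow, intervalIntegral.integral_const, smul_smul]
      norm_num
    rw [hA0, hB0, hw0]
    exact h u hu
  have key : ∀ᶠ x : P × ℝ in 𝓝 (m, 0), ∀ u ∈ Metric.sphere (0 : G) 1,
      Injective (pairMap (A (x, u)) (B (x, u)) (w (x, u))) := by
    have : ProperSpace G := FiniteDimensional.proper ℝ G
    apply (isCompact_sphere (0 : G) 1).eventually_forall_of_forall_eventually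
      (P := fun (x : P × ℝ) (u : G) => Injective (pairMap (A (x, u)) (B (x, u)) (w (x, u))))
    intro u hu
    have hu0 : u ≠ 0 := by
      rintro rfl
      simp at hu
    exact eventually_injective_pairMap (T := (P × ℝ) × G) cA.continuousAt cB.continuousAt
      cw.continuousAt (base u hu0)
  rcases subsingleton_or_nontrivial G with hG | hG
  · exact ⟨univ, Filter.univ_mem, fun p _ v hv => absurd (Subsingleton.elim v 0) hv⟩
  -- `j` is injective
  obtain ⟨v₀, hv₀⟩ := exists_ne (0 : G)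
  have hj : Injective j := by
    rw [injective_iff_map_eq_zero]
    intro a ha
    have h1 := injective_pairMap_iff.1 (h v₀ hv₀) a 0 0 (by simp [ha])
    exact h1.1
  obtain ⟨K, hK, hKj⟩ := (LinearMap.injective_iff_antilipschitz j.toLinearMap).1 hj
  have hKj' : ∀ v, ‖v‖ ≤ K * ‖j v‖ := fun v => by
    have := hKj.le_mul_dist v 0
    simpa [dist_eq_norm] using this
  obtain ⟨r, hr, hr'⟩ := Metric.eventually_nhds_iff_ball.1 key
  set δ : ℝ := min r (r / (K + 1)) with hδ
  have hK0 : (0 : ℝ) ≤ K := K.2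
  have hδ0 : 0 < δ := lt_min hr (by positivity)
  refine ⟨Metric.ball m δ, Metric.ball_mem_nhds _ hδ0, ?_⟩
  intro p hp v hv hq
  set ε : ℝ := ‖v‖ / 2 with hε
  have hv' : 0 < ‖v‖ := norm_pos_iff.2 hv
  have hε0 : 0 < ε := by positivity
  set u : G := ‖v‖⁻¹ • v with hu
  have hun : ‖u‖ = 1 := by
    rw [hu, norm_smul, norm_inv, norm_norm, inv_mul_cancel₀ hv'.ne']
  set m' : P := p + (1 / 2 : ℝ) • j v with hm'
  have hju : ε • j u = (1 / 2 : ℝ) • j v := by
    rw [hu, map_smul, smul_smul, hε]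
    congr 1
    field_simp
  have hqe : m' + ε • j u = p + j v := by
    rw [hju, hm']; module
  have hpe : m' - ε • j u = p := by
    rw [hju, hm']; module
  have hjv : ‖j v‖ < 2 * δ := by
    have h1 : j v = (p + j v - m) - (p - m) := by abel
    rw [h1]
    rw [Metric.mem_ball, dist_eq_norm] at hp hq
    calc ‖(p + j v - m) - (p - m)‖ ≤ ‖p + j v - m‖ + ‖p - m‖ := norm_sub_le _ _
      _ < 2 * δ := by linarith
  have hεr : ε < r := by
    have h1 := hKj' v
    have h2 : ‖v‖ ≤ K * (2 * δ) := h1.trans (by gcongr)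
    have h3 : δ ≤ r / (K + 1) := min_le_right _ _
    have h4 : δ * (K + 1) ≤ r := by rwa [le_div_iff₀ (by positivity)] at h3
    have h5 : ε ≤ K * δ := by rw [hε]; linarith
    nlinarith
  have hm'r : m' ∈ Metric.ball m r := by
    have h1 : m' = (1 / 2 : ℝ) • p + (1 / 2 : ℝ) • (p + j v) := by rw [hm']; module
    have h2 : m' ∈ Metric.ball m δ := by
      rw [h1]
      exact (convex_ball m δ) hp hq (by norm_num) (by norm_num) (by norm_num)
    exact Metric.ball_subset_ball (min_le_left _ _) h2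
  have hinj : Injective (pairMap (A ((m', ε), u)) (B ((m', ε), u)) (w ((m', ε), u))) := by
    refine hr' (m', ε) ?_ u (by simp [hun])
    rw [Metric.mem_ball, Prod.dist_eq]
    refine max_lt hm'r ?_
    rw [dist_zero_right, Real.norm_eq_abs, abs_of_pos hε0]
    exact hεr
  obtain ⟨e1, e2⟩ := nd_pairs_eq hF m' (j u) hε0.ne'
  rw [hqe, hpe] at e1 e2
  rw [injective_pairMap_iff] at hinj ⊢
  intro a' b' c' h0
  simp only [ContinuousLinearMap.comp_apply] at h0
  have hAe : ∀ a, A ((m', ε), u) a =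
      (1 / 2 : ℝ) • (fderiv ℝ F (p + j v) (j a) + fderiv ℝ F p (j a)) := by
    intro a
    simp only [hA, hqe, hpe]
    simp
  have hBe : ∀ b, B ((m', ε), u) b =
      (1 / (2 * ε)) • (fderiv ℝ F (p + j v) (j b) - fderiv ℝ F p (j b)) := by
    intro b
    simp only [hB]
    rw [ContinuousLinearMap.comp_apply, smul_apply]
    have h1 := congrArg (fun L : P →L[ℝ] V => ε⁻¹ • L) e1
    simp only [smul_smul] at h1
    rw [inv_mul_cancel₀ hε0.ne', one_smul] at h1
    rw [← h1]
    simp only [smul_apply, sub_apply, smul_smul]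
    congr 1
    field_simp
  have hwe : w ((m', ε), u) =
      (3 / (2 * ε ^ 2)) • (fderiv ℝ F (p + j v) (j u) + fderiv ℝ F p (j u)) -
        (3 / (2 * ε ^ 3)) • (F (p + j v) - F p) := by
    simp only [hw]
    rw [e2, smul_sub, smul_smul, smul_smul]
    congr 2
    · field_simp; norm_num
    · field_simp; norm_num
  have hε' : ε ≠ 0 := hε0.ne'
  have h1 := hinj (a' + b' - (2 * ε * c') • u) (ε • (b' - a')) (2 * ε ^ 3 / 3 * c') (by
    rw [hAe, hBe, hwe, ← h0]
    simp only [map_sub, map_add, map_smul, smul_sub, smul_add, smul_smul]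
    have i1 : (1 / (2 * ε)) * ε = 1 / 2 := by field_simp
    have i2 : 2 * ε ^ 3 / 3 * c' * (3 / (2 * ε ^ 2)) = ε * c' := by field_simp
    have i3 : 2 * ε ^ 3 / 3 * c' * (3 / (2 * ε ^ 3)) = c' := by field_simp
    rw [i1, i2, i3]
    module)
  obtain ⟨ha, hb, hc⟩ := h1
  have hc' : c' = 0 := by
    rcases mul_eq_zero.1 hc with h2 | h2
    · exfalso
      have : (2 * ε ^ 3 / 3 : ℝ) ≠ 0 := by positivity
      exact this h2
    · exact h2
  subst hc'
  have hb' : b' - a' = 0 := by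
    rcases smul_eq_zero.1 hb with h2 | h2
    · exact absurd h2 hε'
    · exact h2
  have ha' : a' + b' = 0 := by simpa using ha
  have hba : b' = a' := sub_eq_zero.1 hb'
  subst hba
  have h2 : (2 : ℝ) • b' = 0 := by rw [two_smul]; exact ha'
  have h3 : b' = 0 := by
    rcases smul_eq_zero.1 h2 with h4 | h4
    · norm_num at h4
    · exact h4
  exact ⟨h3, h3, rfl⟩

theorem nearDiag_id {F : G → V} (hF : ContDiff ℝ ∞ F) (m : G)
    (h : ∀ v : G, v ≠ 0 → Injective (cubMap F (ContinuousLinearMap.id ℝ G) m v)) :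
    ∃ U ∈ 𝓝 m, ∀ p ∈ U, ∀ q ∈ U, p ≠ q →
      Injective (pairMap (fderiv ℝ F p) (fderiv ℝ F q) (F p - F q)) := by
  obtain ⟨U, hU, hU'⟩ := nearDiag hF (ContinuousLinearMap.id ℝ G) m h
  refine ⟨U, hU, fun p hp q hq hpq => ?_⟩
  have h1 := hU' p hp (q - p) (sub_ne_zero.2 hpq.symm)
  simp only [ContinuousLinearMap.coe_id', id_eq, add_sub_cancel, ContinuousLinearMap.comp_id] at h1
  exact h1 hq

end ND

end Pool.Agent.TotallySkew
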