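import Pool.Agent.TotallySkew.Open.LOC
import Pool.Agent.TotallySkew.Open.ND
import Pool.Agent.TotallySkew.Open.NC
import Pool.Agent.TotallySkew.Open.CUB

/-!
EX: existence of a good map.

Step 1. For every j and every t₀ in [0, 1] there is, by exists_local_extension applied to cub, a
smooth ψ : M → ℂ × ℂ × ℂ with ψ ∘ β j = cub near (t₀, 0); hence cubMap (ψ ∘ β j) id (t, 0) v is
injective for t near t₀ and v ≠ 0 (cubMap_congr, injective_cubMap_cub), and ψ ∘ β j = cub on an open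
set W around (t₀, 0). By compactness of [0, 1] (IsCompact.induction_on, product of maps) and
induction on the finite set of the j, there is a smooth ψ₂ : M → V₂ (V₂ finite dimensional) with
cubMap (ψ₂ ∘ β j) id (t, 0) v injective for all j, all t in [0, 1], all v ≠ 0 (use cubMap_postcomp
with L = fst, snd: if L.comp X is injective then X is).
Step 2. By nearDiag_id every point x = β j (t, 0) of K has a neighbourhood U in M (image of a
neighbourhood of (t, 0) under the open map β j) such that SkewPair I ψ₂ y z for all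
y ≠ z in U (skewPair_iff_strip with the same strip).
Step 3. IsCompact.induction_on for K ×ˢ K and the property
 P S : there are a finite dimensional V₁ and a smooth ψ₁ : M → V₁ with
   SkewPair I (fun x => (ψ₁ x, ψ₂ x)) x y for all (x, y) ∈ S, x ≠ y
(or simply SkewPair I ψ₁ x y or SkewPair I ψ₂ x y). At (x, x) take U × U and ψ₂; at (x, y), x ≠ y,
take exists_separating and eventually_skewPair.
Step 4. ψ = (ψ₁, ψ₂), composed with a linear equivalence of the finite dimensional product with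
EuclideanSpace ℝ (Fin N) (toEuclidean): skewPair_postcomp, cubMap_postcomp.
For Steps 1 and 3 it is convenient to keep all targets of the form EuclideanSpace ℝ (Fin N) by
composing with toEuclidean at every step, so no universe or instance question arises.
-/

open scoped Manifold ContDiff Topology
open Function Set

namespace Pool.Agent.TotallySkew

section EXaux
variable {E H M : Type*} [NormedAddCommGroup E] [NormedSpace ℝ E]
  [TopologicalSpace H] {I : ModelWithCorners ℝ E H}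
  [TopologicalSpace M] [ChartedSpace H M]

theorem skewPair_of_comp {V V' : Type*} [NormedAddCommGroup V] [NormedSpace ℝ V]
    [NormedAddCommGroup V'] [NormedSpace ℝ V'] {φ : M → V} (hφ : ContMDiff I 𝓘(ℝ, V) ∞ φ)
    (L : V →L[ℝ] V') {x y : M} (h : SkewPair I (fun z => L (φ z)) x y) : SkewPair I φ x y := by
  rw [skewPair_postcomp hφ] at h
  exact Function.Injective.of_comp (f := L) h

theorem cubMap_of_comp {G P V V' : Type*} [NormedAddCommGroup G] [NormedSpace ℝ G]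
    [NormedAddCommGroup P] [NormedSpace ℝ P] [NormedAddCommGroup V] [NormedSpace ℝ V]
    [NormedAddCommGroup V'] [NormedSpace ℝ V'] {F : P → V} (hF : ContDiff ℝ ∞ F) (j : G →L[ℝ] P)
    (m : P) (v : G) (L : V →L[ℝ] V') (h : Injective (cubMap (fun x => L (F x)) j m v)) :
    Injective (cubMap F j m v) := by
  rw [cubMap_postcomp hF] at h
  exact Function.Injective.of_comp (f := L) h

theorem ex_prod {V₁ V₂ : Type*} [NormedAddCommGroup V₁] [NormedSpace ℝ V₁]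
    [FiniteDimensional ℝ V₁] [NormedAddCommGroup V₂] [NormedSpace ℝ V₂] [FiniteDimensional ℝ V₂]
    {ψ₁ : M → V₁} {ψ₂ : M → V₂} (h1 : ContMDiff I 𝓘(ℝ, V₁) ∞ ψ₁)
    (h2 : ContMDiff I 𝓘(ℝ, V₂) ∞ ψ₂) :
    ∃ (N : ℕ) (ψ : M → EuclideanSpace ℝ (Fin N)) (L₁ : EuclideanSpace ℝ (Fin N) →L[ℝ] V₁)
      (L₂ : EuclideanSpace ℝ (Fin N) →L[ℝ] V₂),
      ContMDiff I 𝓘(ℝ, EuclideanSpace ℝ (Fin N)) ∞ ψ ∧ ψ₁ = (fun x => L₁ (ψ x)) ∧
      ψ₂ = (fun x => L₂ (ψ x)) := by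
  refine ⟨_, fun x => toEuclidean (E := V₁ × V₂) (ψ₁ x, ψ₂ x),
    (ContinuousLinearMap.fst ℝ V₁ V₂).comp (toEuclidean (E := V₁ × V₂)).symm.toContinuousLinearMap,
    (ContinuousLinearMap.snd ℝ V₁ V₂).comp (toEuclidean (E := V₁ × V₂)).symm.toContinuousLinearMap,
    ?_, ?_, ?_⟩
  · exact (toEuclidean (E := V₁ × V₂)).contDiff.contMDiff.comp (h1.prodMk_space h2)
  · funext x
    simp
  · funext x
    simp

theorem ex_compact {X : Type*} [TopologicalSpace X] {C : Set X} (hC : IsCompact C)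
    (R : ∀ N : ℕ, (M → EuclideanSpace ℝ (Fin N)) → X → Prop)
    (hmono : ∀ (N N' : ℕ) (ψ : M → EuclideanSpace ℝ (Fin N))
      (L : EuclideanSpace ℝ (Fin N) →L[ℝ] EuclideanSpace ℝ (Fin N')) (x : X),
      ContMDiff I 𝓘(ℝ, EuclideanSpace ℝ (Fin N)) ∞ ψ → R N' (fun z => L (ψ z)) x → R N ψ x)
    (hloc : ∀ x ∈ C, ∃ U ∈ 𝓝[C] x, ∃ (N : ℕ) (ψ : M → EuclideanSpace ℝ (Fin N)),
      ContMDiff I 𝓘(ℝ, EuclideanSpace ℝ (Fin N)) ∞ ψ ∧ ∀ y ∈ U, R N ψ y) :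
    ∃ (N : ℕ) (ψ : M → EuclideanSpace ℝ (Fin N)),
      ContMDiff I 𝓘(ℝ, EuclideanSpace ℝ (Fin N)) ∞ ψ ∧ ∀ y ∈ C, R N ψ y := by
  refine hC.induction_on (p := fun S => ∃ (N : ℕ) (ψ : M → EuclideanSpace ℝ (Fin N)),
      ContMDiff I 𝓘(ℝ, EuclideanSpace ℝ (Fin N)) ∞ ψ ∧ ∀ y ∈ S, R N ψ y) ?_ ?_ ?_ hloc
  · exact ⟨0, fun _ => 0, contMDiff_const, fun y hy => absurd hy (Set.notMem_empty y)⟩
  · rintro s t hst ⟨N, ψ, h1, h2⟩
    exact ⟨N, ψ, h1, fun y hy => h2 y (hst hy)⟩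
  · rintro s t ⟨N₁, ψ₁, h1, h2⟩ ⟨N₂, ψ₂, g1, g2⟩
    obtain ⟨N, ψ, L₁, L₂, k1, k2, k3⟩ := ex_prod h1 g1
    refine ⟨N, ψ, k1, fun y hy => ?_⟩
    rcases hy with hy | hy
    · refine hmono N N₁ ψ L₁ y k1 ?_
      rw [← k2]
      exact h2 y hy
    · refine hmono N N₂ ψ L₂ y k1 ?_
      rw [← k3]
      exact g2 y hy

end EXaux

section EX
variable {E H M : Type*} [NormedAddCommGroup E] [NormedSpace ℝ E] [FiniteDimensional ℝ E]
  [TopologicalSpace H] {I : ModelWithCorners ℝ E H}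
  [TopologicalSpace M] [ChartedSpace H M] [T2Space M] [IsManifold I ∞ M]

theorem ex_near {n : ℕ} {β : Fin n → ℝ × ℝ → M}
    (hβ : ∀ j, IsLocalDiffeomorph 𝓘(ℝ, ℝ × ℝ) I ∞ (β j)) :
    ∃ (N : ℕ) (ψ : M → EuclideanSpace ℝ (Fin N)),
      ContMDiff I 𝓘(ℝ, EuclideanSpace ℝ (Fin N)) ∞ ψ ∧
      ∀ y ∈ (Set.univ : Set (Fin n)) ×ˢ Set.Icc (0 : ℝ) 1, ∀ v : ℝ × ℝ, v ≠ 0 →
        Injective (cubMap (ψ ∘ β y.1) (ContinuousLinearMap.id ℝ (ℝ × ℝ)) (y.2, 0) v) := by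
  refine ex_compact (isCompact_univ.prod isCompact_Icc) (fun N ψ (y : Fin n × ℝ) =>
    ∀ v : ℝ × ℝ, v ≠ 0 →
        Injective (cubMap (ψ ∘ β y.1) (ContinuousLinearMap.id ℝ (ℝ × ℝ)) (y.2, 0) v)) ?_ ?_
  · intro N N' ψ L x hψ h v hv
    exact cubMap_of_comp (hψ.comp (hβ x.1).contMDiff).contDiff _ _ v L (h v hv)
  · rintro ⟨j, t₀⟩ -
    obtain ⟨ψ', h1, h2, -⟩ := exists_local_extension (hβ j (t₀, 0)) contDiff_cub Filter.univ_mem
    obtain ⟨N, ψ, L, -, k1, k2, -⟩ := ex_prod h1 h1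
    have h3 : ∀ᶠ t in 𝓝 t₀, (ψ' ∘ β j) =ᶠ[𝓝 (t, 0)] cub := by
      have h4 : Continuous (fun t : ℝ => (t, (0 : ℝ))) := by fun_prop
      exact h4.continuousAt.eventually (p := fun q => (ψ' ∘ β j) =ᶠ[𝓝 q] cub)
        h2.eventually_nhds
    have h5 : ∀ᶠ y : Fin n × ℝ in 𝓝 (j, t₀), y.1 = j ∧ (ψ' ∘ β j) =ᶠ[𝓝 (y.2, 0)] cub := by
      have h6 : ∀ᶠ i in 𝓝 j, i = j := (isOpen_discrete {j}).mem_nhds rfl
      rw [nhds_prod_eq]
      exact h6.prod_mk h3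
    refine ⟨_, mem_nhdsWithin_of_mem_nhds h5, N, ψ, k1, ?_⟩
    rintro ⟨i, t⟩ ⟨hi, ht⟩ v hv
    simp only at hi ht
    subst hi
    refine cubMap_of_comp (k1.comp (hβ i).contMDiff).contDiff _ _ v L ?_
    have h6 : (fun x => L ((ψ ∘ β i) x)) = ψ' ∘ β i := by
      rw [k2]
      rfl
    rw [h6, cubMap_congr ht]
    exact injective_cubMap_cub _ v hv

theorem exists_goodMap {K : Set M} (hK : IsCompact K) {n : ℕ} {β : Fin n → ℝ × ℝ → M}
    (hβ : ∀ j, IsLocalDiffeomorph 𝓘(ℝ, ℝ × ℝ) I ∞ (β j))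
    (hcov : K ⊆ ⋃ j, (fun t : ℝ => β j (t, 0)) '' Set.Icc 0 1) :
    ∃ (N : ℕ) (ψ : M → EuclideanSpace ℝ (Fin N)), GoodMap I K β ψ := by
  obtain ⟨N₂, ψ₂, hψ₂, hnear⟩ := ex_near hβ
  obtain ⟨N₁, ψ₁, hψ₁, hfar⟩ := ex_compact (I := I) (hK.prod hK)
    (fun N (ψ : M → EuclideanSpace ℝ (Fin N)) (z : M × M) => z.1 ≠ z.2 → SkewPair I ψ z.1 z.2)
    (fun N N' ψ L x hψ h hne => skewPair_of_comp hψ L (h hne)) (by
      rintro ⟨x, y⟩ ⟨hx, hy⟩
      simp only at hx hy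
      obtain ⟨j, t, ht, rfl⟩ : ∃ j, ∃ t ∈ Set.Icc (0 : ℝ) 1, β j (t, 0) = x := by
        simpa using hcov hx
      obtain ⟨i, s, hs, rfl⟩ : ∃ j, ∃ t ∈ Set.Icc (0 : ℝ) 1, β j (t, 0) = y := by
        simpa using hcov hy
      by_cases hne : β j (t, 0) = β i (s, 0)
      · rw [← hne]
        obtain ⟨U, hU, hU2⟩ := nearDiag_id (hψ₂.comp (hβ j).contMDiff).contDiff (t, 0)
          (hnear (j, t) ⟨Set.mem_univ j, ht⟩)
        have hU3 := (hβ j).isOpenMap.image_mem_nhds hU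
        refine ⟨(β j '' U) ×ˢ (β j '' U), mem_nhdsWithin_of_mem_nhds (prod_mem_nhds hU3 hU3),
          N₂, ψ₂, hψ₂, ?_⟩
        rintro ⟨_, _⟩ ⟨⟨p, hp, rfl⟩, ⟨q, hq, rfl⟩⟩ hpq
        exact (skewPair_iff_strip (hβ j p) (hβ j q) hψ₂).2
          (hU2 p hp q hq (fun h => hpq (by rw [h])))
      · obtain ⟨ψ', h1, h2⟩ := exists_separating (hβ j) (hβ i) hne
        obtain ⟨N, ψ, L, -, k1, k2, -⟩ := ex_prod h1 h1
        refine ⟨_, mem_nhdsWithin_of_mem_nhds (eventually_skewPair (hβ j) (hβ i) h1 h2),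
          N, ψ, k1, ?_⟩
        intro z hz _
        refine skewPair_of_comp k1 L ?_
        rw [← k2]
        exact hz)
  obtain ⟨N, ψ, L₁, L₂, k1, k2, k3⟩ := ex_prod hψ₁ hψ₂
  refine ⟨N, ψ, k1, ?_, ?_⟩
  · intro x hx y hy hxy
    refine skewPair_of_comp k1 L₁ ?_
    rw [← k2]
    exact hfar (x, y) ⟨hx, hy⟩ hxy
  · intro j t ht v hv
    refine cubMap_of_comp (k1.comp (hβ j).contMDiff).contDiff _ _ v L₂ ?_
    have h6 : (fun x => L₂ ((ψ ∘ β j) x)) = ψ₂ ∘ β j := by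
      rw [k3]
      rfl
    rw [h6]
    exact hnear (j, t) ⟨Set.mem_univ j, ht⟩ v hv

end EX

end Pool.Agent.TotallySkew
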