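import Pool.Agent.TotallySkew.Open.QO

/-!
FR: frames in dimension six.

At each x the six vectors u₁, u₂, e₃, e₄, e₅, e₆ are a basis; write
o_i = (combination of u₁, u₂) + y_i3 e₃ + y_i4 e₄ + y_i5 e₅ + y_i6 e₆ and let a, b, c : ℝ × ℝ → ℍ[ℝ] be
⟨y_i6, y_i3, y_i4, y_i5⟩ for i = 0, 1, 2. The coordinates are continuous: let B x be the 6 × 6
matrix with these columns, continuous with nonzero determinant; the coordinates are
(B x)⁻¹ o_i x (Matrix.inv via adjugate and Ring.inverse of the determinant, or Cramer).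
Independence: r a + s b + t c = 0 means that r o₀ + s o₁ + t o₂ is in the span of u₁, u₂; with
hind, r = s = t = 0.
φ ↦ φ + π: the basis does not change, o_i changes sign, so a, b, c change sign.
(θ, φ) ↦ (θ + 1, -φ): the basis becomes u₁, -u₂, e₃, e₄, e₅, -e₆; o₀ is the same vector, so its
coordinates are (.., .., y3, y4, y5, -y6): a' = ⟨-y6, y3, y4, y5⟩ = -star a; the same for b; o₂
changes sign: c' = ⟨y6, -y3, -y4, -y5⟩ = star c. (Coordinates are unique.) Apply no_odd_frames.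
-/

open scoped Manifold ContDiff Topology Quaternion
open Function Set

namespace Pool.Agent.TotallySkew

/-- the matrix with columns `u₁, u₂, e₃, e₄, e₅, e₆` -/
noncomputable def frMat (u₁ u₂ e₃ e₄ e₅ e₆ : EuclideanSpace ℝ (Fin 6)) :
    Matrix (Fin 6) (Fin 6) ℝ :=
  Matrix.of fun i j => (![u₁, u₂, e₃, e₄, e₅, e₆] j) i

lemma frMat_mulVec (u₁ u₂ e₃ e₄ e₅ e₆ : EuclideanSpace ℝ (Fin 6)) (z : Fin 6 → ℝ) :
    (frMat u₁ u₂ e₃ e₄ e₅ e₆).mulVec z =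
      fun i => z 0 * u₁ i + z 1 * u₂ i + z 2 * e₃ i + z 3 * e₄ i + z 4 * e₅ i + z 5 * e₆ i := by
  funext i
  simp only [frMat, Matrix.mulVec, dotProduct, Matrix.of_apply, Fin.sum_univ_six]
  simp only [Matrix.cons_val]
  ring

lemma frMat_isUnit {u₁ u₂ e₃ e₄ e₅ e₆ : EuclideanSpace ℝ (Fin 6)}
    (h : LinearIndependent ℝ ![u₁, u₂, e₃, e₄, e₅, e₆]) :
    IsUnit (frMat u₁ u₂ e₃ e₄ e₅ e₆) := by
  rw [← Matrix.linearIndependent_cols_iff_isUnit]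
  have h2 := h.map' (WithLp.linearEquiv 2 ℝ (Fin 6 → ℝ)).toLinearMap
    (LinearMap.ker_eq_bot.mpr (WithLp.linearEquiv 2 ℝ (Fin 6 → ℝ)).injective)
  exact h2

/-- the coordinates -/
noncomputable def frCo (u₁ u₂ e₃ e₄ e₅ e₆ o : EuclideanSpace ℝ (Fin 6)) : Fin 6 → ℝ :=
  ((frMat u₁ u₂ e₃ e₄ e₅ e₆)⁻¹).mulVec (fun i => o i)

lemma frCo_spec {u₁ u₂ e₃ e₄ e₅ e₆ : EuclideanSpace ℝ (Fin 6)}
    (h : LinearIndependent ℝ ![u₁, u₂, e₃, e₄, e₅, e₆]) (o : EuclideanSpace ℝ (Fin 6)) :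
    (frMat u₁ u₂ e₃ e₄ e₅ e₆).mulVec (frCo u₁ u₂ e₃ e₄ e₅ e₆ o) = fun i => o i := by
  have hu := (Matrix.isUnit_iff_isUnit_det _).mp (frMat_isUnit h)
  rw [frCo, Matrix.mulVec_mulVec, Matrix.mul_nonsing_inv _ hu, Matrix.one_mulVec]

lemma frCo_unique {u₁ u₂ e₃ e₄ e₅ e₆ : EuclideanSpace ℝ (Fin 6)}
    (h : LinearIndependent ℝ ![u₁, u₂, e₃, e₄, e₅, e₆]) (o : EuclideanSpace ℝ (Fin 6))
    {z : Fin 6 → ℝ} (hz : (frMat u₁ u₂ e₃ e₄ e₅ e₆).mulVec z = fun i => o i) :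
    frCo u₁ u₂ e₃ e₄ e₅ e₆ o = z := by
  have hu := (Matrix.isUnit_iff_isUnit_det _).mp (frMat_isUnit h)
  rw [frCo, ← hz, Matrix.mulVec_mulVec, Matrix.nonsing_inv_mul _ hu, Matrix.one_mulVec]

lemma frCo_continuous {u₁ u₂ o e₆ : ℝ × ℝ → EuclideanSpace ℝ (Fin 6)}
    {e₃ e₄ e₅ : EuclideanSpace ℝ (Fin 6)}
    (cu₁ : Continuous u₁) (cu₂ : Continuous u₂) (co : Continuous o) (ce₆ : Continuous e₆)
    (hbas : ∀ x, LinearIndependent ℝ ![u₁ x, u₂ x, e₃, e₄, e₅, e₆ x]) :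
    Continuous fun x => frCo (u₁ x) (u₂ x) e₃ e₄ e₅ (e₆ x) (o x) := by
  have hB : Continuous fun x => frMat (u₁ x) (u₂ x) e₃ e₄ e₅ (e₆ x) := by
    refine continuous_matrix fun i j => ?_
    have hev : ∀ v : ℝ × ℝ → EuclideanSpace ℝ (Fin 6), Continuous v →
        Continuous fun x => (v x) i := by
      intro v hv
      exact (EuclideanSpace.proj i).continuous.comp hv
    fin_cases j
    · exact hev _ cu₁
    · exact hev _ cu₂
    · exact hev (fun _ => e₃) continuous_const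
    · exact hev (fun _ => e₄) continuous_const
    · exact hev (fun _ => e₅) continuous_const
    · exact hev _ ce₆
  have hdet : ∀ x, (frMat (u₁ x) (u₂ x) e₃ e₄ e₅ (e₆ x)).det ≠ 0 := fun x =>
    ((Matrix.isUnit_iff_isUnit_det _).mp (frMat_isUnit (hbas x))).ne_zero
  have hinv : Continuous fun x => (frMat (u₁ x) (u₂ x) e₃ e₄ e₅ (e₆ x))⁻¹ := by
    simp only [Matrix.inv_def, Ring.inverse_eq_inv']
    exact (hB.matrix_det.inv₀ hdet).smul hB.matrix_adjugate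
  have ho : Continuous fun x => (fun i => (o x) i : Fin 6 → ℝ) :=
    continuous_pi fun i => (EuclideanSpace.proj i).continuous.comp co
  exact hinv.matrix_mulVec ho

/-- the quaternion of a coordinate vector -/
def frQ (y : Fin 6 → ℝ) : ℍ[ℝ] := ⟨y 5, y 2, y 3, y 4⟩

@[simp] lemma frQ_re (y : Fin 6 → ℝ) : (frQ y).re = y 5 := rfl
@[simp] lemma frQ_imI (y : Fin 6 → ℝ) : (frQ y).imI = y 2 := rfl
@[simp] lemma frQ_imJ (y : Fin 6 → ℝ) : (frQ y).imJ = y 3 := rfl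
@[simp] lemma frQ_imK (y : Fin 6 → ℝ) : (frQ y).imK = y 4 := rfl

lemma frQ_continuous {y : ℝ × ℝ → Fin 6 → ℝ} (hy : Continuous y) :
    Continuous fun x => frQ (y x) := by
  have h : (fun x => frQ (y x)) = fun x => y x 5 • (⟨1, 0, 0, 0⟩ : ℍ[ℝ]) +
      y x 2 • (⟨0, 1, 0, 0⟩ : ℍ[ℝ]) + y x 3 • (⟨0, 0, 1, 0⟩ : ℍ[ℝ]) +
      y x 4 • (⟨0, 0, 0, 1⟩ : ℍ[ℝ]) := by
    funext x
    refine QuaternionAlgebra.ext ?_ ?_ ?_ ?_ <;> simp
  rw [h]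
  have hj : ∀ j, Continuous fun x => y x j := fun j => (continuous_apply j).comp hy
  exact ((((hj 5).smul continuous_const).add ((hj 2).smul continuous_const)).add
    ((hj 3).smul continuous_const)).add ((hj 4).smul continuous_const)

theorem no_frames {u₁ u₂ o₀ o₁ o₂ e₆ : ℝ × ℝ → EuclideanSpace ℝ (Fin 6)}
    {e₃ e₄ e₅ : EuclideanSpace ℝ (Fin 6)}
    (cu₁ : Continuous u₁) (cu₂ : Continuous u₂) (co₀ : Continuous o₀) (co₁ : Continuous o₁)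
    (co₂ : Continuous o₂) (ce₆ : Continuous e₆)
    (hind : ∀ x, LinearIndependent ℝ ![u₁ x, u₂ x, o₀ x, o₁ x, o₂ x])
    (hbas : ∀ x, LinearIndependent ℝ ![u₁ x, u₂ x, e₃, e₄, e₅, e₆ x])
    (pu₁ : ∀ θ φ, u₁ (θ, φ + Real.pi) = u₁ (θ, φ)) (pu₂ : ∀ θ φ, u₂ (θ, φ + Real.pi) = u₂ (θ, φ))
    (po₀ : ∀ θ φ, o₀ (θ, φ + Real.pi) = -o₀ (θ, φ)) (po₁ : ∀ θ φ, o₁ (θ, φ + Real.pi) = -o₁ (θ, φ))
    (po₂ : ∀ θ φ, o₂ (θ, φ + Real.pi) = -o₂ (θ, φ)) (pe₆ : ∀ θ φ, e₆ (θ, φ + Real.pi) = e₆ (θ, φ))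
    (tu₁ : ∀ θ φ, u₁ (θ + 1, -φ) = u₁ (θ, φ)) (tu₂ : ∀ θ φ, u₂ (θ + 1, -φ) = -u₂ (θ, φ))
    (to₀ : ∀ θ φ, o₀ (θ + 1, -φ) = o₀ (θ, φ)) (to₁ : ∀ θ φ, o₁ (θ + 1, -φ) = o₁ (θ, φ))
    (to₂ : ∀ θ φ, o₂ (θ + 1, -φ) = -o₂ (θ, φ)) (te₆ : ∀ θ φ, e₆ (θ + 1, -φ) = -e₆ (θ, φ)) :
    False := by
  obtain ⟨Y, hY⟩ : ∃ Y : (ℝ × ℝ → EuclideanSpace ℝ (Fin 6)) → ℝ × ℝ → Fin 6 → ℝ,
      Y = fun o x => frCo (u₁ x) (u₂ x) e₃ e₄ e₅ (e₆ x) (o x) := ⟨_, rfl⟩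
  have hspec : ∀ o x i, Y o x 0 * u₁ x i + Y o x 1 * u₂ x i + Y o x 2 * e₃ i + Y o x 3 * e₄ i +
      Y o x 4 * e₅ i + Y o x 5 * e₆ x i = o x i := by
    intro o x i
    have h1 := congrFun (frCo_spec (hbas x) (o x)) i
    rw [frMat_mulVec] at h1
    rw [hY]
    exact h1
  have huniq : ∀ o x (z : Fin 6 → ℝ), (∀ i, z 0 * u₁ x i + z 1 * u₂ x i + z 2 * e₃ i +
      z 3 * e₄ i + z 4 * e₅ i + z 5 * e₆ x i = o x i) → Y o x = z := by
    intro o x z hz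
    rw [hY]
    refine frCo_unique (hbas x) (o x) ?_
    rw [frMat_mulVec]
    funext i
    exact hz i
  have hcont : ∀ o, Continuous o → Continuous (Y o) := by
    intro o co
    rw [hY]
    exact frCo_continuous cu₁ cu₂ co ce₆ hbas
  -- `φ ↦ φ + π`
  have hpi : ∀ o : ℝ × ℝ → EuclideanSpace ℝ (Fin 6), (∀ θ φ, o (θ, φ + Real.pi) = -o (θ, φ)) →
      ∀ θ φ, Y o (θ, φ + Real.pi) = -Y o (θ, φ) := by
    intro o ho θ φ
    refine huniq o _ _ fun i => ?_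
    rw [ho, pu₁, pu₂, pe₆]
    have h1 := hspec o (θ, φ) i
    simp only [Pi.neg_apply, PiLp.neg_apply]
    linarith
  -- `(θ, φ) ↦ (θ + 1, -φ)`
  have hrev : ∀ (s : ℝ) (o : ℝ × ℝ → EuclideanSpace ℝ (Fin 6)),
      (∀ θ φ, o (θ + 1, -φ) = s • o (θ, φ)) → ∀ θ φ, Y o (θ + 1, -φ) =
      ![s * Y o (θ, φ) 0, -(s * Y o (θ, φ) 1), s * Y o (θ, φ) 2, s * Y o (θ, φ) 3,
        s * Y o (θ, φ) 4, -(s * Y o (θ, φ) 5)] := by
    intro s o ho θ φ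
    refine huniq o _ _ fun i => ?_
    rw [ho, tu₁, tu₂, te₆]
    have h1 := hspec o (θ, φ) i
    simp only [PiLp.neg_apply, PiLp.smul_apply, smul_eq_mul, Matrix.cons_val]
    rw [← h1]
    ring
  refine no_odd_frames (a := fun x => frQ (Y o₀ x)) (b := fun x => frQ (Y o₁ x))
    (c := fun x => frQ (Y o₂ x)) (frQ_continuous (hcont _ co₀)) (frQ_continuous (hcont _ co₁))
    (frQ_continuous (hcont _ co₂)) ?_ ?_ ?_ ?_ ?_ ?_ ?_
  · intro x r s t h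
    have h0 := congrArg QuaternionAlgebra.re h
    have h1 := congrArg QuaternionAlgebra.imI h
    have h2 := congrArg QuaternionAlgebra.imJ h
    have h3 := congrArg QuaternionAlgebra.imK h
    have h0' : r * Y o₀ x 5 + s * Y o₁ x 5 + t * Y o₂ x 5 = 0 := h0
    have h1' : r * Y o₀ x 2 + s * Y o₁ x 2 + t * Y o₂ x 2 = 0 := h1
    have h2' : r * Y o₀ x 3 + s * Y o₁ x 3 + t * Y o₂ x 3 = 0 := h2
    have h3' : r * Y o₀ x 4 + s * Y o₁ x 4 + t * Y o₂ x 4 = 0 := h3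
    have hlin := Fintype.linearIndependent_iff.mp (hind x)
      ![-(r * Y o₀ x 0 + s * Y o₁ x 0 + t * Y o₂ x 0),
        -(r * Y o₀ x 1 + s * Y o₁ x 1 + t * Y o₂ x 1), r, s, t] (by
        simp only [Fin.sum_univ_five, Matrix.cons_val]
        ext i
        have a0 := hspec o₀ x i
        have a1 := hspec o₁ x i
        have a2 := hspec o₂ x i
        simp only [PiLp.add_apply, PiLp.smul_apply, smul_eq_mul, PiLp.zero_apply]
        rw [← a0, ← a1, ← a2]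
        linear_combination (e₃ i) * h1' + (e₄ i) * h2' + (e₅ i) * h3' + (e₆ x i) * h0')
    exact ⟨hlin 2, hlin 3, hlin 4⟩
  · intro θ φ
    simp only [hpi o₀ po₀]
    refine QuaternionAlgebra.ext ?_ ?_ ?_ ?_ <;> simp
  · intro θ φ
    simp only [hpi o₁ po₁]
    refine QuaternionAlgebra.ext ?_ ?_ ?_ ?_ <;> simp
  · intro θ φ
    simp only [hpi o₂ po₂]
    refine QuaternionAlgebra.ext ?_ ?_ ?_ ?_ <;> simp
  · intro θ φ
    simp only [hrev 1 o₀ (by simpa using to₀)]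
    refine QuaternionAlgebra.ext ?_ ?_ ?_ ?_ <;> simp
  · intro θ φ
    simp only [hrev 1 o₁ (by simpa using to₁)]
    refine QuaternionAlgebra.ext ?_ ?_ ?_ ?_ <;> simp
  · intro θ φ
    simp only [hrev (-1) o₂ (by simpa using to₂)]
    refine QuaternionAlgebra.ext ?_ ?_ ?_ ?_ <;> simp

end Pool.Agent.TotallySkew
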