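import Pool.Agent.TotallySkew.Open.MT
import Pool.Agent.TotallySkew.Open.NC

/-!
PR: projection to dimension seven.

goodMap_step. Let V = EuclideanSpace ℝ (Fin (N + 1)), of dimension at least 8. For i, j : Fin n the map
  Θ i j (t, t', a, b, c) = fderiv (ψ ∘ β i) (t, 0) a + fderiv (ψ ∘ β j) (t', 0) b
     + c (ψ (β i (t, 0)) - ψ (β j (t', 0)))   on ℝ × ℝ × (ℝ × ℝ) × (ℝ × ℝ) × ℝ   (dimension 7)
and the map
  Θ' i (t, θ, a, b, c) = cubMap (ψ ∘ β i) id (t, 0) (cos θ, sin θ) (a, b, c)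
     on ℝ × ℝ × (ℝ × ℝ) × (ℝ × ℝ) × ℝ
are C^1, so their ranges have Hausdorff dimension at most 7 (ContDiff.dimH_range_le), the finite
union too (dimH_iUnion), so the complement of the union is dense (dense_compl_of_dimH_lt_finrank)
and there is e ≠ 0 in it. Let L : V →L EuclideanSpace ℝ (Fin N) be linear with kernel spanned by e (a
projection along e followed by an identification), ψ' = L ∘ ψ. If X : Y →L V is an injective
linear map whose range does not contain e, then L.comp X is injective (X y = s e, s ≠ 0, would give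
e = X (y / s)). far: x = β i (t, 0), y = β j (t', 0) by hcov; skewPair_iff_strip and
skewPair_postcomp (or directly: the range of the pairMap of mvfderiv is the range of Θ i j (t, t', ·)
by mvfderiv_strip). near: for v ≠ 0 write v = r (cos θ, sin θ), r > 0, and
cubMap F id m (r u) (a, b, c) = cubMap F id m u (a, r b, r^3 c); cubMap_postcomp.
exists_goodMap_seven: induction with goodMap_step; if N < 7 compose with an injective linear
map ℝ^N → ℝ^7 (any injective L preserves GoodMap).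
-/

open scoped Manifold ContDiff Topology
open Function Set

namespace Pool.Agent.TotallySkew

section PR
variable {E H M : Type*} [NormedAddCommGroup E] [NormedSpace ℝ E]
  [TopologicalSpace H] {I : ModelWithCorners ℝ E H}
  [TopologicalSpace M] [ChartedSpace H M]

theorem comp_injective_of {Y V V' : Type*} [AddCommGroup Y] [Module ℝ Y] [TopologicalSpace Y]
    [NormedAddCommGroup V] [NormedSpace ℝ V] [NormedAddCommGroup V'] [NormedSpace ℝ V']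
    (X : Y →L[ℝ] V) (L : V →L[ℝ] V') (hX : Injective X) {S : Set V}
    (hL : ∀ x ∈ S, L x = 0 → x = 0) (hS : ∀ z, X z ∈ S) : Injective (L.comp X) := by
  rw [injective_iff_map_eq_zero]
  intro z hz
  have h1 : X z = 0 := hL _ (hS z) (by simpa using hz)
  exact hX (by rw [h1, map_zero])

theorem strip_contDiff {V : Type*} [NormedAddCommGroup V] [NormedSpace ℝ V] {β : ℝ × ℝ → M}
    (hβ : IsLocalDiffeomorph 𝓘(ℝ, ℝ × ℝ) I ∞ β) {ψ : M → V} (h : ContMDiff I 𝓘(ℝ, V) ∞ ψ) :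
    ContDiff ℝ ∞ (ψ ∘ β) := by
  rw [← contMDiff_iff_contDiff]
  exact h.comp hβ.contMDiff

theorem goodMap_comp {V V' : Type*} [NormedAddCommGroup V] [NormedSpace ℝ V]
    [NormedAddCommGroup V'] [NormedSpace ℝ V'] {K : Set M} {n : ℕ} {β : Fin n → ℝ × ℝ → M}
    (hβ : ∀ j, IsLocalDiffeomorph 𝓘(ℝ, ℝ × ℝ) I ∞ (β j))
    (hcov : K ⊆ ⋃ j, (fun t : ℝ => β j (t, 0)) '' Set.Icc 0 1)
    {ψ : M → V} (h : GoodMap I K β ψ) (L : V →L[ℝ] V') {S : Set V}
    (hL : ∀ x ∈ S, L x = 0 → x = 0)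
    (h1 : ∀ i j (t t' : ℝ) z, pairMap (fderiv ℝ (ψ ∘ β i) (t, 0)) (fderiv ℝ (ψ ∘ β j) (t', 0))
      (ψ (β i (t, 0)) - ψ (β j (t', 0))) z ∈ S)
    (h2 : ∀ i (t : ℝ) (v : ℝ × ℝ) z, v ≠ 0 →
      cubMap (ψ ∘ β i) (ContinuousLinearMap.id ℝ (ℝ × ℝ)) (t, 0) v z ∈ S) :
    GoodMap I K β (fun x => L (ψ x)) := by
  have hsm : ContMDiff I 𝓘(ℝ, V') ∞ (fun x => L (ψ x)) :=
    (L.contDiff.contMDiff (n := ∞)).comp h.smooth
  refine ⟨hsm, ?_, ?_⟩
  · intro x hx y hy hxy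
    obtain ⟨i, hi⟩ := Set.mem_iUnion.mp (hcov hx)
    obtain ⟨t, ht, rfl⟩ := hi
    obtain ⟨j, hj⟩ := Set.mem_iUnion.mp (hcov hy)
    obtain ⟨t', ht', rfl⟩ := hj
    have h3 := h.far _ hx _ hy hxy
    rw [skewPair_iff_strip (hβ i _) (hβ j _) h.smooth] at h3
    rw [skewPair_iff_strip (hβ i _) (hβ j _) hsm]
    have hd : ∀ (k : Fin n) (p : ℝ × ℝ), fderiv ℝ ((fun x => L (ψ x)) ∘ β k) p =
        L.comp (fderiv ℝ (ψ ∘ β k) p) := by
      intro k p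
      have hdk : DifferentiableAt ℝ (ψ ∘ β k) p :=
        ((strip_contDiff (hβ k) h.smooth).differentiable (by simp)).differentiableAt
      have := (L.hasFDerivAt.comp p hdk.hasFDerivAt).fderiv
      exact this
    rw [hd, hd, ← map_sub, comp_pairMap]
    exact comp_injective_of _ L h3 hL (h1 i j t t')
  · intro j t ht v hv
    have h4 : cubMap ((fun x => L (ψ x)) ∘ β j) (ContinuousLinearMap.id ℝ (ℝ × ℝ)) (t, 0) v =
        L.comp (cubMap (ψ ∘ β j) (ContinuousLinearMap.id ℝ (ℝ × ℝ)) (t, 0) v) :=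
      cubMap_postcomp (strip_contDiff (hβ j) h.smooth) _ _ _ L
    rw [h4]
    exact comp_injective_of _ L (h.near j t ht v hv) hL (fun z => h2 j t v z hv)

/-- a linear map with kernel the line spanned by `e` -/
theorem exists_projection {N : ℕ} (e : EuclideanSpace ℝ (Fin (N + 1))) (he : e ≠ 0) :
    ∃ L : EuclideanSpace ℝ (Fin (N + 1)) →L[ℝ] EuclideanSpace ℝ (Fin N),
      ∀ x, L x = 0 → ∃ s : ℝ, x = s • e := by
  have h1 : Module.finrank ℝ (EuclideanSpace ℝ (Fin (N + 1)) ⧸ (ℝ ∙ e)) =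
      Module.finrank ℝ (EuclideanSpace ℝ (Fin N)) := by
    have h2 := Submodule.finrank_quotient_add_finrank (R := ℝ) (ℝ ∙ e)
    rw [finrank_span_singleton he, finrank_euclideanSpace_fin] at h2
    rw [finrank_euclideanSpace_fin]
    omega
  obtain ⟨f⟩ := FiniteDimensional.nonempty_linearEquiv_of_finrank_eq h1
  refine ⟨LinearMap.toContinuousLinearMap (f.toLinearMap.comp (ℝ ∙ e).mkQ), ?_⟩
  intro x hx
  have h3 : (ℝ ∙ e).mkQ x = 0 := by
    have : f ((ℝ ∙ e).mkQ x) = 0 := by simpa using hx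
    exact (LinearEquiv.map_eq_zero_iff f).mp this
  have h4 : x ∈ (ℝ ∙ e) := by simpa using h3
  obtain ⟨s, hs⟩ := Submodule.mem_span_singleton.mp h4
  exact ⟨s, hs.symm⟩

set_option maxSynthPendingDepth 3 in
theorem contDiff_cubMap {P V : Type*} [NormedAddCommGroup P] [NormedSpace ℝ P]
    [NormedAddCommGroup V] [NormedSpace ℝ V] {F : P → V} (hF : ContDiff ℝ ∞ F) :
    ContDiff ℝ ∞ (fun q : P × P × (P × P × ℝ) =>
      cubMap F (ContinuousLinearMap.id ℝ P) q.1 q.2.1 q.2.2) := by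
  have hF1 : ContDiff ℝ ∞ (fderiv ℝ F) := hF.fderiv_right (by simp)
  have hF2 : ContDiff ℝ ∞ (fderiv ℝ (fderiv ℝ F)) := hF1.fderiv_right (by simp)
  have hF3 : ContDiff ℝ ∞ (fderiv ℝ (fderiv ℝ (fderiv ℝ F))) := hF2.fderiv_right (by simp)
  have h1 : ContDiff ℝ ∞ (fun q : P × P × (P × P × ℝ) => q.1) := by fun_prop
  have h2 : ContDiff ℝ ∞ (fun q : P × P × (P × P × ℝ) => q.2.1) := by fun_prop
  have h3 : ContDiff ℝ ∞ (fun q : P × P × (P × P × ℝ) => q.2.2.1) := by fun_prop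
  have h4 : ContDiff ℝ ∞ (fun q : P × P × (P × P × ℝ) => q.2.2.2.1) := by fun_prop
  have h5 : ContDiff ℝ ∞ (fun q : P × P × (P × P × ℝ) => q.2.2.2.2) := by fun_prop
  exact (((hF1.comp h1).clm_apply h3).add (((((hF2.comp h1).clm_apply h2).clm_apply h4)).add
    (h5.smul (((((hF3.comp h1).clm_apply h2).clm_apply h2).clm_apply h2)))))

theorem exists_avoid {V : Type*} [NormedAddCommGroup V] [NormedSpace ℝ V]
    [FiniteDimensional ℝ V] (hV : 7 < Module.finrank ℝ V) {n : ℕ}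
    (F : Fin n → ℝ × ℝ → V) (hF : ∀ i, ContDiff ℝ ∞ (F i)) :
    ∃ e : V, e ≠ 0 ∧
      (∀ i j (t t' : ℝ) z, pairMap (fderiv ℝ (F i) (t, 0)) (fderiv ℝ (F j) (t', 0))
        (F i (t, 0) - F j (t', 0)) z ≠ e) ∧
      (∀ i (t θ : ℝ) z, cubMap (F i) (ContinuousLinearMap.id ℝ (ℝ × ℝ)) (t, 0)
        (Real.cos θ, Real.sin θ) z ≠ e) := by
  have hP : Module.finrank ℝ (ℝ × ℝ × (ℝ × ℝ) × (ℝ × ℝ) × ℝ) = 7 := by
    simp [Module.finrank_prod]
  have hF1 : ∀ i, ContDiff ℝ ∞ (fderiv ℝ (F i)) := fun i => (hF i).fderiv_right (by simp)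
  let Θ : Fin n → Fin n → ℝ × ℝ × (ℝ × ℝ) × (ℝ × ℝ) × ℝ → V := fun i j p =>
    fderiv ℝ (F i) (p.1, 0) p.2.2.1 + (fderiv ℝ (F j) (p.2.1, 0) p.2.2.2.1 +
      p.2.2.2.2 • (F i (p.1, 0) - F j (p.2.1, 0)))
  let Θ' : Fin n → ℝ × ℝ × (ℝ × ℝ) × (ℝ × ℝ) × ℝ → V := fun i p =>
    cubMap (F i) (ContinuousLinearMap.id ℝ (ℝ × ℝ)) (p.1, 0)
      (Real.cos p.2.1, Real.sin p.2.1) p.2.2
  have h1 : ContDiff ℝ ∞ (fun p : ℝ × ℝ × (ℝ × ℝ) × (ℝ × ℝ) × ℝ => ((p.1, 0) : ℝ × ℝ)) := by fun_prop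
  have h2 : ContDiff ℝ ∞ (fun p : ℝ × ℝ × (ℝ × ℝ) × (ℝ × ℝ) × ℝ => ((p.2.1, 0) : ℝ × ℝ)) := by fun_prop
  have h3 : ContDiff ℝ ∞ (fun p : ℝ × ℝ × (ℝ × ℝ) × (ℝ × ℝ) × ℝ => p.2.2.1) := by fun_prop
  have h4 : ContDiff ℝ ∞ (fun p : ℝ × ℝ × (ℝ × ℝ) × (ℝ × ℝ) × ℝ => p.2.2.2.1) := by fun_prop
  have h5 : ContDiff ℝ ∞ (fun p : ℝ × ℝ × (ℝ × ℝ) × (ℝ × ℝ) × ℝ => p.2.2.2.2) := by fun_prop
  have h6 : ContDiff ℝ ∞ (fun p : ℝ × ℝ × (ℝ × ℝ) × (ℝ × ℝ) × ℝ => ((Real.cos p.2.1, Real.sin p.2.1) : ℝ × ℝ)) := by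
    have h7 : ContDiff ℝ ∞ (fun p : ℝ × ℝ × (ℝ × ℝ) × (ℝ × ℝ) × ℝ => p.2.1) := by fun_prop
    exact (Real.contDiff_cos.comp h7).prodMk (Real.contDiff_sin.comp h7)
  have hΘ : ∀ i j, ContDiff ℝ 1 (Θ i j) := by
    intro i j
    have : ContDiff ℝ ∞ (Θ i j) :=
      (((hF1 i).comp h1).clm_apply h3).add ((((hF1 j).comp h2).clm_apply h4).add
        (h5.smul (((hF i).comp h1).sub ((hF j).comp h2))))
    exact this.of_le (by simp)
  have hΘ' : ∀ i, ContDiff ℝ 1 (Θ' i) := by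
    intro i
    have h8 : ContDiff ℝ ∞ (fun p : ℝ × ℝ × (ℝ × ℝ) × (ℝ × ℝ) × ℝ => p.2.2) := by fun_prop
    have : ContDiff ℝ ∞ (Θ' i) :=
      (contDiff_cubMap (hF i)).comp (h1.prodMk (h6.prodMk h8))
    exact this.of_le (by simp)
  let B : Set (V) :=
    ((⋃ i, ⋃ j, Set.range (Θ i j)) ∪ (⋃ i, Set.range (Θ' i))) ∪ {0}
  have hB : dimH B ≤ 7 := by
    have e1 : ∀ i j, dimH (Set.range (Θ i j)) ≤ 7 := by
      intro i j
      have := (hΘ i j).dimH_range_le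
      rw [hP] at this
      exact_mod_cast this
    have e2 : ∀ i, dimH (Set.range (Θ' i)) ≤ 7 := by
      intro i
      have := (hΘ' i).dimH_range_le
      rw [hP] at this
      exact_mod_cast this
    rw [dimH_union, dimH_union, dimH_iUnion, dimH_iUnion, dimH_singleton]
    refine max_le (max_le (iSup_le fun i => ?_) (iSup_le fun i => e2 i)) (by simp)
    rw [dimH_iUnion]
    exact iSup_le fun j => e1 i j
  have hd : Dense Bᶜ := by
    apply dense_compl_of_dimH_lt_finrank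
    refine lt_of_le_of_lt hB ?_
    exact_mod_cast hV
  obtain ⟨e, he⟩ := hd.nonempty
  have hmem : e ∉ B := he
  refine ⟨e, ?_, ?_, ?_⟩
  · rintro rfl
    exact hmem (Or.inr rfl)
  · intro i j t t' z hz
    apply hmem
    refine Or.inl (Or.inl (Set.mem_iUnion.mpr ⟨i, Set.mem_iUnion.mpr ⟨j, ?_⟩⟩))
    exact ⟨(t, t', z.1, z.2.1, z.2.2), by rw [← hz]; rfl⟩
  · intro i t θ z hz
    apply hmem
    refine Or.inl (Or.inr (Set.mem_iUnion.mpr ⟨i, ?_⟩))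
    exact ⟨(t, θ, z.1, z.2.1, z.2.2), hz⟩

theorem cubMap_scale {V : Type*} [NormedAddCommGroup V] [NormedSpace ℝ V] (F : ℝ × ℝ → V)
    (m u : ℝ × ℝ) (r : ℝ) (z : (ℝ × ℝ) × (ℝ × ℝ) × ℝ) :
    cubMap F (ContinuousLinearMap.id ℝ (ℝ × ℝ)) m (r • u) z =
      cubMap F (ContinuousLinearMap.id ℝ (ℝ × ℝ)) m u (z.1, r • z.2.1, r ^ 3 * z.2.2) := by
  simp only [cubMap, pairMap_apply, ContinuousLinearMap.comp_id, ContinuousLinearMap.id_apply,
    map_smul, ContinuousLinearMap.smul_apply, smul_smul]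
  congr 3
  try ring

theorem exists_polar (v : ℝ × ℝ) : ∃ r θ : ℝ, v = r • (Real.cos θ, Real.sin θ) := by
  refine ⟨‖(⟨v.1, v.2⟩ : ℂ)‖, Complex.arg ⟨v.1, v.2⟩, ?_⟩
  have h1 := Complex.norm_mul_cos_arg (⟨v.1, v.2⟩ : ℂ)
  have h2 := Complex.norm_mul_sin_arg (⟨v.1, v.2⟩ : ℂ)
  ext
  · simpa using h1.symm
  · simpa using h2.symm

theorem goodMap_step {K : Set M} {n : ℕ} {β : Fin n → ℝ × ℝ → M}
    (hβ : ∀ j, IsLocalDiffeomorph 𝓘(ℝ, ℝ × ℝ) I ∞ (β j))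
    (hcov : K ⊆ ⋃ j, (fun t : ℝ => β j (t, 0)) '' Set.Icc 0 1)
    {N : ℕ} (hN : 7 ≤ N) {ψ : M → EuclideanSpace ℝ (Fin (N + 1))} (h : GoodMap I K β ψ) :
    ∃ ψ' : M → EuclideanSpace ℝ (Fin N), GoodMap I K β ψ' := by
  obtain ⟨e, he, h1, h2⟩ := exists_avoid (V := EuclideanSpace ℝ (Fin (N + 1)))
    (by rw [finrank_euclideanSpace_fin]; omega) (fun i => ψ ∘ β i)
    (fun i => strip_contDiff (hβ i) h.smooth)
  obtain ⟨L, hL⟩ := exists_projection e he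
  refine ⟨fun x => L (ψ x), goodMap_comp hβ hcov h L (S := {x | ∀ s : ℝ, s • x ≠ e}) ?_ ?_ ?_⟩
  · intro x hx hLx
    obtain ⟨s, hs⟩ := hL x hLx
    by_cases hs0 : s = 0
    · rw [hs, hs0, zero_smul]
    · exact absurd (by rw [hs, smul_smul, inv_mul_cancel₀ hs0, one_smul]) (hx s⁻¹)
  · intro i j t t' z s hs
    exact h1 i j t t' (s • z) (by rw [map_smul]; exact hs)
  · intro i t v z hv s hs
    obtain ⟨r, θ, hrθ⟩ := exists_polar v
    rw [hrθ, ← map_smul, cubMap_scale] at hs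
    exact h2 i t θ _ hs

theorem exists_goodMap_seven {K : Set M} {n : ℕ} {β : Fin n → ℝ × ℝ → M}
    (hβ : ∀ j, IsLocalDiffeomorph 𝓘(ℝ, ℝ × ℝ) I ∞ (β j))
    (hcov : K ⊆ ⋃ j, (fun t : ℝ => β j (t, 0)) '' Set.Icc 0 1)
    {N : ℕ} {ψ : M → EuclideanSpace ℝ (Fin N)} (h : GoodMap I K β ψ) :
    ∃ ψ' : M → EuclideanSpace ℝ (Fin 7), GoodMap I K β ψ' := by
  induction N with
  | zero =>
    exact ⟨fun x => (0 : EuclideanSpace ℝ (Fin 0) →L[ℝ] EuclideanSpace ℝ (Fin 7)) (ψ x),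
      goodMap_comp hβ hcov h 0 (S := Set.univ) (fun x _ _ => Subsingleton.elim _ _)
        (fun _ _ _ _ _ => trivial) (fun _ _ _ _ _ => trivial)⟩
  | succ N ih =>
    by_cases hN : 7 ≤ N
    · obtain ⟨ψ', h'⟩ := goodMap_step hβ hcov hN h
      exact ih h'
    · have hle : Module.rank ℝ (EuclideanSpace ℝ (Fin (N + 1))) ≤
          Module.rank ℝ (EuclideanSpace ℝ (Fin 7)) := by
        rw [← Module.finrank_eq_rank, ← Module.finrank_eq_rank, finrank_euclideanSpace_fin,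
          finrank_euclideanSpace_fin]
        exact_mod_cast (by omega : N + 1 ≤ 7)
      obtain ⟨f, hf⟩ := rank_le_iff_exists_linearMap.mp hle
      refine ⟨fun x => LinearMap.toContinuousLinearMap f (ψ x),
        goodMap_comp hβ hcov h (LinearMap.toContinuousLinearMap f) (S := Set.univ) ?_
        (fun _ _ _ _ _ => trivial) (fun _ _ _ _ _ => trivial)⟩
      intro x _ hx
      exact hf (by simpa using hx)

end PR

end Pool.Agent.TotallySkew
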