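import Pool.Agent.TotallySkew.Open.QU

/-!
QC: lifting of orthonormal frames of imaginary quaternions to unit quaternions.

Let S be the subtype of pairs (α, β) of quaternions with α α = -1, β β = -1, α β = -β α, and
G = unitary ℍ[ℝ] (a topological group: the unit quaternions; compact, because it is closed and
bounded in the proper space ℍ[ℝ]). The map f : G → S, q ↦ (q i star q, q j star q), is continuous
and closed (compact source, T2 target), surjective (ex_unit), and its fibres are the cosets of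
the discrete subgroup {1, -1}.
Topology.IsQuotientMap.isQuotientCoveringMap_of_subgroupOp gives that f is a covering map and
IsCoveringMap.existsUnique_continuousMap_lifts (ℝ × ℝ is simply connected and locally path
connected) gives a continuous lift of x ↦ (α x, β x).
-/

open scoped Quaternion Topology
open Function Set

namespace Pool.Agent.TotallySkew

/-- The sum of `(Q h) star h` over `h` in `{1, i, j, k}` is `4`. -/
private lemma sum_Q (a b c : ℍ[ℝ]) {i j k : ℍ[ℝ]} (hi : i = ⟨0, 1, 0, 0⟩) (hj : j = ⟨0, 0, 1, 0⟩)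
    (hk : k = ⟨0, 0, 0, 1⟩) :
    (1 - a * 1 * i - b * 1 * j - c * 1 * k) * star 1 +
      (i - a * i * i - b * i * j - c * i * k) * star i +
      (j - a * j * i - b * j * j - c * j * k) * star j +
      (k - a * k * i - b * k * j - c * k * k) * star k = ((4 : ℝ) : ℍ[ℝ]) := by
  subst hi hj hk
  ext
  · simp; ring
  · simp; ring
  · simp; ring
  · simp; ring

private lemma exists_unit {a b : ℍ[ℝ]} (h1 : a * a = -1) (h2 : b * b = -1)
    (h3 : a * b = -(b * a)) {i j : ℍ[ℝ]} (hi : i = ⟨0, 1, 0, 0⟩) (hj : j = ⟨0, 0, 1, 0⟩) :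
    ∃ q : ℍ[ℝ], ‖q‖ = 1 ∧ a * q = q * i ∧ b * q = q * j := by
  obtain ⟨k, hk⟩ : ∃ k : ℍ[ℝ], k = ⟨0, 0, 0, 1⟩ := ⟨_, rfl⟩
  have hii : i * i = -1 := by subst hi; ext <;> simp
  have hji : j * i = -k := by subst hi hj hk; ext <;> simp
  have hki : k * i = j := by subst hi hj hk; ext <;> simp
  have hij : i * j = k := by subst hi hj hk; ext <;> simp
  have hjj : j * j = -1 := by subst hj; ext <;> simp
  have hkj : k * j = -i := by subst hi hj hk; ext <;> simp
  have key : ∀ h : ℍ[ℝ], a * (h - a * h * i - b * h * j - a * b * h * k) =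
      (h - a * h * i - b * h * j - a * b * h * k) * i ∧
      b * (h - a * h * i - b * h * j - a * b * h * k) =
      (h - a * h * i - b * h * j - a * b * h * k) * j := by
    intro h
    constructor
    · have e1 : a * (a * h * i) = -(h * i) := by
        rw [← mul_assoc, ← mul_assoc, h1]; noncomm_ring
      have e2 : a * (a * b * h * k) = -(b * h * k) := by
        rw [← mul_assoc, ← mul_assoc, ← mul_assoc, h1]; noncomm_ring
      have e3 : a * h * i * i = -(a * h) := by rw [mul_assoc, hii]; noncomm_ring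
      have e4 : b * h * j * i = -(b * h * k) := by rw [mul_assoc, hji]; noncomm_ring
      have e5 : a * b * h * k * i = a * b * h * j := by rw [mul_assoc, hki]
      rw [mul_sub, mul_sub, mul_sub, sub_mul, sub_mul, sub_mul, e1, e2, e3, e4, e5]
      noncomm_ring
    · have hbab : b * (a * b) = a := by
        rw [h3, mul_neg, ← mul_assoc, h2]; noncomm_ring
      have e1 : b * (a * h * i) = -(a * b * h * i) := by
        rw [← mul_assoc, ← mul_assoc, h3]; noncomm_ring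
      have e2 : b * (b * h * j) = -(h * j) := by
        rw [← mul_assoc, ← mul_assoc, h2]; noncomm_ring
      have e2' : b * (a * b * h * k) = a * h * k := by
        rw [← mul_assoc, ← mul_assoc, hbab]
      have e3 : a * h * i * j = a * h * k := by rw [mul_assoc, hij]
      have e4 : b * h * j * j = -(b * h) := by rw [mul_assoc, hjj]; noncomm_ring
      have e5 : a * b * h * k * j = -(a * b * h * i) := by rw [mul_assoc, hkj]; noncomm_ring
      rw [mul_sub, mul_sub, mul_sub, sub_mul, sub_mul, sub_mul, e1, e2, e2', e3, e4, e5]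
      noncomm_ring
  obtain ⟨h, hh⟩ : ∃ h : ℍ[ℝ], h - a * h * i - b * h * j - a * b * h * k ≠ 0 := by
    by_contra hcon
    push Not at hcon
    have := sum_Q a b (a * b) hi hj hk
    rw [hcon 1, hcon i, hcon j, hcon k] at this
    have h4 := congrArg QuaternionAlgebra.re this
    simp at h4
  obtain ⟨Q, hQ⟩ : ∃ Q : ℍ[ℝ], Q = h - a * h * i - b * h * j - a * b * h * k := ⟨_, rfl⟩
  rw [← hQ] at hh
  have hk := key h
  rw [← hQ] at hk
  have hQn : ‖Q‖ ≠ 0 := norm_ne_zero_iff.mpr hh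
  refine ⟨(‖Q‖⁻¹ : ℝ) • Q, ?_, ?_, ?_⟩
  · rw [norm_smul, norm_inv, norm_norm, inv_mul_cancel₀ hQn]
  · rw [mul_smul_comm, smul_mul_assoc, hk.1]
  · rw [mul_smul_comm, smul_mul_assoc, hk.2]

/-- The pairs of anticommuting square roots of `-1`. -/
private def FS : Set (ℍ[ℝ] × ℍ[ℝ]) :=
  {p | p.1 * p.1 = -1 ∧ p.2 * p.2 = -1 ∧ p.1 * p.2 = -(p.2 * p.1)}

private lemma norm_unitary (q : unitary ℍ[ℝ]) : ‖(q : ℍ[ℝ])‖ = 1 :=
  CStarRing.norm_coe_unitary q

private lemma mem_unitary_of_norm {q : ℍ[ℝ]} (hq : ‖q‖ = 1) : q ∈ unitary ℍ[ℝ] := by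
  have h : q * star q = 1 := by
    rw [Quaternion.self_mul_star, Quaternion.normSq_eq_norm_mul_self, hq]
    simp
  have h' : star q * q = 1 := by
    rw [Quaternion.star_mul_self, Quaternion.normSq_eq_norm_mul_self, hq]
    simp
  exact ⟨h', h⟩

private lemma isCompact_unitary : IsCompact (unitary ℍ[ℝ] : Set ℍ[ℝ]) := by
  have : (unitary ℍ[ℝ] : Set ℍ[ℝ]) = Metric.sphere 0 1 := by
    ext q
    constructor
    · intro hq
      simpa using norm_unitary ⟨q, hq⟩
    · intro hq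
      exact mem_unitary_of_norm (by simpa using hq)
  rw [this]
  exact isCompact_sphere _ _

private lemma conj_mem {i j : ℍ[ℝ]} (hi : i = ⟨0, 1, 0, 0⟩) (hj : j = ⟨0, 0, 1, 0⟩)
    (q : unitary ℍ[ℝ]) :
    ((q : ℍ[ℝ]) * i * star (q : ℍ[ℝ]), (q : ℍ[ℝ]) * j * star (q : ℍ[ℝ])) ∈ FS := by
  have hii : i * i = -1 := by subst hi; ext <;> simp
  have hjj : j * j = -1 := by subst hj; ext <;> simp
  have hij : i * j = -(j * i) := by subst hi hj; ext <;> simp
  have hs : star (q : ℍ[ℝ]) * q = 1 := Unitary.coe_star_mul_self q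
  have hs' : (q : ℍ[ℝ]) * star (q : ℍ[ℝ]) = 1 := Unitary.coe_mul_star_self q
  have hgen : ∀ x y : ℍ[ℝ], (q : ℍ[ℝ]) * x * star (q : ℍ[ℝ]) * ((q : ℍ[ℝ]) * y *
      star (q : ℍ[ℝ])) = (q : ℍ[ℝ]) * (x * y) * star (q : ℍ[ℝ]) := by
    intro x y
    calc _ = (q : ℍ[ℝ]) * x * (star (q : ℍ[ℝ]) * (q : ℍ[ℝ])) * y * star (q : ℍ[ℝ]) := by
          noncomm_ring
      _ = _ := by rw [hs]; noncomm_ring
  refine ⟨?_, ?_, ?_⟩
  · change (q : ℍ[ℝ]) * i * star (q : ℍ[ℝ]) * ((q : ℍ[ℝ]) * i * star (q : ℍ[ℝ])) = -1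
    rw [hgen, hii, mul_neg, mul_one, neg_mul, hs']
  · change (q : ℍ[ℝ]) * j * star (q : ℍ[ℝ]) * ((q : ℍ[ℝ]) * j * star (q : ℍ[ℝ])) = -1
    rw [hgen, hjj, mul_neg, mul_one, neg_mul, hs']
  · change (q : ℍ[ℝ]) * i * star (q : ℍ[ℝ]) * ((q : ℍ[ℝ]) * j * star (q : ℍ[ℝ])) =
      -((q : ℍ[ℝ]) * j * star (q : ℍ[ℝ]) * ((q : ℍ[ℝ]) * i * star (q : ℍ[ℝ])))
    rw [hgen, hgen, hij, mul_neg, neg_mul]

/-- The subgroup `{1, -1}`. -/
private def pmOne : Subgroup (unitary ℍ[ℝ]) where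
  carrier := {q | q = 1 ∨ q = -1}
  one_mem' := Or.inl rfl
  mul_mem' := by
    rintro a b (rfl | rfl) (rfl | rfl)
    · left; simp
    · right; simp
    · right; simp
    · left; simp
  inv_mem' := by
    rintro a (rfl | rfl)
    · left; simp
    · right; simp

theorem exists_frame_lift {α β : ℝ × ℝ → ℍ[ℝ]} (hα : Continuous α) (hβ : Continuous β)
    (h1 : ∀ x, α x * α x = -1) (h2 : ∀ x, β x * β x = -1)
    (h3 : ∀ x, α x * β x = -(β x * α x)) :
    ∃ q : ℝ × ℝ → ℍ[ℝ], Continuous q ∧ (∀ x, ‖q x‖ = 1) ∧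
      (∀ x, α x * q x = q x * ⟨0, 1, 0, 0⟩) ∧ ∀ x, β x * q x = q x * ⟨0, 0, 1, 0⟩ := by
  obtain ⟨i, hi⟩ : ∃ i : ℍ[ℝ], i = ⟨0, 1, 0, 0⟩ := ⟨_, rfl⟩
  obtain ⟨j, hj⟩ : ∃ j : ℍ[ℝ], j = ⟨0, 0, 1, 0⟩ := ⟨_, rfl⟩
  rw [← hi, ← hj]
  have : CompactSpace (unitary ℍ[ℝ]) := isCompact_iff_compactSpace.mp isCompact_unitary
  let f : unitary ℍ[ℝ] → FS := fun q =>
    ⟨((q : ℍ[ℝ]) * i * star (q : ℍ[ℝ]), (q : ℍ[ℝ]) * j * star (q : ℍ[ℝ])), conj_mem hi hj q⟩
  have hfc : Continuous f := by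
    refine Continuous.subtype_mk (Continuous.prodMk ?_ ?_) _
    · exact (continuous_subtype_val.mul continuous_const).mul continuous_subtype_val.star
    · exact (continuous_subtype_val.mul continuous_const).mul continuous_subtype_val.star
  have hfib : ∀ {a b : ℍ[ℝ]} {q : unitary ℍ[ℝ]}, a * q = q * i → b * q = q * j →
      a = (q : ℍ[ℝ]) * i * star (q : ℍ[ℝ]) ∧ b = (q : ℍ[ℝ]) * j * star (q : ℍ[ℝ]) := by
    intro a b q ha hb
    have hs' : (q : ℍ[ℝ]) * star (q : ℍ[ℝ]) = 1 := Unitary.coe_mul_star_self q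
    rw [← ha, ← hb, mul_assoc, mul_assoc, hs', mul_one, mul_one]
    exact ⟨rfl, rfl⟩
  have hfs : Surjective f := by
    rintro ⟨⟨a, b⟩, ha, hb, hab⟩
    obtain ⟨q, hq, hq1, hq2⟩ := exists_unit ha hb hab hi hj
    refine ⟨⟨q, mem_unitary_of_norm hq⟩, ?_⟩
    have := hfib (q := ⟨q, mem_unitary_of_norm hq⟩) hq1 hq2
    apply Subtype.ext
    exact Prod.ext this.1.symm this.2.symm
  have hfq : Topology.IsQuotientMap f := hfc.isClosedMap.isQuotientMap hfc hfs
  have hfe : ∀ {e₁ e₂ : unitary ℍ[ℝ]}, f e₁ = f e₂ ↔ e₁⁻¹ * e₂ ∈ pmOne := by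
    intro e₁ e₂
    have hs : ∀ (q : unitary ℍ[ℝ]) (x : ℍ[ℝ]), (q : ℍ[ℝ]) * x * star (q : ℍ[ℝ]) * q = q * x := by
      intro q x
      rw [mul_assoc, Unitary.coe_star_mul_self q, mul_one]
    constructor
    · intro he
      have he' := congrArg Subtype.val he
      have e1 : (e₁ : ℍ[ℝ]) * i * star (e₁ : ℍ[ℝ]) = (e₂ : ℍ[ℝ]) * i * star (e₂ : ℍ[ℝ]) :=
        congrArg Prod.fst he'
      have e2 : (e₁ : ℍ[ℝ]) * j * star (e₁ : ℍ[ℝ]) = (e₂ : ℍ[ℝ]) * j * star (e₂ : ℍ[ℝ]) :=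
        congrArg Prod.snd he'
      have hu := frame_lift_unique (α := (e₁ : ℍ[ℝ]) * i * star (e₁ : ℍ[ℝ]))
        (β := (e₁ : ℍ[ℝ]) * j * star (e₁ : ℍ[ℝ])) (norm_unitary e₁) (norm_unitary e₂)
        (by rw [← hi, hs]) (by rw [← hj, hs]) (by rw [e1, ← hi, hs]) (by rw [e2, ← hj, hs])
      rcases hu with hu | hu
      · have : e₂ = e₁ := Subtype.ext hu
        left
        rw [this, inv_mul_cancel]
      · have : e₂ = -e₁ := Subtype.ext hu
        right
        rw [this, mul_neg, inv_mul_cancel]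
    · intro he
      have he2 : e₂ = e₁ ∨ e₂ = -e₁ := by
        rcases he with he | he
        · left
          rw [inv_mul_eq_one] at he
          exact he.symm
        · right
          rw [inv_mul_eq_iff_eq_mul] at he
          rw [he, mul_neg, mul_one]
      rcases he2 with rfl | rfl
      · rfl
      · apply Subtype.ext
        refine Prod.ext ?_ ?_
        · change (e₁ : ℍ[ℝ]) * i * star (e₁ : ℍ[ℝ]) =
            (-(e₁ : ℍ[ℝ])) * i * star (-(e₁ : ℍ[ℝ]))
          rw [star_neg]; noncomm_ring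
        · change (e₁ : ℍ[ℝ]) * j * star (e₁ : ℍ[ℝ]) =
            (-(e₁ : ℍ[ℝ])) * j * star (-(e₁ : ℍ[ℝ]))
          rw [star_neg]; noncomm_ring
  have hdisc : IsDiscrete (pmOne : Set (unitary ℍ[ℝ])) := by
    have : (pmOne : Set (unitary ℍ[ℝ])).Finite := by
      refine Set.Finite.subset (Set.toFinite {1, -1}) ?_
      intro x hx
      exact hx
    exact this.isDiscrete
  have hcov : IsCoveringMap f :=
    (hfq.isQuotientCoveringMap_of_subgroupOp pmOne hdisc hfe).isCoveringMap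
  let F : C(ℝ × ℝ, FS) := ⟨fun x => ⟨(α x, β x), h1 x, h2 x, h3 x⟩,
    (hα.prodMk hβ).subtype_mk _⟩
  obtain ⟨e₀, he₀⟩ := hfs (F 0)
  obtain ⟨G, ⟨hG0, hG⟩, -⟩ := hcov.existsUnique_continuousMap_lifts F 0 e₀ he₀
  have hGx : ∀ x, f (G x) = F x := fun x => congrFun hG x
  refine ⟨fun x => (G x : ℍ[ℝ]), continuous_subtype_val.comp G.continuous,
    fun x => norm_unitary _, ?_, ?_⟩
  · intro x
    have := congrArg (fun s : FS => s.1.1) (hGx x)
    have h' : α x = (G x : ℍ[ℝ]) * i * star (G x : ℍ[ℝ]) := this.symm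
    rw [h', mul_assoc, Unitary.coe_star_mul_self, mul_one]
  · intro x
    have := congrArg (fun s : FS => s.1.2) (hGx x)
    have h' : β x = (G x : ℍ[ℝ]) * j * star (G x : ℍ[ℝ]) := this.symm
    rw [h', mul_assoc, Unitary.coe_star_mul_self, mul_one]

end Pool.Agent.TotallySkew
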