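import Pool.Agent.TotallySkew.Open.Defs

/-!
QU: uniqueness of the lift and constancy of signs.

frame_lift_unique: r = star q q' commutes with i and with j (multiply the relations), so it is
real; ‖r‖ = 1 gives r = 1 or r = -1, and q' = q r.
const_sign: ℝ × ℝ is preconnected; the sets {x | q' x = q x} and {x | q' x = -q x} are closed,
cover, and are disjoint because q x ≠ 0.
-/

open scoped Quaternion Topology
open Function Set

namespace Pool.Agent.TotallySkew

theorem frame_lift_unique {α β q q' : ℍ[ℝ]} (hq : ‖q‖ = 1) (hq' : ‖q'‖ = 1)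
    (h1 : α * q = q * ⟨0, 1, 0, 0⟩) (h2 : β * q = q * ⟨0, 0, 1, 0⟩)
    (h1' : α * q' = q' * ⟨0, 1, 0, 0⟩) (h2' : β * q' = q' * ⟨0, 0, 1, 0⟩) :
    q' = q ∨ q' = -q := by
  have hq0 : q ≠ 0 := by
    rintro rfl
    simp at hq
  obtain ⟨r, hr⟩ : ∃ r : ℍ[ℝ], r = q⁻¹ * q' := ⟨_, rfl⟩
  obtain ⟨I, hI⟩ : ∃ I : ℍ[ℝ], I = ⟨0, 1, 0, 0⟩ := ⟨_, rfl⟩
  obtain ⟨J, hJ⟩ : ∃ J : ℍ[ℝ], J = ⟨0, 0, 1, 0⟩ := ⟨_, rfl⟩
  rw [← hI] at h1 h1'
  rw [← hJ] at h2 h2'
  have hqr : q' = q * r := by rw [hr, mul_inv_cancel_left₀ hq0]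
  have hnr : ‖r‖ = 1 := by rw [hr, norm_mul, norm_inv, hq, hq']; norm_num
  have c1 : I * r = r * I := by
    rw [hqr, ← mul_assoc, h1, mul_assoc, mul_assoc] at h1'
    exact mul_left_cancel₀ hq0 h1'
  have c2 : J * r = r * J := by
    rw [hqr, ← mul_assoc, h2, mul_assoc, mul_assoc] at h2'
    exact mul_left_cancel₀ hq0 h2'
  have e1 : r.imJ = 0 := by
    have := congrArg QuaternionAlgebra.imK c1
    simp [hI] at this
    linarith
  have e2 : r.imK = 0 := by
    have := congrArg QuaternionAlgebra.imJ c1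
    simp [hI] at this
    linarith
  have e3 : r.imI = 0 := by
    have := congrArg QuaternionAlgebra.imK c2
    simp [hJ] at this
    linarith
  have hn : r.re * r.re = 1 := by
    have := Quaternion.normSq_eq_norm_mul_self r
    rw [hnr, Quaternion.normSq_def', e1, e2, e3] at this
    nlinarith
  have hre : r.re = 1 ∨ r.re = -1 := by
    have : (r.re - 1) * (r.re + 1) = 0 := by nlinarith
    rcases mul_eq_zero.mp this with h | h
    · left; linarith
    · right; linarith
  rcases hre with h | h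
  · left
    have : r = 1 := by ext <;> simp [e1, e2, e3, h]
    rw [hqr, this, mul_one]
  · right
    have : r = -1 := by ext <;> simp [e1, e2, e3, h]
    rw [hqr, this, mul_neg, mul_one]

theorem const_sign {q q' : ℝ × ℝ → ℍ[ℝ]} (hq : Continuous q) (hq' : Continuous q')
    (h0 : ∀ x, q x ≠ 0) (h : ∀ x, q' x = q x ∨ q' x = -q x) :
    (∀ x, q' x = q x) ∨ ∀ x, q' x = -q x := by
  have hA : IsClosed {x | q' x = q x} := isClosed_eq hq' hq
  have hB : IsClosed {x | q' x = -q x} := isClosed_eq hq' hq.neg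
  have hcov : (univ : Set (ℝ × ℝ)) ⊆ {x | q' x = q x} ∪ {x | q' x = -q x} := fun x _ => h x
  have hdis : ¬ ((univ : Set (ℝ × ℝ)) ∩ ({x | q' x = q x} ∩ {x | q' x = -q x})).Nonempty := by
    rintro ⟨x, -, h1, h2⟩
    have h3 : q x = -q x := by
      rw [← show q' x = -q x from h2]
      exact (show q' x = q x from h1).symm
    have h4 : (2 : ℝ) • q x = 0 := by
      rw [two_smul]
      nth_rewrite 1 [h3]
      exact neg_add_cancel _
    exact h0 x ((smul_eq_zero.mp h4).resolve_left two_ne_zero)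
  have hpre : IsPreconnected (univ : Set (ℝ × ℝ)) := isPreconnected_univ
  rw [isPreconnected_closed_iff] at hpre
  by_contra hcon
  push Not at hcon
  obtain ⟨⟨x, hx⟩, ⟨y, hy⟩⟩ := hcon
  exact hdis (hpre _ _ hA hB hcov ⟨y, trivial, (h y).resolve_right hy⟩
    ⟨x, trivial, (h x).resolve_left hx⟩)

end Pool.Agent.TotallySkew
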