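import Pool.Agent.TotallySkew.Open.QC
import Pool.Agent.TotallySkew.Open.QU

/-!
QO: there are no odd frames in the quaternions with a reversing symmetry.

In the proof Im z = z - z.re. Put
α₁ = Im (star a b), β₁ = Im (star a c), γ₁ = Im (α₁ β₁),
which are continuous; α₁, β₁ are linearly independent (over ℝ) because star a a = ‖a‖² is real and
star a (r a + s b + t c) = r ‖a‖² + s star a b + t star a c. For imaginary α₁, β₁ one has
α₁ β₁ = -⟨α₁, β₁⟩ + γ₁, γ₁ is the cross product, orthogonal to α₁ and not 0. Let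
α = α₁ / ‖α₁‖, γ = γ₁ / ‖γ₁‖: α α = -1, γ γ = -1, α γ = -γ α. By exists_frame_lift there is a
continuous q with ‖q‖ = 1, α q = q i, γ q = q j.
(1) a, b, c change sign under φ ↦ φ + π, so α, γ do not change. By frame_lift_unique and
const_sign there is a sign ε with q (θ, φ + π) = ε q (θ, φ) for all (θ, φ).
(2) Let u = a / ‖a‖. Under (θ, φ) ↦ (θ + 1, -φ): star a' b' = a star b = star (b star a), and
b star a = u (star a b) star u, so α₁' = -u α₁ star u; star a' c' = -a star c = -star (c star a), so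
β₁' = u β₁ star u; hence γ₁' = -u γ₁ star u. (Im commutes with conjugation by a unit u and
Im (star z) = -Im z.) So α' = -u α star u, γ' = -u γ star u, and q'' = u q k satisfies
α' q'' = -u α q k = -u q i k = q'' i, γ' q'' = -u q j k = q'' j (i k = -k i, j k = -k j).
So q (θ + 1, -φ) = δ u (θ, φ) q (θ, φ) k with a constant sign δ.
(3) Replace φ by φ + π in (2): q (θ + 1, -φ - π) = δ u (θ, φ + π) q (θ, φ + π) k
= -ε δ u (θ, φ) q (θ, φ) k = -ε q (θ + 1, -φ), but by (1) q (θ + 1, -φ - π) = ε q (θ + 1, -φ).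
So q = 0, a contradiction.
-/

open scoped Quaternion Topology
open Function Set

namespace Pool.Agent.TotallySkew

/-- imaginary part of a quaternion -/
noncomputable def qoIm (z : ℍ[ℝ]) : ℍ[ℝ] := z - (z.re : ℍ[ℝ])

theorem qoIm_re (z : ℍ[ℝ]) : (qoIm z).re = 0 := by simp [qoIm]
theorem qoIm_imI (z : ℍ[ℝ]) : (qoIm z).imI = z.imI := by simp [qoIm]
theorem qoIm_imJ (z : ℍ[ℝ]) : (qoIm z).imJ = z.imJ := by simp [qoIm]
theorem qoIm_imK (z : ℍ[ℝ]) : (qoIm z).imK = z.imK := by simp [qoIm]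

theorem qoIm_continuous : Continuous qoIm :=
  continuous_id.sub (Quaternion.continuous_coe.comp Quaternion.continuous_re)

theorem qo_sq (p : ℍ[ℝ]) (hp : p.re = 0) : p * p = -((‖p‖ * ‖p‖) • (1 : ℍ[ℝ])) := by
  have h : ‖p‖ * ‖p‖ = p.imI ^ 2 + p.imJ ^ 2 + p.imK ^ 2 := by
    rw [← Quaternion.normSq_eq_norm_mul_self, Quaternion.normSq_def', hp]
    ring
  rw [h]
  ext
  · simp [hp]; ring
  · simp [hp]; ring
  · simp [hp]; ring
  · simp [hp]; ring

/-- unit vector in the direction of `p` -/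
noncomputable def qoN (p : ℍ[ℝ]) : ℍ[ℝ] := ‖p‖⁻¹ • p

theorem qoN_sq (p : ℍ[ℝ]) (hp : p.re = 0) (h0 : p ≠ 0) : qoN p * qoN p = -1 := by
  have h1 : ‖p‖ ≠ 0 := norm_ne_zero_iff.mpr h0
  rw [qoN, smul_mul_smul_comm, qo_sq p hp, smul_neg, smul_smul]
  rw [show ‖p‖⁻¹ * ‖p‖⁻¹ * (‖p‖ * ‖p‖) = 1 by field_simp, one_smul]

theorem qo_anti (p q : ℍ[ℝ]) (hp : p.re = 0) (hq : q.re = 0) :
    p * qoIm (p * q) = -(qoIm (p * q) * p) := by
  ext
  · simp [qoIm, hp, hq]; ring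
  · simp [qoIm, hp, hq]; ring
  · simp [qoIm, hp, hq]; ring
  · simp [qoIm, hp, hq]; ring

theorem qoN_anti (p q : ℍ[ℝ]) (hp : p.re = 0) (hq : q.re = 0) :
    qoN p * qoN (qoIm (p * q)) = -(qoN (qoIm (p * q)) * qoN p) := by
  simp only [qoN, smul_mul_smul_comm, qo_anti p q hp hq, smul_neg, mul_comm]

theorem qo_triple (p q : ℍ[ℝ]) (hp : p.re = 0) (hq : q.re = 0) (h : qoIm (p * q) = 0) :
    (p.imI * q.imI + p.imJ * q.imJ + p.imK * q.imK) • p +
      (-(p.imI * p.imI + p.imJ * p.imJ + p.imK * p.imK)) • q = 0 := by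
  have h1 : (qoIm (p * q)).imI = 0 := by rw [h]; rfl
  have h2 : (qoIm (p * q)).imJ = 0 := by rw [h]; rfl
  have h3 : (qoIm (p * q)).imK = 0 := by rw [h]; rfl
  simp only [qoIm_imI, qoIm_imJ, qoIm_imK, Quaternion.imI_mul, Quaternion.imJ_mul,
    Quaternion.imK_mul, hp, hq] at h1 h2 h3
  ext
  · simp [hp, hq]
  · simp; linear_combination p.imJ * h3 - p.imK * h2
  · simp; linear_combination p.imK * h1 - p.imI * h3
  · simp; linear_combination p.imI * h2 - p.imJ * h1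

theorem qo_eq_zero {p : ℍ[ℝ]} (hp : p.re = 0)
    (h : p.imI * p.imI + p.imJ * p.imJ + p.imK * p.imK = 0) : p = 0 := by
  have a1 := mul_self_nonneg p.imI
  have a2 := mul_self_nonneg p.imJ
  have a3 := mul_self_nonneg p.imK
  have h1 : p.imI = 0 := mul_self_eq_zero.mp (by linarith)
  have h2 : p.imJ = 0 := mul_self_eq_zero.mp (by linarith)
  have h3 : p.imK = 0 := mul_self_eq_zero.mp (by linarith)
  ext <;> simp [hp, h1, h2, h3]

theorem qo_cross_ne {p q : ℍ[ℝ]} (hp : p.re = 0) (hq : q.re = 0)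
    (hi : ∀ s t : ℝ, s • p + t • q = 0 → s = 0 ∧ t = 0) : p ≠ 0 ∧ qoIm (p * q) ≠ 0 := by
  have hp0 : p ≠ 0 := by
    rintro rfl
    have := (hi 1 0 (by simp)).1
    exact one_ne_zero this
  refine ⟨hp0, fun h => ?_⟩
  have h1 := (hi _ _ (qo_triple p q hp hq h)).2
  exact hp0 (qo_eq_zero hp (by linarith))

theorem qo_indep {a b c : ℍ[ℝ]}
    (hind : ∀ r s t : ℝ, r • a + s • b + t • c = 0 → r = 0 ∧ s = 0 ∧ t = 0) (s t : ℝ)
    (h : s • qoIm (star a * b) + t • qoIm (star a * c) = 0) : s = 0 ∧ t = 0 := by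
  have ha : a ≠ 0 := by
    rintro rfl
    exact one_ne_zero (hind 1 0 0 (by simp)).1
  have hn : ‖a‖ ≠ 0 := norm_ne_zero_iff.mpr ha
  obtain ⟨r, hr⟩ : ∃ r : ℝ, r * (‖a‖ * ‖a‖) = -(s * (star a * b).re + t * (star a * c).re) :=
    ⟨-(s * (star a * b).re + t * (star a * c).re) / (‖a‖ * ‖a‖), by field_simp⟩
  have h2 : star a * a = (‖a‖ * ‖a‖) • (1 : ℍ[ℝ]) := by
    rw [Quaternion.star_mul_self, Quaternion.normSq_eq_norm_mul_self]
    ext <;> simp
  have h4 : ∀ z : ℍ[ℝ], z = qoIm z + z.re • (1 : ℍ[ℝ]) := by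
    intro z
    ext <;> simp [qoIm]
  have h1 : star a * (r • a + s • b + t • c) = 0 := by
    have e1 : star a * (r • a + s • b + t • c) =
        (r * (‖a‖ * ‖a‖)) • (1 : ℍ[ℝ]) + s • (star a * b) + t • (star a * c) := by
      rw [mul_add, mul_add, mul_smul_comm, mul_smul_comm, mul_smul_comm, h2, smul_smul]
    have e2 : s • (star a * b) + t • (star a * c) =
        (s * (star a * b).re + t * (star a * c).re) • (1 : ℍ[ℝ]) := by
      calc s • (star a * b) + t • (star a * c)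
          = s • (qoIm (star a * b) + (star a * b).re • (1 : ℍ[ℝ])) +
            t • (qoIm (star a * c) + (star a * c).re • (1 : ℍ[ℝ])) := by rw [← h4, ← h4]
        _ = (s • qoIm (star a * b) + t • qoIm (star a * c)) +
            (s * (star a * b).re + t * (star a * c).re) • (1 : ℍ[ℝ]) := by module
        _ = _ := by rw [h, zero_add]
    rw [e1, add_assoc, e2, hr, ← add_smul, neg_add_cancel, zero_smul]
  have h5 : r • a + s • b + t • c = 0 := by
    rcases mul_eq_zero.mp h1 with h6 | h6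
    · exact absurd (star_eq_zero.mp h6) ha
    · exact h6
  exact (hind r s t h5).2

/-- the first unit imaginary vector of a frame -/
noncomputable def qoA (a b : ℍ[ℝ]) : ℍ[ℝ] := qoN (qoIm (star a * b))

/-- the second unit imaginary vector of a frame -/
noncomputable def qoG (a b c : ℍ[ℝ]) : ℍ[ℝ] :=
  qoN (qoIm (qoIm (star a * b) * qoIm (star a * c)))

theorem qoA_neg (a b : ℍ[ℝ]) : qoA (-a) (-b) = qoA a b := by simp [qoA]

theorem qoG_neg (a b c : ℍ[ℝ]) : qoG (-a) (-b) (-c) = qoG a b c := by simp [qoG]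

theorem qoIm_conj1 (a b : ℍ[ℝ]) :
    (‖a‖ * ‖a‖) • qoIm (star (-star a) * (-star b)) = -(a * qoIm (star a * b) * star a) := by
  rw [← Quaternion.normSq_eq_norm_mul_self, Quaternion.normSq_def']
  ext
  · simp [qoIm]; ring
  · simp [qoIm]; ring
  · simp [qoIm]; ring
  · simp [qoIm]; ring

theorem qoIm_conj2 (a c : ℍ[ℝ]) :
    (‖a‖ * ‖a‖) • qoIm (star (-star a) * star c) = a * qoIm (star a * c) * star a := by
  rw [← Quaternion.normSq_eq_norm_mul_self, Quaternion.normSq_def']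
  ext
  · simp [qoIm]; ring
  · simp [qoIm]; ring
  · simp [qoIm]; ring
  · simp [qoIm]; ring

theorem qoIm_conj3 (a z : ℍ[ℝ]) : qoIm (a * z * star a) = a * qoIm z * star a := by
  ext
  · simp [qoIm]; ring
  · simp [qoIm]; ring
  · simp [qoIm]; ring
  · simp [qoIm]; ring

theorem qoIm_smul (r : ℝ) (z : ℍ[ℝ]) : qoIm (r • z) = r • qoIm z := by
  ext <;> simp [qoIm]

theorem qoIm_neg (z : ℍ[ℝ]) : qoIm (-z) = -qoIm z := by
  ext <;> simp [qoIm]

theorem qoN_norm {a : ℍ[ℝ]} (ha : a ≠ 0) : ‖qoN a‖ = 1 := by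
  have h1 : ‖a‖ ≠ 0 := norm_ne_zero_iff.mpr ha
  rw [qoN, norm_smul, norm_inv, norm_norm, inv_mul_cancel₀ h1]

theorem qoN_star_mul {a : ℍ[ℝ]} (ha : a ≠ 0) : star (qoN a) * qoN a = 1 := by
  rw [Quaternion.star_mul_self, Quaternion.normSq_eq_norm_mul_self, qoN_norm ha]
  simp

theorem qo_conj_smul {a X Y : ℍ[ℝ]} (ha : a ≠ 0) (h : (‖a‖ * ‖a‖) • X = a * Y * star a) :
    X = qoN a * Y * star (qoN a) := by
  have h1 : ‖a‖ ≠ 0 := norm_ne_zero_iff.mpr ha
  have h2 : X = (‖a‖ * ‖a‖)⁻¹ • ((‖a‖ * ‖a‖) • X) := by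
    rw [smul_smul, inv_mul_cancel₀ (mul_ne_zero h1 h1), one_smul]
  rw [h2, h, qoN, Quaternion.star_smul, smul_mul_assoc, smul_mul_assoc, mul_smul_comm,
    smul_smul, mul_inv]

theorem qoN_conj {u : ℍ[ℝ]} (hu : ‖u‖ = 1) (X : ℍ[ℝ]) :
    qoN (u * X * star u) = u * qoN X * star u := by
  rw [qoN, norm_mul, norm_mul, norm_star, hu, one_mul, mul_one, qoN, mul_smul_comm,
    smul_mul_assoc]

theorem qoN_neg (X : ℍ[ℝ]) : qoN (-X) = -qoN X := by
  rw [qoN, norm_neg, smul_neg, qoN]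

theorem qoA_turn {a : ℍ[ℝ]} (b : ℍ[ℝ]) (ha : a ≠ 0) :
    qoA (-star a) (-star b) = -(qoN a * qoA a b * star (qoN a)) := by
  have h1 : -qoIm (star (-star a) * (-star b)) = qoN a * qoIm (star a * b) * star (qoN a) := by
    refine qo_conj_smul ha ?_
    rw [smul_neg, qoIm_conj1, neg_neg]
  rw [qoA, ← neg_neg (qoIm _), h1, qoN_neg, qoN_conj (qoN_norm ha), qoA]

theorem qoG_turn {a : ℍ[ℝ]} (b c : ℍ[ℝ]) (ha : a ≠ 0) :
    qoG (-star a) (-star b) (star c) = -(qoN a * qoG a b c * star (qoN a)) := by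
  have h1 : -qoIm (star (-star a) * (-star b)) = qoN a * qoIm (star a * b) * star (qoN a) := by
    refine qo_conj_smul ha ?_
    rw [smul_neg, qoIm_conj1, neg_neg]
  have h2 : qoIm (star (-star a) * star c) = qoN a * qoIm (star a * c) * star (qoN a) :=
    qo_conj_smul ha (qoIm_conj2 a c)
  have h3 := qoN_star_mul ha
  have h4 : qoN a * qoIm (star a * b) * star (qoN a) * (qoN a * qoIm (star a * c) *
      star (qoN a)) = qoN a * (qoIm (star a * b) * qoIm (star a * c)) * star (qoN a) := by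
    calc _ = qoN a * qoIm (star a * b) * (star (qoN a) * qoN a) * qoIm (star a * c) *
        star (qoN a) := by noncomm_ring
      _ = _ := by rw [h3]; noncomm_ring
  rw [qoG, ← neg_neg (qoIm (star (-star a) * (-star b))), h1, h2, neg_mul, h4, qoIm_neg,
    qoIm_conj3, qoN_neg, qoN_conj (qoN_norm ha), qoG]

/-- the quaternion i -/
def qoI : ℍ[ℝ] := ⟨0, 1, 0, 0⟩

/-- the quaternion j -/
def qoJ : ℍ[ℝ] := ⟨0, 0, 1, 0⟩

/-- the quaternion k -/
def qoK : ℍ[ℝ] := ⟨0, 0, 0, 1⟩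

theorem qoI_comp : qoI.re = 0 ∧ qoI.imI = 1 ∧ qoI.imJ = 0 ∧ qoI.imK = 0 :=
  ⟨rfl, rfl, rfl, rfl⟩

theorem qoJ_comp : qoJ.re = 0 ∧ qoJ.imI = 0 ∧ qoJ.imJ = 1 ∧ qoJ.imK = 0 :=
  ⟨rfl, rfl, rfl, rfl⟩

theorem qoK_comp : qoK.re = 0 ∧ qoK.imI = 0 ∧ qoK.imJ = 0 ∧ qoK.imK = 1 :=
  ⟨rfl, rfl, rfl, rfl⟩

theorem qoK_i : qoK * qoI = -(qoI * qoK) := by
  ext <;> simp [qoK_comp, qoI_comp]

theorem qoK_j : qoK * qoJ = -(qoJ * qoK) := by
  ext <;> simp [qoK_comp, qoJ_comp]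

theorem no_odd_frames {a b c : ℝ × ℝ → ℍ[ℝ]} (ha : Continuous a) (hb : Continuous b)
    (hc : Continuous c)
    (hind : ∀ x, ∀ r s t : ℝ, r • a x + s • b x + t • c x = 0 → r = 0 ∧ s = 0 ∧ t = 0)
    (oa : ∀ θ φ, a (θ, φ + Real.pi) = -a (θ, φ)) (ob : ∀ θ φ, b (θ, φ + Real.pi) = -b (θ, φ))
    (oc : ∀ θ φ, c (θ, φ + Real.pi) = -c (θ, φ))
    (ta : ∀ θ φ, a (θ + 1, -φ) = -star (a (θ, φ))) (tb : ∀ θ φ, b (θ + 1, -φ) = -star (b (θ, φ)))
    (tc : ∀ θ φ, c (θ + 1, -φ) = star (c (θ, φ))) : False := by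
  have ha0 : ∀ x, a x ≠ 0 := by
    intro x h
    exact one_ne_zero (hind x 1 0 0 (by simp [h])).1
  have hX : Continuous fun x => qoIm (star (a x) * b x) :=
    qoIm_continuous.comp ((continuous_star.comp ha).mul hb)
  have hY : Continuous fun x => qoIm (star (a x) * c x) :=
    qoIm_continuous.comp ((continuous_star.comp ha).mul hc)
  have hG : Continuous fun x => qoIm (qoIm (star (a x) * b x) * qoIm (star (a x) * c x)) :=
    qoIm_continuous.comp (hX.mul hY)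
  have hne : ∀ x, qoIm (star (a x) * b x) ≠ 0 ∧
      qoIm (qoIm (star (a x) * b x) * qoIm (star (a x) * c x)) ≠ 0 := fun x =>
    qo_cross_ne (qoIm_re _) (qoIm_re _) (qo_indep (hind x))
  have hN : ∀ f : ℝ × ℝ → ℍ[ℝ], Continuous f → (∀ x, f x ≠ 0) → Continuous fun x => qoN (f x) := by
    intro f hf h0
    exact (hf.norm.inv₀ fun x => norm_ne_zero_iff.mpr (h0 x)).smul hf
  have cA : Continuous fun x => qoA (a x) (b x) := hN _ hX fun x => (hne x).1
  have cG : Continuous fun x => qoG (a x) (b x) (c x) := hN _ hG fun x => (hne x).2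
  have cu : Continuous fun x => qoN (a x) := hN _ ha ha0
  obtain ⟨q, cq, nq, qi, qj⟩ := exists_frame_lift cA cG
    (fun x => qoN_sq _ (qoIm_re _) (hne x).1) (fun x => qoN_sq _ (qoIm_re _) (hne x).2)
    (fun x => qoN_anti _ _ (qoIm_re _) (qoIm_re _))
  have q0 : ∀ x, q x ≠ 0 := fun x h => by
    have := nq x
    rw [h, norm_zero] at this
    exact zero_ne_one this
  -- (1)
  have s1 : (∀ x : ℝ × ℝ, q (x.1, x.2 + Real.pi) = q x) ∨
      ∀ x : ℝ × ℝ, q (x.1, x.2 + Real.pi) = -q x := by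
    refine const_sign cq (cq.comp (by fun_prop)) q0 fun x => ?_
    refine frame_lift_unique (α := qoA (a x) (b x)) (β := qoG (a x) (b x) (c x)) (nq x) (nq _)
      (qi x) (qj x) ?_ ?_
    · have := qi (x.1, x.2 + Real.pi)
      rwa [oa, ob, qoA_neg] at this
    · have := qj (x.1, x.2 + Real.pi)
      rwa [oa, ob, oc, qoG_neg] at this
  -- (2)
  obtain ⟨k, hk⟩ : ∃ k : ℍ[ℝ], k = qoK := ⟨_, rfl⟩
  obtain ⟨i, hi⟩ : ∃ i : ℍ[ℝ], i = qoI := ⟨_, rfl⟩
  obtain ⟨j, hj⟩ : ∃ j : ℍ[ℝ], j = qoJ := ⟨_, rfl⟩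
  have ki : k * i = -(i * k) := by rw [hk, hi]; exact qoK_i
  have kj : k * j = -(j * k) := by rw [hk, hj]; exact qoK_j
  have nk : ‖k‖ = 1 := by
    have : ‖k‖ * ‖k‖ = 1 := by
      rw [← Quaternion.normSq_eq_norm_mul_self, Quaternion.normSq_def']
      simp [hk, qoK]
    nlinarith [norm_nonneg k]
  have s2 : (∀ x : ℝ × ℝ, q (x.1 + 1, -x.2) = qoN (a x) * q x * k) ∨
      ∀ x : ℝ × ℝ, q (x.1 + 1, -x.2) = -(qoN (a x) * q x * k) := by
    refine const_sign ((cu.mul cq).mul continuous_const) (cq.comp (by fun_prop)) (fun x => ?_)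
      fun x => ?_
    · refine mul_ne_zero (mul_ne_zero ?_ (q0 x)) ?_
      · rw [← norm_ne_zero_iff, qoN_norm (ha0 x)]; exact one_ne_zero
      · rw [← norm_ne_zero_iff, nk]; exact one_ne_zero
    · have hu := qoN_star_mul (ha0 x)
      refine frame_lift_unique (α := qoA (a (x.1 + 1, -x.2)) (b (x.1 + 1, -x.2)))
        (β := qoG (a (x.1 + 1, -x.2)) (b (x.1 + 1, -x.2)) (c (x.1 + 1, -x.2))) ?_ (nq _)
        ?_ ?_ (qi _) (qj _)
      · rw [norm_mul, norm_mul, qoN_norm (ha0 x), nq, nk, one_mul, one_mul]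
      · rw [ta, tb, qoA_turn _ (ha0 x)]
        have qi' : qoA (a x) (b x) * q x = q x * i := by rw [hi]; exact qi x
        calc -(qoN (a x) * qoA (a x) (b x) * star (qoN (a x))) * (qoN (a x) * q x * k)
            = -(qoN (a x) * qoA (a x) (b x) * (star (qoN (a x)) * qoN (a x)) * q x * k) := by
              noncomm_ring
          _ = -(qoN (a x) * (qoA (a x) (b x) * q x) * k) := by rw [hu]; noncomm_ring
          _ = qoN (a x) * q x * -(i * k) := by rw [qi']; noncomm_ring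
          _ = qoN (a x) * q x * k * i := by rw [← ki]; noncomm_ring
          _ = _ := by rw [hi]; rfl
      · rw [ta, tb, tc, qoG_turn _ _ (ha0 x)]
        have qj' : qoG (a x) (b x) (c x) * q x = q x * j := by rw [hj]; exact qj x
        calc -(qoN (a x) * qoG (a x) (b x) (c x) * star (qoN (a x))) * (qoN (a x) * q x * k)
            = -(qoN (a x) * qoG (a x) (b x) (c x) * (star (qoN (a x)) * qoN (a x)) *
                q x * k) := by noncomm_ring
          _ = -(qoN (a x) * (qoG (a x) (b x) (c x) * q x) * k) := by rw [hu]; noncomm_ring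
          _ = qoN (a x) * q x * -(j * k) := by rw [qj']; noncomm_ring
          _ = qoN (a x) * q x * k * j := by rw [← kj]; noncomm_ring
          _ = _ := by rw [hj]; rfl
  -- (3)
  have key : ∀ x : ℝ × ℝ, q (x.1 + 1, -x.2) = -q (x.1 + 1, -x.2) := by
    intro x
    have hN' : qoN (a (x.1, x.2 + Real.pi)) = -qoN (a x) := by rw [oa, qoN_neg]
    have e : -(x.2 + Real.pi) + Real.pi = -x.2 := by ring
    rcases s1 with s1 | s1 <;> rcases s2 with s2 | s2
    all_goals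
      have h1 := s2 (x.1, x.2 + Real.pi)
      have h2 := s1 (x.1 + 1, -(x.2 + Real.pi))
      have h3 := s1 x
      have h4 := s2 x
      simp only at h1 h2
      rw [hN', h3] at h1
      rw [e, h1] at h2
      nth_rewrite 1 [h2]
      rw [h4]
      noncomm_ring
  have h1 := key (0, 0)
  have h2 := q0 (((0, 0) : ℝ × ℝ).1 + 1, -((0, 0) : ℝ × ℝ).2)
  have h3 : (2 : ℝ) • q (((0, 0) : ℝ × ℝ).1 + 1, -((0, 0) : ℝ × ℝ).2) = 0 := by
    rw [two_smul]
    nth_rewrite 1 [h1]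
    rw [neg_add_cancel]
  rcases smul_eq_zero.mp h3 with h4 | h4
  · norm_num at h4
  · exact h2 h4

end Pool.Agent.TotallySkew
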