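import Pool.Agent.TotallySkew.Open.MT

/-!
THIN: thin neighbourhoods.
-/

open scoped Manifold ContDiff Topology
open Function Set

namespace Pool.Agent.TotallySkew

section THIN
variable {E H M V : Type*} [NormedAddCommGroup E] [NormedSpace ℝ E]
  [TopologicalSpace H] {I : ModelWithCorners ℝ E H}
  [TopologicalSpace M] [ChartedSpace H M]
  [NormedAddCommGroup V] [NormedSpace ℝ V]

theorem SkewPair.ne {ψ : M → V} {x y : M} (h : SkewPair I ψ x y) : ψ x ≠ ψ y := by
  intro hxy
  have h1 := injective_pairMap_iff.1 h 0 0 1 (by rw [hxy]; simp)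
  exact one_ne_zero h1.2.2

theorem exists_open_of_local [T2Space M] [LocallyCompactSpace M] {K : Set M} (hK : IsCompact K)
    {ψ : M → V} (hψ : Continuous ψ)
    (hfar : ∀ x ∈ K, ∀ y ∈ K, x ≠ y → ∀ᶠ z : M × M in 𝓝 (x, y), SkewPair I ψ z.1 z.2)
    (hnear : ∀ x ∈ K, ∃ U ∈ 𝓝 x, ∀ y ∈ U, ∀ z ∈ U, y ≠ z → SkewPair I ψ y z)
    (himm : ∀ x ∈ K, ∃ U ∈ 𝓝 x, ∀ y ∈ U, Injective (mvfderiv I ψ y)) :
    ∃ U : Set M, IsOpen U ∧ K ⊆ U ∧ (∀ x ∈ U, ∀ y ∈ U, x ≠ y → SkewPair I ψ x y) ∧
      (∀ x ∈ U, Injective (mvfderiv I ψ x)) ∧ Topology.IsEmbedding (fun x : U => ψ x) := by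
  set W : Set (M × M) := interior {z | z.1 ≠ z.2 → SkewPair I ψ z.1 z.2} with hW
  have hKW : K ×ˢ K ⊆ W := by
    rintro ⟨x, y⟩ ⟨hx, hy⟩
    rw [hW, mem_interior_iff_mem_nhds]
    by_cases hxy : x = y
    · subst hxy
      obtain ⟨U, hU, hU'⟩ := hnear x hx
      filter_upwards [prod_mem_nhds hU hU] with z hz
      exact hU' z.1 hz.1 z.2 hz.2
    · filter_upwards [hfar x hx y hy hxy] with z hz
      exact fun _ => hz
  obtain ⟨U₁, U₂, o₁, o₂, hKU₁, hKU₂, hUW⟩ := generalized_tube_lemma hK hK isOpen_interior hKW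
  set A : Set M := interior {x | Injective (mvfderiv I ψ x)} with hA
  have hKA : K ⊆ A := by
    intro x hx
    rw [hA, mem_interior_iff_mem_nhds]
    obtain ⟨U, hU, hU'⟩ := himm x hx
    filter_upwards [hU] with z hz
    exact hU' z hz
  obtain ⟨U, hUo, hKU, hcl, hcc⟩ := exists_open_between_and_isCompact_closure hK
    ((o₁.inter o₂).inter (isOpen_interior : IsOpen A))
    (subset_inter (subset_inter hKU₁ hKU₂) hKA)
  have hskew : ∀ x ∈ closure U, ∀ y ∈ closure U, x ≠ y → SkewPair I ψ x y := by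
    intro x hx y hy hxy
    have h1 := hcl hx
    have h2 := hcl hy
    exact (interior_subset (hUW (mk_mem_prod h1.1.1 h2.1.2)) : _) hxy
  refine ⟨U, hUo, hKU, fun x hx y hy hxy => hskew x (subset_closure hx) y (subset_closure hy) hxy,
    fun x hx => (interior_subset (hcl (subset_closure hx)).2 : _), ?_⟩
  have hinj : Injective (fun x : closure U => ψ x) := by
    intro x y hxy
    by_contra hne
    exact (hskew x x.2 y y.2 (fun h => hne (Subtype.ext h))).ne hxy
  have hemb : Topology.IsEmbedding (fun x : closure U => ψ x) := by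
    have : CompactSpace (closure U) := isCompact_iff_compactSpace.1 hcc
    exact ((hψ.comp continuous_subtype_val).isClosedEmbedding hinj).isEmbedding
  have h3 : (fun x : U => ψ x) = (fun x : closure U => ψ x) ∘ (inclusion subset_closure) := rfl
  rw [h3]
  exact hemb.comp (Topology.IsEmbedding.inclusion subset_closure)

theorem isTotallySkewEmbedding_of_shrink {U : Set M} {ψ : M → V}
    (hψ : ContMDiff I 𝓘(ℝ, V) ∞ ψ)
    (hU : ∀ x ∈ U, ∀ y ∈ U, x ≠ y → SkewPair I ψ x y)
    (himm : ∀ x ∈ U, Injective (mvfderiv I ψ x))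
    (hemb : Topology.IsEmbedding (fun x : U => ψ x))
    {f : M → M} (hf : ContMDiff I I ∞ f) (hfe : Topology.IsEmbedding f)
    (hfi : ∀ x, Injective (mfderiv I I f x)) (hr : Set.range f ⊆ U) :
    IsTotallySkewEmbedding I (ψ ∘ f) := by
  have hder : ∀ x (u : TangentSpace I x), mvfderiv I (ψ ∘ f) x u
      = mvfderiv I ψ (f x) (mfderiv I I f x u) := by
    intro x u
    exact mfderiv_comp_apply x ((hψ (f x)).mdifferentiableAt (by simp))
      ((hf x).mdifferentiableAt (by simp)) u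
  have hfU : ∀ x, f x ∈ U := fun x => hr (mem_range_self x)
  refine ⟨hψ.comp hf, ?_, ?_, ?_⟩
  · have h1 : Topology.IsEmbedding (fun x => (⟨f x, hfU x⟩ : U)) := hfe.codRestrict U hfU
    exact hemb.comp h1
  · intro x u v huv
    rw [hder, hder] at huv
    exact hfi x (himm _ (hfU x) huv)
  · intro x y hxy
    have hne : f x ≠ f y := fun h => hxy (hfe.injective h)
    have h1 := hU _ (hfU x) _ (hfU y) hne
    have h2 : Injective (pairMap (mvfderiv I (ψ ∘ f) x) (mvfderiv I (ψ ∘ f) y)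
        ((ψ ∘ f) x - (ψ ∘ f) y)) := by
      rw [injective_pairMap_iff]
      intro a b c habc
      rw [hder, hder] at habc
      obtain ⟨ha, hb, hc⟩ := injective_pairMap_iff.1 h1 _ _ c habc
      exact ⟨(injective_iff_map_eq_zero _).1 (hfi x) a ha,
        (injective_iff_map_eq_zero _).1 (hfi y) b hb, hc⟩
    exact skew_of_injective_pairMap h2

end THIN

end Pool.Agent.TotallySkew
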