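import Pool.Agent.TotallySkew.Open.EX
import Pool.Agent.TotallySkew.Open.PR
import Pool.Agent.TotallySkew.Open.THIN

/-!
SP: surfaces with a spine have a totally skew embedding in dimension seven.

exists_open_of_goodMap: apply exists_open_of_local. hfar: x = β i (t, 0), y = β j (t', 0) by hcov,
eventually_skewPair. hnear: x = β j (t, 0) with t in [0, 1]; nearDiag_id for F = ψ ∘ β j at (t, 0)
gives a neighbourhood W of (t, 0) in ℝ × ℝ, the image of W under the local homeomorphism β j is a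
neighbourhood of x; two different points of it are β j p, β j q with p ≠ q in W;
skewPair_iff_strip. himm: cubMap (ψ ∘ β j) id (t, 0) v injective gives fderiv (ψ ∘ β j) (t, 0)
injective, an open condition, transported by mvfderiv_strip.
exists_embedding_seven_of_spine: exists_goodMap, exists_goodMap_seven, exists_open_of_goodMap,
ShrinksTo, isTotallySkewEmbedding_of_shrink.
-/

open scoped Manifold ContDiff Topology
open Function Set

namespace Pool.Agent.TotallySkew

section SP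
variable {E H M V : Type*} [NormedAddCommGroup E] [NormedSpace ℝ E]
  [TopologicalSpace H] {I : ModelWithCorners ℝ E H}
  [TopologicalSpace M] [ChartedSpace H M] [T2Space M] [LocallyCompactSpace M]
  [NormedAddCommGroup V] [NormedSpace ℝ V] [FiniteDimensional ℝ V]

theorem exists_open_of_goodMap {K : Set M} (hK : IsCompact K) {n : ℕ} {β : Fin n → ℝ × ℝ → M}
    (hβ : ∀ j, IsLocalDiffeomorph 𝓘(ℝ, ℝ × ℝ) I ∞ (β j))
    (hcov : K ⊆ ⋃ j, (fun t : ℝ => β j (t, 0)) '' Set.Icc 0 1) {ψ : M → V}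
    (h : GoodMap I K β ψ) :
    ∃ U : Set M, IsOpen U ∧ K ⊆ U ∧ (∀ x ∈ U, ∀ y ∈ U, x ≠ y → SkewPair I ψ x y) ∧
      (∀ x ∈ U, Injective (mvfderiv I ψ x)) ∧ Topology.IsEmbedding (fun x : U => ψ x) := by
  have hcov' : ∀ x ∈ K, ∃ j, ∃ t ∈ Set.Icc (0 : ℝ) 1, β j (t, 0) = x := by
    intro x hx
    simpa using hcov hx
  refine exists_open_of_local hK h.smooth.continuous ?_ ?_ ?_
  · intro x hx y hy hxy
    obtain ⟨i, t, ht, rfl⟩ := hcov' x hx
    obtain ⟨j, s, hs, rfl⟩ := hcov' y hy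
    exact eventually_skewPair (hβ i) (hβ j) h.smooth (h.far _ hx _ hy hxy)
  · intro x hx
    obtain ⟨j, t, ht, rfl⟩ := hcov' x hx
    obtain ⟨U, hU, hU2⟩ := nearDiag_id (h.smooth.comp (hβ j).contMDiff).contDiff (t, 0)
      (h.near j t ht)
    refine ⟨β j '' U, (hβ j).isOpenMap.image_mem_nhds hU, ?_⟩
    rintro _ ⟨p, hp, rfl⟩ _ ⟨q, hq, rfl⟩ hpq
    exact (skewPair_iff_strip (hβ j p) (hβ j q) h.smooth).2
      (hU2 p hp q hq (fun h => hpq (by rw [h])))
  · intro x hx
    obtain ⟨j, t, ht, rfl⟩ := hcov' x hx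
    have h1 := h.near j t ht (1, 0) (by simp)
    have h2 : Injective (fderiv ℝ (ψ ∘ β j) (t, 0)) := by
      intro a b hab
      have h3 := @h1 (a, 0, 0) (b, 0, 0) (by
        unfold cubMap
        simp only [pairMap_apply, map_zero, zero_smul, add_zero]
        exact hab)
      exact congrArg Prod.fst h3
    have hsm : ContDiff ℝ ∞ (ψ ∘ β j) := (h.smooth.comp (hβ j).contMDiff).contDiff
    have hd : Continuous (fderiv ℝ (ψ ∘ β j)) := hsm.continuous_fderiv (by simp)
    have h4 : {q : ℝ × ℝ | Injective (fderiv ℝ (ψ ∘ β j) q)} ∈ 𝓝 ((t, 0) : ℝ × ℝ) :=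
      (ContinuousLinearMap.isOpen_injective.preimage hd).mem_nhds h2
    refine ⟨_, (hβ j).isOpenMap.image_mem_nhds h4, ?_⟩
    rintro _ ⟨q, hq, rfl⟩
    obtain ⟨e, he⟩ := mvfderiv_strip (hβ j q) h.smooth
    intro a b hab
    have h5 : e.symm a = e.symm b := hq (by
      rw [he, he, e.apply_symm_apply, e.apply_symm_apply]
      exact hab)
    exact e.symm.injective h5

theorem exists_embedding_seven_of_spine [FiniteDimensional ℝ E] [IsManifold I ∞ M]
    (h : HasSpine I M) :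
    ∃ φ : M → EuclideanSpace ℝ (Fin 7), IsTotallySkewEmbedding I φ := by
  obtain ⟨K, hK, ⟨n, β, hβ, hcov⟩, hsh⟩ := h
  obtain ⟨N, ψ, hψ⟩ := exists_goodMap hK hβ hcov
  obtain ⟨ψ', hψ'⟩ := exists_goodMap_seven hβ hcov hψ
  obtain ⟨U, hUo, hKU, h1, h2, h3⟩ := exists_open_of_goodMap hK hβ hcov hψ'
  obtain ⟨f, hf1, hf2, hf3, hf4⟩ := hsh U hUo hKU
  exact ⟨ψ' ∘ f, isTotallySkewEmbedding_of_shrink hψ'.smooth h1 h2 h3 hf1 hf2 hf3 hf4⟩

end SP

end Pool.Agent.TotallySkew
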